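import Pool.Agent.Lib_helper78.FT.Defs

/-! Block D: base cases (levels 60, 84, 66, 78 and 2p). -/

set_option autoImplicit false
set_option linter.unusedSimpArgs false
set_option linter.unusedVariables false
set_option linter.unreachableTactic false
set_option linter.unusedTactic false

namespace Pool.Agent.FT

theorem OddDist.refl {m : ℕ} {Q : Type*} [AddCommGroup Q] {f : ℤ → Q} (h : OddDist m f) (x : ℤ) :
    f (m - x) = - f x := by
  rw [← h.neg, ← h.per (-x)]
  congr 1
  ring

theorem OddDist.half {m : ℕ} {Q : Type*} [AddCommGroup Q] {f : ℤ → Q} (h : OddDist m f) {n : ℕ}
    (hn : m = 2 * n) : f n = 0 := by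
  have := h.dist 2 Nat.prime_two n hn 0
  simpa [Finset.sum_range_succ] using this

theorem OddDist.per_mul {m : ℕ} {Q : Type*} [AddCommGroup Q] {f : ℤ → Q} (h : OddDist m f)
    (x : ℤ) (k : ℕ) : f (x + m * k) = f x := by
  induction k with
  | zero => simp
  | succ k ih =>
    rw [← ih, ← h.per (x + m * k)]
    congr 1
    push_cast
    ring

theorem OddDist.emod {m : ℕ} {Q : Type*} [AddCommGroup Q] {f : ℤ → Q} (h : OddDist m f)
    (x : ℤ) : f (x % m) = f x := by
  have hx := Int.emod_add_mul_ediv x m
  rcases le_or_gt 0 (x / m) with h0 | h0
  · obtain ⟨k, hk⟩ := Int.eq_ofNat_of_zero_le h0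
    rw [hk] at hx
    conv_rhs => rw [← hx]
    exact (h.per_mul _ k).symm
  · obtain ⟨k, hk⟩ := Int.eq_ofNat_of_zero_le (by omega : 0 ≤ -(x / m))
    have h2 : x % m = x + m * k := by
      rw [← hk]; linear_combination hx
    rw [h2]
    exact h.per_mul x k

theorem OddDist.all_zero {m : ℕ} {Q : Type*} [AddCommGroup Q] {f : ℤ → Q} (h : OddDist m f)
    (hm : 0 < m) (h2 : ∀ a : ℤ, 0 ≤ a → a < m → f a = 0) : ∀ x, f x = 0 := by
  intro x
  rw [← h.emod]
  exact h2 _ (Int.emod_nonneg _ (by positivity)) (Int.emod_lt_of_pos _ (by positivity))

theorem goodTuple_of (m : ℕ) (e : List ℤ) (hm : 0 < m)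
    (h : e.length = 4 ∧ (∀ x ∈ e, ¬ (m : ℤ) ∣ x) ∧ (m : ℤ) ∣ e.sum ∧
      ∀ t ∈ Finset.range m, t.Coprime m → (e.map fun x => ((t : ℤ) * x) % m).sum = 2 * m) :
    GoodTuple m e := by
  obtain ⟨h1, h2, h3, h4⟩ := h
  refine ⟨h1, h2, h3, fun t ht => ?_⟩
  have h5 := h4 (t % m) (Finset.mem_range.2 (Nat.mod_lt _ hm)) (by
    rw [Nat.Coprime, ← Nat.gcd_rec, Nat.gcd_comm]; exact ht)
  rw [← h5]
  congr 1
  apply List.map_congr_left
  intro x _
  push_cast
  rw [Int.mul_emod, Int.mul_emod ((t : ℤ) % m) x, Int.emod_emod_of_dvd _ dvd_rfl]

theorem base_two_p (p : ℕ) (hp : p.Prime) (hp3 : p ≠ 2) : Rigid (2 * p) [] := by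
  have hodd : p % 2 = 1 := by
    rcases hp.eq_two_or_odd with h | h
    · exact absurd h hp3
    · exact h
  have hp0 : 0 < p := hp.pos
  refine ⟨(Finset.range (p / 2)).image (fun k : ℕ => 2 * ((k : ℤ) + 1)), ?_, ?_⟩
  · have h1 : ((Finset.range (p / 2)).image (fun k : ℕ => 2 * ((k : ℤ) + 1))).card ≤ p / 2 := by
      refine Finset.card_image_le.trans ?_
      simp
    have h2 : (2 * p).totient = p - 1 := by
      rw [Nat.totient_mul_of_prime_of_not_dvd Nat.prime_two (by omega), Nat.totient_prime hp]
      omega
    omega
  · intro Q _ f h _ hK
    have hK' : ∀ k : ℤ, 0 < k → 2 * k < p → f (2 * k) = 0 := by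
      intro k h0 h1
      apply hK
      rw [Finset.mem_image]
      refine ⟨(k - 1).toNat, Finset.mem_range.2 (by omega), ?_⟩
      have : (((k - 1).toNat : ℕ) : ℤ) = k - 1 := Int.toNat_of_nonneg (by omega)
      rw [this]; ring
    have hev : ∀ k : ℤ, 0 ≤ k → k < p → f (2 * k) = 0 := by
      intro k h0 h1
      rcases h0.lt_or_eq with h2 | h2
      · rcases lt_or_ge (2 * k) p with h3 | h3
        · exact hK' k h2 h3
        · have h4 := h.refl (2 * ((p : ℤ) - k))
          have h5 : ((2 * p : ℕ) : ℤ) - 2 * ((p : ℤ) - k) = 2 * k := by push_cast; ring
          rw [h5, hK' ((p : ℤ) - k) (by omega) (by omega), neg_zero] at h4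
          exact h4
      · rw [← h2, mul_zero]; exact h.zero
    have heven : ∀ x : ℤ, f (2 * x) = 0 := by
      intro x
      rw [← h.emod]
      have h1 : (2 * x) % ((2 * p : ℕ) : ℤ) = 2 * (x % p) := by
        push_cast
        rw [Int.mul_emod_mul_of_pos _ _ (by norm_num)]
      rw [h1]
      exact hev _ (Int.emod_nonneg _ (by positivity)) (Int.emod_lt_of_pos _ (by positivity))
    intro x
    rcases Int.even_or_odd' x with ⟨k, hk | hk⟩
    · rw [hk]; exact heven k
    · have h1 := h.dist 2 Nat.prime_two p rfl x
      simp only [Finset.sum_range_succ, Finset.sum_range_zero, zero_add, Nat.cast_zero, zero_mul,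
        add_zero, Nat.cast_one, one_mul] at h1
      have h2 : x + p = 2 * (k + (p / 2 : ℕ) + 1) := by omega
      rw [h2, heven] at h1
      have h3 : ((2 : ℕ) : ℤ) * x = 2 * x := by norm_num
      rw [h3, heven, add_zero] at h1
      exact h1

theorem base_60 : ∃ E, (∀ e ∈ E, GoodTuple 60 e) ∧ Rigid 60 E := by
  refine ⟨[[24, 26, 30, 40], [12, 29, 30, 49], [15, 20, 30, 55]], ?_, ?_⟩
  · intro e he
    simp only [List.mem_cons, List.not_mem_nil, or_false] at he
    rcases he with rfl | rfl | rfl <;> exact goodTuple_of 60 _ (by norm_num) (by decide)
  · refine ⟨{12, 13, 17, 19, 20, 21, 25, 28}, ?_, ?_⟩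
    · rw [show Nat.totient 60 = 16 by decide]; decide
    · intro Q _ f h hE hK
      have r31 : f 31 = - f 29 := by simpa using h.refl 29
      have r32 : f 32 = - f 28 := by simpa using h.refl 28
      have r33 : f 33 = - f 27 := by simpa using h.refl 27
      have r34 : f 34 = - f 26 := by simpa using h.refl 26
      have r35 : f 35 = - f 25 := by simpa using h.refl 25
      have r36 : f 36 = - f 24 := by simpa using h.refl 24
      have r37 : f 37 = - f 23 := by simpa using h.refl 23
      have r38 : f 38 = - f 22 := by simpa using h.refl 22
      have r39 : f 39 = - f 21 := by simpa using h.refl 21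
      have r40 : f 40 = - f 20 := by simpa using h.refl 20
      have r41 : f 41 = - f 19 := by simpa using h.refl 19
      have r42 : f 42 = - f 18 := by simpa using h.refl 18
      have r43 : f 43 = - f 17 := by simpa using h.refl 17
      have r44 : f 44 = - f 16 := by simpa using h.refl 16
      have r45 : f 45 = - f 15 := by simpa using h.refl 15
      have r46 : f 46 = - f 14 := by simpa using h.refl 14
      have r47 : f 47 = - f 13 := by simpa using h.refl 13
      have r48 : f 48 = - f 12 := by simpa using h.refl 12
      have r49 : f 49 = - f 11 := by simpa using h.refl 11
      have r50 : f 50 = - f 10 := by simpa using h.refl 10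
      have r51 : f 51 = - f 9 := by simpa using h.refl 9
      have r52 : f 52 = - f 8 := by simpa using h.refl 8
      have r53 : f 53 = - f 7 := by simpa using h.refl 7
      have r54 : f 54 = - f 6 := by simpa using h.refl 6
      have r55 : f 55 = - f 5 := by simpa using h.refl 5
      have r56 : f 56 = - f 4 := by simpa using h.refl 4
      have r57 : f 57 = - f 3 := by simpa using h.refl 3
      have r58 : f 58 = - f 2 := by simpa using h.refl 2
      have r59 : f 59 = - f 1 := by simpa using h.refl 1
      have r0 : f 0 = 0 := h.zero
      have r30 : f 30 = 0 := h.half (by norm_num)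
      have z12 : f 12 = 0 := hK 12 (by decide)
      have z13 : f 13 = 0 := hK 13 (by decide)
      have z17 : f 17 = 0 := hK 17 (by decide)
      have z19 : f 19 = 0 := hK 19 (by decide)
      have z20 : f 20 = 0 := hK 20 (by decide)
      have z21 : f 21 = 0 := hK 21 (by decide)
      have z25 : f 25 = 0 := hK 25 (by decide)
      have z28 : f 28 = 0 := hK 28 (by decide)
      have e : f 10 + f 40 = f 20 := by
        simpa [Finset.sum_range_succ] using h.dist 2 (by norm_num) 30 (by norm_num) 10
      have z10 : f 10 = 0 := by
        simp only [r40, z20, neg_zero, add_zero, zero_add] at e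
        first | exact e | exact e.symm | simpa using e | simpa using e.symm
      clear e
      have e : f 5 + f 35 = f 10 := by
        simpa [Finset.sum_range_succ] using h.dist 2 (by norm_num) 30 (by norm_num) 5
      have z5 : f 5 = 0 := by
        simp only [r35, z25, z10, neg_zero, add_zero, zero_add] at e
        first | exact e | exact e.symm | simpa using e | simpa using e.symm
      clear e
      have e : f 13 + f 43 = f 26 := by
        simpa [Finset.sum_range_succ] using h.dist 2 (by norm_num) 30 (by norm_num) 13
      have z26 : f 26 = 0 := by
        simp only [r43, z13, z17, neg_zero, add_zero, zero_add] at e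
        first | exact e | exact e.symm | simpa using e | simpa using e.symm
      clear e
      have e : f 24 + f 26 + f 30 + f 40 = 0 := by
        have := hE [24, 26, 30, 40] (by simp)
        simpa [add_assoc] using this
      have z24 : f 24 = 0 := by
        simp only [r30, r40, z26, z20, neg_zero, add_zero, zero_add] at e
        first | exact e | exact e.symm | simpa using e | simpa using e.symm
      clear e
      have e : f 12 + f 42 = f 24 := by
        simpa [Finset.sum_range_succ] using h.dist 2 (by norm_num) 30 (by norm_num) 12
      have z18 : f 18 = 0 := by
        simp only [r42, z12, z24, neg_zero, add_zero, zero_add] at e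
        first | exact e | exact e.symm | simpa using e | simpa using e.symm
      clear e
      have e : f 9 + f 39 = f 18 := by
        simpa [Finset.sum_range_succ] using h.dist 2 (by norm_num) 30 (by norm_num) 9
      have z9 : f 9 = 0 := by
        simp only [r39, z21, z18, neg_zero, add_zero, zero_add] at e
        first | exact e | exact e.symm | simpa using e | simpa using e.symm
      clear e
      have e : f 6 + f 36 = f 12 := by
        simpa [Finset.sum_range_succ] using h.dist 2 (by norm_num) 30 (by norm_num) 6
      have z6 : f 6 = 0 := by
        simp only [r36, z24, z12, neg_zero, add_zero, zero_add] at e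
        first | exact e | exact e.symm | simpa using e | simpa using e.symm
      clear e
      have e : f 6 + f 26 + f 46 = f 18 := by
        simpa [Finset.sum_range_succ] using h.dist 3 (by norm_num) 20 (by norm_num) 6
      have z14 : f 14 = 0 := by
        simp only [r46, z6, z26, z18, neg_zero, add_zero, zero_add] at e
        first | exact e | exact e.symm | simpa using e | simpa using e.symm
      clear e
      have e : f 14 + f 44 = f 28 := by
        simpa [Finset.sum_range_succ] using h.dist 2 (by norm_num) 30 (by norm_num) 14
      have z16 : f 16 = 0 := by
        simp only [r44, z14, z28, neg_zero, add_zero, zero_add] at e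
        first | exact e | exact e.symm | simpa using e | simpa using e.symm
      clear e
      have e : f 4 + f 24 + f 44 = f 12 := by
        simpa [Finset.sum_range_succ] using h.dist 3 (by norm_num) 20 (by norm_num) 4
      have z4 : f 4 = 0 := by
        simp only [r44, z24, z16, z12, neg_zero, add_zero, zero_add] at e
        first | exact e | exact e.symm | simpa using e | simpa using e.symm
      clear e
      have e : f 4 + f 34 = f 8 := by
        simpa [Finset.sum_range_succ] using h.dist 2 (by norm_num) 30 (by norm_num) 4
      have z8 : f 8 = 0 := by
        simp only [r34, z4, z26, neg_zero, add_zero, zero_add] at e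
        first | exact e | exact e.symm | simpa using e | simpa using e.symm
      clear e
      have e : f 8 + f 38 = f 16 := by
        simpa [Finset.sum_range_succ] using h.dist 2 (by norm_num) 30 (by norm_num) 8
      have z22 : f 22 = 0 := by
        simp only [r38, z8, z16, neg_zero, add_zero, zero_add] at e
        first | exact e | exact e.symm | simpa using e | simpa using e.symm
      clear e
      have e : f 11 + f 41 = f 22 := by
        simpa [Finset.sum_range_succ] using h.dist 2 (by norm_num) 30 (by norm_num) 11
      have z11 : f 11 = 0 := by
        simp only [r41, z19, z22, neg_zero, add_zero, zero_add] at e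
        first | exact e | exact e.symm | simpa using e | simpa using e.symm
      clear e
      have e : f 2 + f 32 = f 4 := by
        simpa [Finset.sum_range_succ] using h.dist 2 (by norm_num) 30 (by norm_num) 2
      have z2 : f 2 = 0 := by
        simp only [r32, z28, z4, neg_zero, add_zero, zero_add] at e
        first | exact e | exact e.symm | simpa using e | simpa using e.symm
      clear e
      have e : f 12 + f 29 + f 30 + f 49 = 0 := by
        have := hE [12, 29, 30, 49] (by simp)
        simpa [add_assoc] using this
      have z29 : f 29 = 0 := by
        simp only [r30, r49, z12, z11, neg_zero, add_zero, zero_add] at e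
        first | exact e | exact e.symm | simpa using e | simpa using e.symm
      clear e
      have e : f 1 + f 31 = f 2 := by
        simpa [Finset.sum_range_succ] using h.dist 2 (by norm_num) 30 (by norm_num) 1
      have z1 : f 1 = 0 := by
        simp only [r31, z29, z2, neg_zero, add_zero, zero_add] at e
        first | exact e | exact e.symm | simpa using e | simpa using e.symm
      clear e
      have e : f 1 + f 21 + f 41 = f 3 := by
        simpa [Finset.sum_range_succ] using h.dist 3 (by norm_num) 20 (by norm_num) 1
      have z3 : f 3 = 0 := by
        simp only [r41, z1, z21, z19, neg_zero, add_zero, zero_add] at e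
        first | exact e | exact e.symm | simpa using e | simpa using e.symm
      clear e
      have e : f 3 + f 33 = f 6 := by
        simpa [Finset.sum_range_succ] using h.dist 2 (by norm_num) 30 (by norm_num) 3
      have z27 : f 27 = 0 := by
        simp only [r33, z3, z6, neg_zero, add_zero, zero_add] at e
        first | exact e | exact e.symm | simpa using e | simpa using e.symm
      clear e
      have e : f 7 + f 27 + f 47 = f 21 := by
        simpa [Finset.sum_range_succ] using h.dist 3 (by norm_num) 20 (by norm_num) 7
      have z7 : f 7 = 0 := by
        simp only [r47, z27, z13, z21, neg_zero, add_zero, zero_add] at e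
        first | exact e | exact e.symm | simpa using e | simpa using e.symm
      clear e
      have e : f 7 + f 37 = f 14 := by
        simpa [Finset.sum_range_succ] using h.dist 2 (by norm_num) 30 (by norm_num) 7
      have z23 : f 23 = 0 := by
        simp only [r37, z7, z14, neg_zero, add_zero, zero_add] at e
        first | exact e | exact e.symm | simpa using e | simpa using e.symm
      clear e
      have e : f 15 + f 20 + f 30 + f 55 = 0 := by
        have := hE [15, 20, 30, 55] (by simp)
        simpa [add_assoc] using this
      have z15 : f 15 = 0 := by
        simp only [r30, r55, z20, z5, neg_zero, add_zero, zero_add] at e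
        first | exact e | exact e.symm | simpa using e | simpa using e.symm
      clear e
      refine h.all_zero (by norm_num) ?_
      intro a h0 h1
      interval_cases a <;> simp only [r59, r58, r57, r56, r55, r54, r53, r52, r51, r50, r49, r48, r47, r46, r45, r44, r43, r42, r41, r40, r39, r38, r37, r36, r35, r34, r33, r32, r31, r0, r30, z1, z2, z3, z4, z5, z6, z7, z8, z9, z10, z11, z12, z13, z14, z15, z16, z17, z18, z19, z20, z21, z22, z23, z24, z25, z26, z27, z28, z29, neg_zero]

theorem base_84 : ∃ E, (∀ e ∈ E, GoodTuple 84 e) ∧ Rigid 84 E := by
  refine ⟨[[22, 24, 42, 80], [15, 17, 63, 73], [28, 35, 42, 63]], ?_, ?_⟩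
  · intro e he
    simp only [List.mem_cons, List.not_mem_nil, or_false] at he
    rcases he with rfl | rfl | rfl <;> exact goodTuple_of 84 _ (by norm_num) (by decide)
  · refine ⟨{3, 10, 11, 12, 16, 20, 23, 24, 27, 28, 33, 41}, ?_, ?_⟩
    · rw [show Nat.totient 84 = 24 by decide]; decide
    · intro Q _ f h hE hK
      have r43 : f 43 = - f 41 := by simpa using h.refl 41
      have r44 : f 44 = - f 40 := by simpa using h.refl 40
      have r45 : f 45 = - f 39 := by simpa using h.refl 39
      have r46 : f 46 = - f 38 := by simpa using h.refl 38
      have r47 : f 47 = - f 37 := by simpa using h.refl 37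
      have r48 : f 48 = - f 36 := by simpa using h.refl 36
      have r49 : f 49 = - f 35 := by simpa using h.refl 35
      have r50 : f 50 = - f 34 := by simpa using h.refl 34
      have r51 : f 51 = - f 33 := by simpa using h.refl 33
      have r52 : f 52 = - f 32 := by simpa using h.refl 32
      have r53 : f 53 = - f 31 := by simpa using h.refl 31
      have r54 : f 54 = - f 30 := by simpa using h.refl 30
      have r55 : f 55 = - f 29 := by simpa using h.refl 29
      have r56 : f 56 = - f 28 := by simpa using h.refl 28
      have r57 : f 57 = - f 27 := by simpa using h.refl 27
      have r58 : f 58 = - f 26 := by simpa using h.refl 26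
      have r59 : f 59 = - f 25 := by simpa using h.refl 25
      have r60 : f 60 = - f 24 := by simpa using h.refl 24
      have r61 : f 61 = - f 23 := by simpa using h.refl 23
      have r62 : f 62 = - f 22 := by simpa using h.refl 22
      have r63 : f 63 = - f 21 := by simpa using h.refl 21
      have r64 : f 64 = - f 20 := by simpa using h.refl 20
      have r65 : f 65 = - f 19 := by simpa using h.refl 19
      have r66 : f 66 = - f 18 := by simpa using h.refl 18
      have r67 : f 67 = - f 17 := by simpa using h.refl 17
      have r68 : f 68 = - f 16 := by simpa using h.refl 16
      have r69 : f 69 = - f 15 := by simpa using h.refl 15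
      have r70 : f 70 = - f 14 := by simpa using h.refl 14
      have r71 : f 71 = - f 13 := by simpa using h.refl 13
      have r72 : f 72 = - f 12 := by simpa using h.refl 12
      have r73 : f 73 = - f 11 := by simpa using h.refl 11
      have r74 : f 74 = - f 10 := by simpa using h.refl 10
      have r75 : f 75 = - f 9 := by simpa using h.refl 9
      have r76 : f 76 = - f 8 := by simpa using h.refl 8
      have r77 : f 77 = - f 7 := by simpa using h.refl 7
      have r78 : f 78 = - f 6 := by simpa using h.refl 6
      have r79 : f 79 = - f 5 := by simpa using h.refl 5
      have r80 : f 80 = - f 4 := by simpa using h.refl 4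
      have r81 : f 81 = - f 3 := by simpa using h.refl 3
      have r82 : f 82 = - f 2 := by simpa using h.refl 2
      have r83 : f 83 = - f 1 := by simpa using h.refl 1
      have r0 : f 0 = 0 := h.zero
      have r42 : f 42 = 0 := h.half (by norm_num)
      have z3 : f 3 = 0 := hK 3 (by decide)
      have z10 : f 10 = 0 := hK 10 (by decide)
      have z11 : f 11 = 0 := hK 11 (by decide)
      have z12 : f 12 = 0 := hK 12 (by decide)
      have z16 : f 16 = 0 := hK 16 (by decide)
      have z20 : f 20 = 0 := hK 20 (by decide)
      have z23 : f 23 = 0 := hK 23 (by decide)
      have z24 : f 24 = 0 := hK 24 (by decide)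
      have z27 : f 27 = 0 := hK 27 (by decide)
      have z28 : f 28 = 0 := hK 28 (by decide)
      have z33 : f 33 = 0 := hK 33 (by decide)
      have z41 : f 41 = 0 := hK 41 (by decide)
      have e : f 14 + f 56 = f 28 := by
        simpa [Finset.sum_range_succ] using h.dist 2 (by norm_num) 42 (by norm_num) 14
      have z14 : f 14 = 0 := by
        simp only [r56, z28, neg_zero, add_zero, zero_add] at e
        first | exact e | exact e.symm | simpa using e | simpa using e.symm
      clear e
      have e : f 12 + f 54 = f 24 := by
        simpa [Finset.sum_range_succ] using h.dist 2 (by norm_num) 42 (by norm_num) 12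
      have z30 : f 30 = 0 := by
        simp only [r54, z12, z24, neg_zero, add_zero, zero_add] at e
        first | exact e | exact e.symm | simpa using e | simpa using e.symm
      clear e
      have e : f 15 + f 57 = f 30 := by
        simpa [Finset.sum_range_succ] using h.dist 2 (by norm_num) 42 (by norm_num) 15
      have z15 : f 15 = 0 := by
        simp only [r57, z27, z30, neg_zero, add_zero, zero_add] at e
        first | exact e | exact e.symm | simpa using e | simpa using e.symm
      clear e
      have e : f 10 + f 52 = f 20 := by
        simpa [Finset.sum_range_succ] using h.dist 2 (by norm_num) 42 (by norm_num) 10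
      have z32 : f 32 = 0 := by
        simp only [r52, z10, z20, neg_zero, add_zero, zero_add] at e
        first | exact e | exact e.symm | simpa using e | simpa using e.symm
      clear e
      have e : f 16 + f 58 = f 32 := by
        simpa [Finset.sum_range_succ] using h.dist 2 (by norm_num) 42 (by norm_num) 16
      have z26 : f 26 = 0 := by
        simp only [r58, z16, z32, neg_zero, add_zero, zero_add] at e
        first | exact e | exact e.symm | simpa using e | simpa using e.symm
      clear e
      have e : f 4 + f 32 + f 60 = f 12 := by
        simpa [Finset.sum_range_succ] using h.dist 3 (by norm_num) 28 (by norm_num) 4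
      have z4 : f 4 = 0 := by
        simp only [r60, z32, z24, z12, neg_zero, add_zero, zero_add] at e
        first | exact e | exact e.symm | simpa using e | simpa using e.symm
      clear e
      have e : f 5 + f 33 + f 61 = f 15 := by
        simpa [Finset.sum_range_succ] using h.dist 3 (by norm_num) 28 (by norm_num) 5
      have z5 : f 5 = 0 := by
        simp only [r61, z33, z23, z15, neg_zero, add_zero, zero_add] at e
        first | exact e | exact e.symm | simpa using e | simpa using e.symm
      clear e
      have e : f 5 + f 47 = f 10 := by
        simpa [Finset.sum_range_succ] using h.dist 2 (by norm_num) 42 (by norm_num) 5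
      have z37 : f 37 = 0 := by
        simp only [r47, z5, z10, neg_zero, add_zero, zero_add] at e
        first | exact e | exact e.symm | simpa using e | simpa using e.symm
      clear e
      have e : f 22 + f 24 + f 42 + f 80 = 0 := by
        have := hE [22, 24, 42, 80] (by simp)
        simpa [add_assoc] using this
      have z22 : f 22 = 0 := by
        simp only [r42, r80, z24, z4, neg_zero, add_zero, zero_add] at e
        first | exact e | exact e.symm | simpa using e | simpa using e.symm
      clear e
      have e : f 20 + f 62 = f 40 := by
        simpa [Finset.sum_range_succ] using h.dist 2 (by norm_num) 42 (by norm_num) 20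
      have z40 : f 40 = 0 := by
        simp only [r62, z20, z22, neg_zero, add_zero, zero_add] at e
        first | exact e | exact e.symm | simpa using e | simpa using e.symm
      clear e
      have e : f 2 + f 44 = f 4 := by
        simpa [Finset.sum_range_succ] using h.dist 2 (by norm_num) 42 (by norm_num) 2
      have z2 : f 2 = 0 := by
        simp only [r44, z40, z4, neg_zero, add_zero, zero_add] at e
        first | exact e | exact e.symm | simpa using e | simpa using e.symm
      clear e
      have e : f 1 + f 43 = f 2 := by
        simpa [Finset.sum_range_succ] using h.dist 2 (by norm_num) 42 (by norm_num) 1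
      have z1 : f 1 = 0 := by
        simp only [r43, z41, z2, neg_zero, add_zero, zero_add] at e
        first | exact e | exact e.symm | simpa using e | simpa using e.symm
      clear e
      have e : f 11 + f 53 = f 22 := by
        simpa [Finset.sum_range_succ] using h.dist 2 (by norm_num) 42 (by norm_num) 11
      have z31 : f 31 = 0 := by
        simp only [r53, z11, z22, neg_zero, add_zero, zero_add] at e
        first | exact e | exact e.symm | simpa using e | simpa using e.symm
      clear e
      have e : f 1 + f 29 + f 57 = f 3 := by
        simpa [Finset.sum_range_succ] using h.dist 3 (by norm_num) 28 (by norm_num) 1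
      have z29 : f 29 = 0 := by
        simp only [r57, z1, z27, z3, neg_zero, add_zero, zero_add] at e
        first | exact e | exact e.symm | simpa using e | simpa using e.symm
      clear e
      have e : f 13 + f 55 = f 26 := by
        simpa [Finset.sum_range_succ] using h.dist 2 (by norm_num) 42 (by norm_num) 13
      have z13 : f 13 = 0 := by
        simp only [r55, z29, z26, neg_zero, add_zero, zero_add] at e
        first | exact e | exact e.symm | simpa using e | simpa using e.symm
      clear e
      have e : f 13 + f 41 + f 69 = f 39 := by
        simpa [Finset.sum_range_succ] using h.dist 3 (by norm_num) 28 (by norm_num) 13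
      have z39 : f 39 = 0 := by
        simp only [r69, z13, z41, z15, neg_zero, add_zero, zero_add] at e
        first | exact e | exact e.symm | simpa using e | simpa using e.symm
      clear e
      have e : f 3 + f 45 = f 6 := by
        simpa [Finset.sum_range_succ] using h.dist 2 (by norm_num) 42 (by norm_num) 3
      have z6 : f 6 = 0 := by
        simp only [r45, z3, z39, neg_zero, add_zero, zero_add] at e
        first | exact e | exact e.symm | simpa using e | simpa using e.symm
      clear e
      have e : f 6 + f 48 = f 12 := by
        simpa [Finset.sum_range_succ] using h.dist 2 (by norm_num) 42 (by norm_num) 6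
      have z36 : f 36 = 0 := by
        simp only [r48, z6, z12, neg_zero, add_zero, zero_add] at e
        first | exact e | exact e.symm | simpa using e | simpa using e.symm
      clear e
      have e : f 18 + f 60 = f 36 := by
        simpa [Finset.sum_range_succ] using h.dist 2 (by norm_num) 42 (by norm_num) 18
      have z18 : f 18 = 0 := by
        simp only [r60, z24, z36, neg_zero, add_zero, zero_add] at e
        first | exact e | exact e.symm | simpa using e | simpa using e.symm
      clear e
      have e : f 9 + f 51 = f 18 := by
        simpa [Finset.sum_range_succ] using h.dist 2 (by norm_num) 42 (by norm_num) 9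
      have z9 : f 9 = 0 := by
        simp only [r51, z33, z18, neg_zero, add_zero, zero_add] at e
        first | exact e | exact e.symm | simpa using e | simpa using e.symm
      clear e
      have e : f 9 + f 37 + f 65 = f 27 := by
        simpa [Finset.sum_range_succ] using h.dist 3 (by norm_num) 28 (by norm_num) 9
      have z19 : f 19 = 0 := by
        simp only [r65, z9, z37, z27, neg_zero, add_zero, zero_add] at e
        first | exact e | exact e.symm | simpa using e | simpa using e.symm
      clear e
      have e : f 19 + f 61 = f 38 := by
        simpa [Finset.sum_range_succ] using h.dist 2 (by norm_num) 42 (by norm_num) 19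
      have z38 : f 38 = 0 := by
        simp only [r61, z19, z23, neg_zero, add_zero, zero_add] at e
        first | exact e | exact e.symm | simpa using e | simpa using e.symm
      clear e
      have e : f 4 + f 46 = f 8 := by
        simpa [Finset.sum_range_succ] using h.dist 2 (by norm_num) 42 (by norm_num) 4
      have z8 : f 8 = 0 := by
        simp only [r46, z4, z38, neg_zero, add_zero, zero_add] at e
        first | exact e | exact e.symm | simpa using e | simpa using e.symm
      clear e
      have e : f 8 + f 50 = f 16 := by
        simpa [Finset.sum_range_succ] using h.dist 2 (by norm_num) 42 (by norm_num) 8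
      have z34 : f 34 = 0 := by
        simp only [r50, z8, z16, neg_zero, add_zero, zero_add] at e
        first | exact e | exact e.symm | simpa using e | simpa using e.symm
      clear e
      have e : f 3 + f 31 + f 59 = f 9 := by
        simpa [Finset.sum_range_succ] using h.dist 3 (by norm_num) 28 (by norm_num) 3
      have z25 : f 25 = 0 := by
        simp only [r59, z3, z31, z9, neg_zero, add_zero, zero_add] at e
        first | exact e | exact e.symm | simpa using e | simpa using e.symm
      clear e
      have e : f 17 + f 59 = f 34 := by
        simpa [Finset.sum_range_succ] using h.dist 2 (by norm_num) 42 (by norm_num) 17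
      have z17 : f 17 = 0 := by
        simp only [r59, z25, z34, neg_zero, add_zero, zero_add] at e
        first | exact e | exact e.symm | simpa using e | simpa using e.symm
      clear e
      have e : f 15 + f 17 + f 63 + f 73 = 0 := by
        have := hE [15, 17, 63, 73] (by simp)
        simpa [add_assoc] using this
      have z21 : f 21 = 0 := by
        simp only [r63, r73, z15, z17, z11, neg_zero, add_zero, zero_add] at e
        first | exact e | exact e.symm | simpa using e | simpa using e.symm
      clear e
      have e : f 28 + f 35 + f 42 + f 63 = 0 := by
        have := hE [28, 35, 42, 63] (by simp)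
        simpa [add_assoc] using this
      have z35 : f 35 = 0 := by
        simp only [r42, r63, z28, z21, neg_zero, add_zero, zero_add] at e
        first | exact e | exact e.symm | simpa using e | simpa using e.symm
      clear e
      have e : f 7 + f 35 + f 63 = f 21 := by
        simpa [Finset.sum_range_succ] using h.dist 3 (by norm_num) 28 (by norm_num) 7
      have z7 : f 7 = 0 := by
        simp only [r63, z35, z21, neg_zero, add_zero, zero_add] at e
        first | exact e | exact e.symm | simpa using e | simpa using e.symm
      clear e
      refine h.all_zero (by norm_num) ?_
      intro a h0 h1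
      interval_cases a <;> simp only [r83, r82, r81, r80, r79, r78, r77, r76, r75, r74, r73, r72, r71, r70, r69, r68, r67, r66, r65, r64, r63, r62, r61, r60, r59, r58, r57, r56, r55, r54, r53, r52, r51, r50, r49, r48, r47, r46, r45, r44, r43, r0, r42, z1, z2, z3, z4, z5, z6, z7, z8, z9, z10, z11, z12, z13, z14, z15, z16, z17, z18, z19, z20, z21, z22, z23, z24, z25, z26, z27, z28, z29, z30, z31, z32, z33, z34, z35, z36, z37, z38, z39, z40, z41, neg_zero]

theorem base_66 : ∃ E, (∀ e ∈ E, GoodTuple 66 e) ∧ Rigid 66 E := by
  refine ⟨[[17, 22, 29, 64]], ?_, ?_⟩
  · intro e he
    simp only [List.mem_cons, List.not_mem_nil, or_false] at he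
    rcases he with rfl <;> exact goodTuple_of 66 _ (by norm_num) (by decide)
  · refine ⟨{4, 7, 12, 15, 19, 21, 23, 26, 27, 31}, ?_, ?_⟩
    · rw [show Nat.totient 66 = 20 by decide]; decide
    · intro Q _ f h hE hK
      have r34 : f 34 = - f 32 := by simpa using h.refl 32
      have r35 : f 35 = - f 31 := by simpa using h.refl 31
      have r36 : f 36 = - f 30 := by simpa using h.refl 30
      have r37 : f 37 = - f 29 := by simpa using h.refl 29
      have r38 : f 38 = - f 28 := by simpa using h.refl 28
      have r39 : f 39 = - f 27 := by simpa using h.refl 27
      have r40 : f 40 = - f 26 := by simpa using h.refl 26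
      have r41 : f 41 = - f 25 := by simpa using h.refl 25
      have r42 : f 42 = - f 24 := by simpa using h.refl 24
      have r43 : f 43 = - f 23 := by simpa using h.refl 23
      have r44 : f 44 = - f 22 := by simpa using h.refl 22
      have r45 : f 45 = - f 21 := by simpa using h.refl 21
      have r46 : f 46 = - f 20 := by simpa using h.refl 20
      have r47 : f 47 = - f 19 := by simpa using h.refl 19
      have r48 : f 48 = - f 18 := by simpa using h.refl 18
      have r49 : f 49 = - f 17 := by simpa using h.refl 17
      have r50 : f 50 = - f 16 := by simpa using h.refl 16
      have r51 : f 51 = - f 15 := by simpa using h.refl 15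
      have r52 : f 52 = - f 14 := by simpa using h.refl 14
      have r53 : f 53 = - f 13 := by simpa using h.refl 13
      have r54 : f 54 = - f 12 := by simpa using h.refl 12
      have r55 : f 55 = - f 11 := by simpa using h.refl 11
      have r56 : f 56 = - f 10 := by simpa using h.refl 10
      have r57 : f 57 = - f 9 := by simpa using h.refl 9
      have r58 : f 58 = - f 8 := by simpa using h.refl 8
      have r59 : f 59 = - f 7 := by simpa using h.refl 7
      have r60 : f 60 = - f 6 := by simpa using h.refl 6
      have r61 : f 61 = - f 5 := by simpa using h.refl 5
      have r62 : f 62 = - f 4 := by simpa using h.refl 4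
      have r63 : f 63 = - f 3 := by simpa using h.refl 3
      have r64 : f 64 = - f 2 := by simpa using h.refl 2
      have r65 : f 65 = - f 1 := by simpa using h.refl 1
      have r0 : f 0 = 0 := h.zero
      have r33 : f 33 = 0 := h.half (by norm_num)
      have z4 : f 4 = 0 := hK 4 (by decide)
      have z7 : f 7 = 0 := hK 7 (by decide)
      have z12 : f 12 = 0 := hK 12 (by decide)
      have z15 : f 15 = 0 := hK 15 (by decide)
      have z19 : f 19 = 0 := hK 19 (by decide)
      have z21 : f 21 = 0 := hK 21 (by decide)
      have z23 : f 23 = 0 := hK 23 (by decide)
      have z26 : f 26 = 0 := hK 26 (by decide)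
      have z27 : f 27 = 0 := hK 27 (by decide)
      have z31 : f 31 = 0 := hK 31 (by decide)
      have e : f 12 + f 45 = f 24 := by
        simpa [Finset.sum_range_succ] using h.dist 2 (by norm_num) 33 (by norm_num) 12
      have z24 : f 24 = 0 := by
        simp only [r45, z12, z21, neg_zero, add_zero, zero_add] at e
        first | exact e | exact e.symm | simpa using e | simpa using e.symm
      clear e
      have e : f 7 + f 40 = f 14 := by
        simpa [Finset.sum_range_succ] using h.dist 2 (by norm_num) 33 (by norm_num) 7
      have z14 : f 14 = 0 := by
        simp only [r40, z7, z26, neg_zero, add_zero, zero_add] at e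
        first | exact e | exact e.symm | simpa using e | simpa using e.symm
      clear e
      have e : f 14 + f 47 = f 28 := by
        simpa [Finset.sum_range_succ] using h.dist 2 (by norm_num) 33 (by norm_num) 14
      have z28 : f 28 = 0 := by
        simp only [r47, z14, z19, neg_zero, add_zero, zero_add] at e
        first | exact e | exact e.symm | simpa using e | simpa using e.symm
      clear e
      have e : f 6 + f 39 = f 12 := by
        simpa [Finset.sum_range_succ] using h.dist 2 (by norm_num) 33 (by norm_num) 6
      have z6 : f 6 = 0 := by
        simp only [r39, z27, z12, neg_zero, add_zero, zero_add] at e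
        first | exact e | exact e.symm | simpa using e | simpa using e.symm
      clear e
      have e : f 2 + f 35 = f 4 := by
        simpa [Finset.sum_range_succ] using h.dist 2 (by norm_num) 33 (by norm_num) 2
      have z2 : f 2 = 0 := by
        simp only [r35, z31, z4, neg_zero, add_zero, zero_add] at e
        first | exact e | exact e.symm | simpa using e | simpa using e.symm
      clear e
      have e : f 2 + f 24 + f 46 = f 6 := by
        simpa [Finset.sum_range_succ] using h.dist 3 (by norm_num) 22 (by norm_num) 2
      have z20 : f 20 = 0 := by
        simp only [r46, z2, z24, z6, neg_zero, add_zero, zero_add] at e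
        first | exact e | exact e.symm | simpa using e | simpa using e.symm
      clear e
      have e : f 13 + f 46 = f 26 := by
        simpa [Finset.sum_range_succ] using h.dist 2 (by norm_num) 33 (by norm_num) 13
      have z13 : f 13 = 0 := by
        simp only [r46, z20, z26, neg_zero, add_zero, zero_add] at e
        first | exact e | exact e.symm | simpa using e | simpa using e.symm
      clear e
      have e : f 10 + f 43 = f 20 := by
        simpa [Finset.sum_range_succ] using h.dist 2 (by norm_num) 33 (by norm_num) 10
      have z10 : f 10 = 0 := by
        simp only [r43, z23, z20, neg_zero, add_zero, zero_add] at e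
        first | exact e | exact e.symm | simpa using e | simpa using e.symm
      clear e
      have e : f 5 + f 38 = f 10 := by
        simpa [Finset.sum_range_succ] using h.dist 2 (by norm_num) 33 (by norm_num) 5
      have z5 : f 5 = 0 := by
        simp only [r38, z28, z10, neg_zero, add_zero, zero_add] at e
        first | exact e | exact e.symm | simpa using e | simpa using e.symm
      clear e
      have e : f 5 + f 27 + f 49 = f 15 := by
        simpa [Finset.sum_range_succ] using h.dist 3 (by norm_num) 22 (by norm_num) 5
      have z17 : f 17 = 0 := by
        simp only [r49, z5, z27, z15, neg_zero, add_zero, zero_add] at e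
        first | exact e | exact e.symm | simpa using e | simpa using e.symm
      clear e
      have e : f 9 + f 31 + f 53 = f 27 := by
        simpa [Finset.sum_range_succ] using h.dist 3 (by norm_num) 22 (by norm_num) 9
      have z9 : f 9 = 0 := by
        simp only [r53, z31, z13, z27, neg_zero, add_zero, zero_add] at e
        first | exact e | exact e.symm | simpa using e | simpa using e.symm
      clear e
      have e : f 9 + f 42 = f 18 := by
        simpa [Finset.sum_range_succ] using h.dist 2 (by norm_num) 33 (by norm_num) 9
      have z18 : f 18 = 0 := by
        simp only [r42, z9, z24, neg_zero, add_zero, zero_add] at e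
        first | exact e | exact e.symm | simpa using e | simpa using e.symm
      clear e
      have e : f 15 + f 48 = f 30 := by
        simpa [Finset.sum_range_succ] using h.dist 2 (by norm_num) 33 (by norm_num) 15
      have z30 : f 30 = 0 := by
        simp only [r48, z15, z18, neg_zero, add_zero, zero_add] at e
        first | exact e | exact e.symm | simpa using e | simpa using e.symm
      clear e
      have e : f 3 + f 36 = f 6 := by
        simpa [Finset.sum_range_succ] using h.dist 2 (by norm_num) 33 (by norm_num) 3
      have z3 : f 3 = 0 := by
        simp only [r36, z30, z6, neg_zero, add_zero, zero_add] at e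
        first | exact e | exact e.symm | simpa using e | simpa using e.symm
      clear e
      have e : f 3 + f 25 + f 47 = f 9 := by
        simpa [Finset.sum_range_succ] using h.dist 3 (by norm_num) 22 (by norm_num) 3
      have z25 : f 25 = 0 := by
        simp only [r47, z3, z19, z9, neg_zero, add_zero, zero_add] at e
        first | exact e | exact e.symm | simpa using e | simpa using e.symm
      clear e
      have e : f 1 + f 23 + f 45 = f 3 := by
        simpa [Finset.sum_range_succ] using h.dist 3 (by norm_num) 22 (by norm_num) 1
      have z1 : f 1 = 0 := by
        simp only [r45, z23, z21, z3, neg_zero, add_zero, zero_add] at e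
        first | exact e | exact e.symm | simpa using e | simpa using e.symm
      clear e
      have e : f 1 + f 34 = f 2 := by
        simpa [Finset.sum_range_succ] using h.dist 2 (by norm_num) 33 (by norm_num) 1
      have z32 : f 32 = 0 := by
        simp only [r34, z1, z2, neg_zero, add_zero, zero_add] at e
        first | exact e | exact e.symm | simpa using e | simpa using e.symm
      clear e
      have e : f 16 + f 49 = f 32 := by
        simpa [Finset.sum_range_succ] using h.dist 2 (by norm_num) 33 (by norm_num) 16
      have z16 : f 16 = 0 := by
        simp only [r49, z17, z32, neg_zero, add_zero, zero_add] at e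
        first | exact e | exact e.symm | simpa using e | simpa using e.symm
      clear e
      have e : f 8 + f 41 = f 16 := by
        simpa [Finset.sum_range_succ] using h.dist 2 (by norm_num) 33 (by norm_num) 8
      have z8 : f 8 = 0 := by
        simp only [r41, z25, z16, neg_zero, add_zero, zero_add] at e
        first | exact e | exact e.symm | simpa using e | simpa using e.symm
      clear e
      have e : f 4 + f 37 = f 8 := by
        simpa [Finset.sum_range_succ] using h.dist 2 (by norm_num) 33 (by norm_num) 4
      have z29 : f 29 = 0 := by
        simp only [r37, z4, z8, neg_zero, add_zero, zero_add] at e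
        first | exact e | exact e.symm | simpa using e | simpa using e.symm
      clear e
      have e : f 17 + f 22 + f 29 + f 64 = 0 := by
        have := hE [17, 22, 29, 64] (by simp)
        simpa [add_assoc] using this
      have z22 : f 22 = 0 := by
        simp only [r64, z17, z29, z2, neg_zero, add_zero, zero_add] at e
        first | exact e | exact e.symm | simpa using e | simpa using e.symm
      clear e
      have e : f 11 + f 44 = f 22 := by
        simpa [Finset.sum_range_succ] using h.dist 2 (by norm_num) 33 (by norm_num) 11
      have z11 : f 11 = 0 := by
        simp only [r44, z22, neg_zero, add_zero, zero_add] at e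
        first | exact e | exact e.symm | simpa using e | simpa using e.symm
      clear e
      refine h.all_zero (by norm_num) ?_
      intro a h0 h1
      interval_cases a <;> simp only [r65, r64, r63, r62, r61, r60, r59, r58, r57, r56, r55, r54, r53, r52, r51, r50, r49, r48, r47, r46, r45, r44, r43, r42, r41, r40, r39, r38, r37, r36, r35, r34, r0, r33, z1, z2, z3, z4, z5, z6, z7, z8, z9, z10, z11, z12, z13, z14, z15, z16, z17, z18, z19, z20, z21, z22, z23, z24, z25, z26, z27, z28, z29, z30, z31, z32, neg_zero]

theorem base_78 : ∃ E, (∀ e ∈ E, GoodTuple 78 e) ∧ Rigid 78 E := by
  refine ⟨[[17, 23, 39, 77]], ?_, ?_⟩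
  · intro e he
    simp only [List.mem_cons, List.not_mem_nil, or_false] at he
    rcases he with rfl <;> exact goodTuple_of 78 _ (by norm_num) (by decide)
  · refine ⟨{6, 10, 16, 17, 19, 25, 26, 28, 29, 31, 32, 36}, ?_, ?_⟩
    · rw [show Nat.totient 78 = 24 by decide]; decide
    · intro Q _ f h hE hK
      have r40 : f 40 = - f 38 := by simpa using h.refl 38
      have r41 : f 41 = - f 37 := by simpa using h.refl 37
      have r42 : f 42 = - f 36 := by simpa using h.refl 36
      have r43 : f 43 = - f 35 := by simpa using h.refl 35
      have r44 : f 44 = - f 34 := by simpa using h.refl 34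
      have r45 : f 45 = - f 33 := by simpa using h.refl 33
      have r46 : f 46 = - f 32 := by simpa using h.refl 32
      have r47 : f 47 = - f 31 := by simpa using h.refl 31
      have r48 : f 48 = - f 30 := by simpa using h.refl 30
      have r49 : f 49 = - f 29 := by simpa using h.refl 29
      have r50 : f 50 = - f 28 := by simpa using h.refl 28
      have r51 : f 51 = - f 27 := by simpa using h.refl 27
      have r52 : f 52 = - f 26 := by simpa using h.refl 26
      have r53 : f 53 = - f 25 := by simpa using h.refl 25
      have r54 : f 54 = - f 24 := by simpa using h.refl 24
      have r55 : f 55 = - f 23 := by simpa using h.refl 23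
      have r56 : f 56 = - f 22 := by simpa using h.refl 22
      have r57 : f 57 = - f 21 := by simpa using h.refl 21
      have r58 : f 58 = - f 20 := by simpa using h.refl 20
      have r59 : f 59 = - f 19 := by simpa using h.refl 19
      have r60 : f 60 = - f 18 := by simpa using h.refl 18
      have r61 : f 61 = - f 17 := by simpa using h.refl 17
      have r62 : f 62 = - f 16 := by simpa using h.refl 16
      have r63 : f 63 = - f 15 := by simpa using h.refl 15
      have r64 : f 64 = - f 14 := by simpa using h.refl 14
      have r65 : f 65 = - f 13 := by simpa using h.refl 13
      have r66 : f 66 = - f 12 := by simpa using h.refl 12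
      have r67 : f 67 = - f 11 := by simpa using h.refl 11
      have r68 : f 68 = - f 10 := by simpa using h.refl 10
      have r69 : f 69 = - f 9 := by simpa using h.refl 9
      have r70 : f 70 = - f 8 := by simpa using h.refl 8
      have r71 : f 71 = - f 7 := by simpa using h.refl 7
      have r72 : f 72 = - f 6 := by simpa using h.refl 6
      have r73 : f 73 = - f 5 := by simpa using h.refl 5
      have r74 : f 74 = - f 4 := by simpa using h.refl 4
      have r75 : f 75 = - f 3 := by simpa using h.refl 3
      have r76 : f 76 = - f 2 := by simpa using h.refl 2
      have r77 : f 77 = - f 1 := by simpa using h.refl 1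
      have r0 : f 0 = 0 := h.zero
      have r39 : f 39 = 0 := h.half (by norm_num)
      have z6 : f 6 = 0 := hK 6 (by decide)
      have z10 : f 10 = 0 := hK 10 (by decide)
      have z16 : f 16 = 0 := hK 16 (by decide)
      have z17 : f 17 = 0 := hK 17 (by decide)
      have z19 : f 19 = 0 := hK 19 (by decide)
      have z25 : f 25 = 0 := hK 25 (by decide)
      have z26 : f 26 = 0 := hK 26 (by decide)
      have z28 : f 28 = 0 := hK 28 (by decide)
      have z29 : f 29 = 0 := hK 29 (by decide)
      have z31 : f 31 = 0 := hK 31 (by decide)
      have z32 : f 32 = 0 := hK 32 (by decide)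
      have z36 : f 36 = 0 := hK 36 (by decide)
      have e : f 13 + f 52 = f 26 := by
        simpa [Finset.sum_range_succ] using h.dist 2 (by norm_num) 39 (by norm_num) 13
      have z13 : f 13 = 0 := by
        simp only [r52, z26, neg_zero, add_zero, zero_add] at e
        first | exact e | exact e.symm | simpa using e | simpa using e.symm
      clear e
      have e : f 16 + f 55 = f 32 := by
        simpa [Finset.sum_range_succ] using h.dist 2 (by norm_num) 39 (by norm_num) 16
      have z23 : f 23 = 0 := by
        simp only [r55, z16, z32, neg_zero, add_zero, zero_add] at e
        first | exact e | exact e.symm | simpa using e | simpa using e.symm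
      clear e
      have e : f 14 + f 53 = f 28 := by
        simpa [Finset.sum_range_succ] using h.dist 2 (by norm_num) 39 (by norm_num) 14
      have z14 : f 14 = 0 := by
        simp only [r53, z25, z28, neg_zero, add_zero, zero_add] at e
        first | exact e | exact e.symm | simpa using e | simpa using e.symm
      clear e
      have e : f 7 + f 46 = f 14 := by
        simpa [Finset.sum_range_succ] using h.dist 2 (by norm_num) 39 (by norm_num) 7
      have z7 : f 7 = 0 := by
        simp only [r46, z32, z14, neg_zero, add_zero, zero_add] at e
        first | exact e | exact e.symm | simpa using e | simpa using e.symm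
      clear e
      have e : f 10 + f 49 = f 20 := by
        simpa [Finset.sum_range_succ] using h.dist 2 (by norm_num) 39 (by norm_num) 10
      have z20 : f 20 = 0 := by
        simp only [r49, z10, z29, neg_zero, add_zero, zero_add] at e
        first | exact e | exact e.symm | simpa using e | simpa using e.symm
      clear e
      have e : f 19 + f 58 = f 38 := by
        simpa [Finset.sum_range_succ] using h.dist 2 (by norm_num) 39 (by norm_num) 19
      have z38 : f 38 = 0 := by
        simp only [r58, z19, z20, neg_zero, add_zero, zero_add] at e
        first | exact e | exact e.symm | simpa using e | simpa using e.symm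
      clear e
      have e : f 8 + f 47 = f 16 := by
        simpa [Finset.sum_range_succ] using h.dist 2 (by norm_num) 39 (by norm_num) 8
      have z8 : f 8 = 0 := by
        simp only [r47, z31, z16, neg_zero, add_zero, zero_add] at e
        first | exact e | exact e.symm | simpa using e | simpa using e.symm
      clear e
      have e : f 3 + f 42 = f 6 := by
        simpa [Finset.sum_range_succ] using h.dist 2 (by norm_num) 39 (by norm_num) 3
      have z3 : f 3 = 0 := by
        simp only [r42, z36, z6, neg_zero, add_zero, zero_add] at e
        first | exact e | exact e.symm | simpa using e | simpa using e.symm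
      clear e
      have e : f 3 + f 29 + f 55 = f 9 := by
        simpa [Finset.sum_range_succ] using h.dist 3 (by norm_num) 26 (by norm_num) 3
      have z9 : f 9 = 0 := by
        simp only [r55, z3, z29, z23, neg_zero, add_zero, zero_add] at e
        first | exact e | exact e.symm | simpa using e | simpa using e.symm
      clear e
      have e : f 12 + f 38 + f 64 = f 36 := by
        simpa [Finset.sum_range_succ] using h.dist 3 (by norm_num) 26 (by norm_num) 12
      have z12 : f 12 = 0 := by
        simp only [r64, z38, z14, z36, neg_zero, add_zero, zero_add] at e
        first | exact e | exact e.symm | simpa using e | simpa using e.symm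
      clear e
      have e : f 6 + f 45 = f 12 := by
        simpa [Finset.sum_range_succ] using h.dist 2 (by norm_num) 39 (by norm_num) 6
      have z33 : f 33 = 0 := by
        simp only [r45, z6, z12, neg_zero, add_zero, zero_add] at e
        first | exact e | exact e.symm | simpa using e | simpa using e.symm
      clear e
      have e : f 7 + f 33 + f 59 = f 21 := by
        simpa [Finset.sum_range_succ] using h.dist 3 (by norm_num) 26 (by norm_num) 7
      have z21 : f 21 = 0 := by
        simp only [r59, z7, z33, z19, neg_zero, add_zero, zero_add] at e
        first | exact e | exact e.symm | simpa using e | simpa using e.symm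
      clear e
      have e : f 18 + f 57 = f 36 := by
        simpa [Finset.sum_range_succ] using h.dist 2 (by norm_num) 39 (by norm_num) 18
      have z18 : f 18 = 0 := by
        simp only [r57, z21, z36, neg_zero, add_zero, zero_add] at e
        first | exact e | exact e.symm | simpa using e | simpa using e.symm
      clear e
      have e : f 9 + f 48 = f 18 := by
        simpa [Finset.sum_range_succ] using h.dist 2 (by norm_num) 39 (by norm_num) 9
      have z30 : f 30 = 0 := by
        simp only [r48, z9, z18, neg_zero, add_zero, zero_add] at e
        first | exact e | exact e.symm | simpa using e | simpa using e.symm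
      clear e
      have e : f 17 + f 23 + f 39 + f 77 = 0 := by
        have := hE [17, 23, 39, 77] (by simp)
        simpa [add_assoc] using this
      have z1 : f 1 = 0 := by
        simp only [r39, r77, z17, z23, neg_zero, add_zero, zero_add] at e
        first | exact e | exact e.symm | simpa using e | simpa using e.symm
      clear e
      have e : f 1 + f 40 = f 2 := by
        simpa [Finset.sum_range_succ] using h.dist 2 (by norm_num) 39 (by norm_num) 1
      have z2 : f 2 = 0 := by
        simp only [r40, z1, z38, neg_zero, add_zero, zero_add] at e
        first | exact e | exact e.symm | simpa using e | simpa using e.symm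
      clear e
      have e : f 2 + f 28 + f 54 = f 6 := by
        simpa [Finset.sum_range_succ] using h.dist 3 (by norm_num) 26 (by norm_num) 2
      have z24 : f 24 = 0 := by
        simp only [r54, z2, z28, z6, neg_zero, add_zero, zero_add] at e
        first | exact e | exact e.symm | simpa using e | simpa using e.symm
      clear e
      have e : f 15 + f 54 = f 30 := by
        simpa [Finset.sum_range_succ] using h.dist 2 (by norm_num) 39 (by norm_num) 15
      have z15 : f 15 = 0 := by
        simp only [r54, z24, z30, neg_zero, add_zero, zero_add] at e
        first | exact e | exact e.symm | simpa using e | simpa using e.symm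
      clear e
      have e : f 12 + f 51 = f 24 := by
        simpa [Finset.sum_range_succ] using h.dist 2 (by norm_num) 39 (by norm_num) 12
      have z27 : f 27 = 0 := by
        simp only [r51, z12, z24, neg_zero, add_zero, zero_add] at e
        first | exact e | exact e.symm | simpa using e | simpa using e.symm
      clear e
      have e : f 9 + f 35 + f 61 = f 27 := by
        simpa [Finset.sum_range_succ] using h.dist 3 (by norm_num) 26 (by norm_num) 9
      have z35 : f 35 = 0 := by
        simp only [r61, z9, z17, z27, neg_zero, add_zero, zero_add] at e
        first | exact e | exact e.symm | simpa using e | simpa using e.symm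
      clear e
      have e : f 4 + f 43 = f 8 := by
        simpa [Finset.sum_range_succ] using h.dist 2 (by norm_num) 39 (by norm_num) 4
      have z4 : f 4 = 0 := by
        simp only [r43, z35, z8, neg_zero, add_zero, zero_add] at e
        first | exact e | exact e.symm | simpa using e | simpa using e.symm
      clear e
      have e : f 2 + f 41 = f 4 := by
        simpa [Finset.sum_range_succ] using h.dist 2 (by norm_num) 39 (by norm_num) 2
      have z37 : f 37 = 0 := by
        simp only [r41, z2, z4, neg_zero, add_zero, zero_add] at e
        first | exact e | exact e.symm | simpa using e | simpa using e.symm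
      clear e
      have e : f 11 + f 37 + f 63 = f 33 := by
        simpa [Finset.sum_range_succ] using h.dist 3 (by norm_num) 26 (by norm_num) 11
      have z11 : f 11 = 0 := by
        simp only [r63, z37, z15, z33, neg_zero, add_zero, zero_add] at e
        first | exact e | exact e.symm | simpa using e | simpa using e.symm
      clear e
      have e : f 11 + f 50 = f 22 := by
        simpa [Finset.sum_range_succ] using h.dist 2 (by norm_num) 39 (by norm_num) 11
      have z22 : f 22 = 0 := by
        simp only [r50, z11, z28, neg_zero, add_zero, zero_add] at e
        first | exact e | exact e.symm | simpa using e | simpa using e.symm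
      clear e
      have e : f 17 + f 56 = f 34 := by
        simpa [Finset.sum_range_succ] using h.dist 2 (by norm_num) 39 (by norm_num) 17
      have z34 : f 34 = 0 := by
        simp only [r56, z17, z22, neg_zero, add_zero, zero_add] at e
        first | exact e | exact e.symm | simpa using e | simpa using e.symm
      clear e
      have e : f 5 + f 44 = f 10 := by
        simpa [Finset.sum_range_succ] using h.dist 2 (by norm_num) 39 (by norm_num) 5
      have z5 : f 5 = 0 := by
        simp only [r44, z34, z10, neg_zero, add_zero, zero_add] at e
        first | exact e | exact e.symm | simpa using e | simpa using e.symm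
      clear e
      refine h.all_zero (by norm_num) ?_
      intro a h0 h1
      interval_cases a <;> simp only [r77, r76, r75, r74, r73, r72, r71, r70, r69, r68, r67, r66, r65, r64, r63, r62, r61, r60, r59, r58, r57, r56, r55, r54, r53, r52, r51, r50, r49, r48, r47, r46, r45, r44, r43, r42, r41, r40, r0, r39, z1, z2, z3, z4, z5, z6, z7, z8, z9, z10, z11, z12, z13, z14, z15, z16, z17, z18, z19, z20, z21, z22, z23, z24, z25, z26, z27, z28, z29, z30, z31, z32, z33, z34, z35, z36, z37, z38, neg_zero]

end Pool.Agent.FT
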