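import Pool.Agent.Lib_helper78.FT.Defs

/-! Block E: closure. -/

set_option autoImplicit false
set_option linter.unusedSectionVars false
set_option linter.unusedVariables false
set_option linter.unusedSimpArgs false

open Finset

namespace Pool.Agent.FT

namespace BE

/-! ### Sums of fractional parts -/

theorem sum_mod_bij {V : Type*} [AddCommMonoid V] (p : ℕ) (hp : 0 < p) (u : ℕ → ℕ)
    (inj : ∀ i < p, ∀ j < p, u i % p = u j % p → i = j) (g : ℕ → V) :
    ∑ j ∈ range p, g (u j % p) = ∑ j ∈ range p, g j := by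
  have hmaps : Set.MapsTo (fun j => u j % p) (range p : Set ℕ) (range p : Set ℕ) := by
    intro j _
    simpa using Nat.mod_lt _ hp
  have hinj : Set.InjOn (fun j => u j % p) (range p : Set ℕ) := by
    intro i hi j hj hij
    rw [Finset.mem_coe, mem_range] at hi hj
    exact inj i hi j hj hij
  have hsurj : Set.SurjOn (fun j => u j % p) (range p : Set ℕ) (range p : Set ℕ) :=
    Finset.surjOn_of_injOn_of_card_le _ hmaps hinj le_rfl
  exact Finset.sum_nbij (fun j => u j % p) (fun j hj => by simpa using Nat.mod_lt _ hp) hinj hsurj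
    (fun _ _ => rfl)

theorem sum_fract (p : ℕ) (hp : 0 < p) (x : ℚ) :
    ∑ j ∈ range p, Int.fract (x + (j : ℚ) / p) = Int.fract ((p : ℚ) * x) + ((p : ℚ) - 1) / 2 := by
  have hp' : (0 : ℚ) < p := by exact_mod_cast hp
  obtain ⟨k, hk⟩ : ∃ k, k = ⌊(p : ℚ) * Int.fract x⌋₊ := ⟨_, rfl⟩
  obtain ⟨r, hr⟩ : ∃ r, r = Int.fract ((p : ℚ) * x) := ⟨_, rfl⟩
  have hr0 : 0 ≤ r := by rw [hr]; exact Int.fract_nonneg _
  have hr1 : r < 1 := by rw [hr]; exact Int.fract_lt_one _
  have hfx0 : 0 ≤ Int.fract x := Int.fract_nonneg _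
  have hkr : (p : ℚ) * Int.fract x = k + r := by
    have h1 : Int.fract ((p : ℚ) * x) = Int.fract ((p : ℚ) * Int.fract x) := by
      have : (p : ℚ) * x = (p : ℚ) * Int.fract x + ((p * ⌊x⌋ : ℤ) : ℚ) := by
        have := Int.fract_add_floor x
        push_cast
        linear_combination (-(p : ℚ)) * this
      rw [this, Int.fract_add_intCast]
    have h2 : ((⌊(p : ℚ) * Int.fract x⌋₊ : ℕ) : ℚ) = ((⌊(p : ℚ) * Int.fract x⌋ : ℤ) : ℚ) := by
      exact_mod_cast Int.natCast_floor_eq_floor (by positivity)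
    rw [hk, hr, h1, h2]
    exact (Int.floor_add_fract _).symm
  have key : ∀ j ∈ range p, Int.fract (x + (j : ℚ) / p) = ((((k + j) % p : ℕ) : ℚ) + r) / p := by
    intro j _
    rw [Int.fract_eq_iff]
    have h1 : (((k + j) % p : ℕ) : ℚ) + 1 ≤ p := by
      exact_mod_cast Nat.mod_lt _ hp
    obtain ⟨q, hq⟩ : ∃ q, q = (k + j) / p := ⟨_, rfl⟩
    refine ⟨by positivity, ?_, ⌊x⌋ + (q : ℤ), ?_⟩
    · rw [div_lt_one hp']; linarith
    · have h2 : (((k + j) % p : ℕ) : ℚ) + p * (q : ℚ) = k + j := by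
        rw [hq]
        exact_mod_cast Nat.mod_add_div (k + j) p
      have h3 := Int.fract_add_floor x
      push_cast at h2 ⊢
      field_simp
      linear_combination (-(p : ℚ)) * h3 + hkr - h2
  rw [sum_congr rfl key, ← hr, ← sum_div, sum_add_distrib]
  have h4 : ∑ j ∈ range p, (((k + j) % p : ℕ) : ℚ) = ∑ j ∈ range p, (j : ℚ) := by
    apply sum_mod_bij p hp (fun j => k + j) ?_ (fun j => (j : ℚ))
    intro i hi j hj hij
    have h5 : i % p = j % p := Nat.ModEq.add_left_cancel' k hij
    rwa [Nat.mod_eq_of_lt hi, Nat.mod_eq_of_lt hj] at h5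
  rw [h4, sum_const, card_range, nsmul_eq_mul]
  have h5 : ∑ j ∈ range p, (j : ℚ) = p * (p - 1) / 2 := by
    clear key h4 hkr hk
    induction p with
    | zero => simp
    | succ n ih =>
      rcases Nat.eq_zero_or_pos n with h0 | h0
      · subst h0; simp
      · rw [sum_range_succ]
        have : ∀ n : ℕ, ∑ j ∈ range n, (j : ℚ) = n * (n - 1) / 2 := by
          intro n
          induction n with
          | zero => simp
          | succ n ih => rw [sum_range_succ, ih]; push_cast; ring
        rw [this]; push_cast; ring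
  rw [h5]
  field_simp
  ring

theorem sum_fract_mul (p : ℕ) (hp : p.Prime) (t : ℕ) (ht : t.Coprime p) (x : ℚ) :
    ∑ j ∈ range p, Int.fract (x + (t : ℚ) * ((j : ℚ) / p)) =
      Int.fract ((p : ℚ) * x) + ((p : ℚ) - 1) / 2 := by
  rw [← sum_fract p hp.pos x]
  rw [← sum_mod_bij p hp.pos (fun j => t * j) ?_ (fun j => Int.fract (x + (j : ℚ) / p))]
  · refine sum_congr rfl fun j _ => ?_
    have hp' : (0 : ℚ) < p := by exact_mod_cast hp.pos
    obtain ⟨q, hq⟩ : ∃ q, q = (t * j) / p := ⟨_, rfl⟩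
    have h2 : (((t * j) % p : ℕ) : ℚ) + p * (q : ℚ) = t * j := by
      rw [hq]
      exact_mod_cast Nat.mod_add_div (t * j) p
    have h3 : x + (t : ℚ) * ((j : ℚ) / p) =
        (x + (((t * j) % p : ℕ) : ℚ) / p) + ((q : ℤ) : ℚ) := by
      push_cast at h2 ⊢
      field_simp
      linear_combination -h2
    rw [h3, Int.fract_add_intCast]
  · intro i hi j hj hij
    have h5 : i % p = j % p := Nat.ModEq.cancel_left_of_coprime (by rwa [Nat.coprime_comm] at ht) hij
    rwa [Nat.mod_eq_of_lt hi, Nat.mod_eq_of_lt hj] at h5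

/-! ### The rationals `y / M` modulo one -/

/-- the representative of `y/M` in `[0,1)` -/
def rt (M : ℕ) (y : ℤ) : ℚ := ((y % (M : ℤ) : ℤ) : ℚ) / M

section
variable {M : ℕ} [NeZero M]

theorem M_pos : (0 : ℚ) < M := by exact_mod_cast Nat.pos_of_ne_zero (NeZero.ne M)

theorem M_posZ : (0 : ℤ) < M := by exact_mod_cast Nat.pos_of_ne_zero (NeZero.ne M)

theorem fract_eq_rt {x : ℚ} {y : ℤ} (h : (M : ℚ) * x = y) : Int.fract x = rt M y := by
  have hM := M_pos (M := M)
  have hZ := M_posZ (M := M)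
  unfold rt
  rw [Int.fract_eq_iff]
  have h1 : (0 : ℤ) ≤ y % M := Int.emod_nonneg _ hZ.ne'
  have h2 : y % (M : ℤ) < M := Int.emod_lt_of_pos _ hZ
  refine ⟨by positivity, ?_, y / M, ?_⟩
  · rw [div_lt_one hM]; exact_mod_cast h2
  · have h3 : y % (M : ℤ) + M * (y / M) = y := Int.emod_add_mul_ediv y M
    have h4 : ((y % (M : ℤ) : ℤ) : ℚ) + M * ((y / M : ℤ) : ℚ) = y := by exact_mod_cast h3
    field_simp
    linear_combination h - h4

theorem mul_rt (y : ℤ) : (M : ℚ) * rt M y = ((y % (M : ℤ) : ℤ) : ℚ) := by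
  have hM := M_pos (M := M)
  unfold rt
  field_simp

theorem rt_congr {y z : ℤ} (h : (M : ℤ) ∣ y - z) : rt M y = rt M z := by
  have h1 : z % (M : ℤ) = y % (M : ℤ) := Int.modEq_iff_dvd.2 h
  unfold rt
  rw [h1]

theorem rt_lt (y : ℤ) : rt M y < 1 := by
  unfold rt
  rw [div_lt_one (M_pos (M := M))]
  exact_mod_cast Int.emod_lt_of_pos _ (M_posZ (M := M))

theorem rt_pos {y : ℤ} (h : ¬ (M : ℤ) ∣ y) : 0 < rt M y := by
  unfold rt
  apply div_pos _ (M_pos (M := M))
  have h1 : (0 : ℤ) ≤ y % M := Int.emod_nonneg _ (M_posZ (M := M)).ne'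
  have h2 : y % (M : ℤ) ≠ 0 := fun h3 => h (Int.dvd_of_emod_eq_zero h3)
  exact_mod_cast lt_of_le_of_ne h1 (Ne.symm h2)

theorem rt_neg {y : ℤ} (h : ¬ (M : ℤ) ∣ y) : rt M (-y) = 1 - rt M y := by
  have hM := M_pos (M := M)
  have h1 : Int.fract ((y : ℚ) / M) = rt M y := fract_eq_rt (by field_simp)
  have h2 : Int.fract (-((y : ℚ) / M)) = rt M (-y) := fract_eq_rt (by push_cast; field_simp)
  rw [← h1, ← h2]
  apply Int.fract_neg
  rw [h1]
  exact (rt_pos h).ne'

theorem fract_mul_rt (t : ℕ) (y : ℤ) : Int.fract ((t : ℚ) * rt M y) = rt M ((t : ℤ) * y) := by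
  have h1 : Int.fract ((t : ℚ) * rt M y) = rt M ((t : ℤ) * (y % M)) := by
    apply fract_eq_rt
    have := mul_rt (M := M) y
    push_cast
    linear_combination (t : ℚ) * this
  rw [h1]
  apply rt_congr
  rw [← mul_sub]
  apply dvd_mul_of_dvd_right
  have h3 : y % (M : ℤ) + M * (y / M) = y := Int.emod_add_mul_ediv y M
  exact ⟨-(y / M), by linear_combination h3⟩

theorem eq_rt {a : ℚ} (h0 : 0 < a) (h1 : a < 1) {k : ℤ} (hk : (M : ℚ) * a = k) : a = rt M k := by
  rw [← fract_eq_rt hk, Int.fract_eq_self.2 ⟨h0.le, h1⟩]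

theorem not_dvd {a : ℚ} (h0 : 0 < a) (h1 : a < 1) {k : ℤ} (hk : (M : ℚ) * a = k) :
    ¬ (M : ℤ) ∣ k := by
  rintro ⟨l, hl⟩
  have hM := M_pos (M := M)
  have h2 : (M : ℚ) * a = M * l := by rw [hk, hl]; push_cast; ring
  have h3 : a = l := mul_left_cancel₀ hM.ne' h2
  rw [h3] at h0 h1
  have h4 : (0 : ℤ) < l := by exact_mod_cast h0
  have h5 : l < (1 : ℤ) := by exact_mod_cast h1
  omega

/-- sum over a fibre -/
theorem sum_rt {p n : ℕ} (hp : p.Prime) (hMn : M = p * n) {t : ℕ} (ht : t.Coprime M) (y : ℤ) :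
    ∑ j ∈ range p, rt M ((t : ℤ) * (y + j * n)) =
      rt M ((t : ℤ) * (p * y)) + ((p : ℚ) - 1) / 2 := by
  have hM := M_pos (M := M)
  have hp' : (0 : ℚ) < p := by exact_mod_cast hp.pos
  have hMn' : (M : ℚ) = p * n := by exact_mod_cast hMn
  have htp : t.Coprime p := Nat.Coprime.coprime_dvd_right ⟨n, hMn⟩ ht
  have h1 := sum_fract_mul p hp t htp ((t : ℚ) * y / M)
  have h2 : Int.fract ((p : ℚ) * ((t : ℚ) * y / M)) = rt M ((t : ℤ) * (p * y)) := by
    apply fract_eq_rt
    push_cast
    field_simp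
  rw [← h2, ← h1]
  refine sum_congr rfl fun j _ => ?_
  symm
  apply fract_eq_rt
  push_cast
  have : (M : ℚ) * ((t : ℚ) * y / M + (t : ℚ) * ((j : ℚ) / p)) = t * y + t * (j * (M / p)) := by
    field_simp
  rw [this, hMn']
  field_simp

/-! ### Classes -/

end

variable (M : ℕ) [NeZero M]

/-- class of a rational -/
def cl (a : ℚ) : ZMod M := ((⌊(M : ℚ) * a⌋ : ℤ) : ZMod M)

/-- class of a multiset -/
def cls (s : Multiset ℚ) : ZMod M → ℤ := fun x => ((s.map (cl M)).count x : ℤ)

/-- unit vectors -/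
def dl (y : ℤ) : ZMod M → ℤ := Pi.single (y : ZMod M) 1

variable {M}

theorem cl_rt (y : ℤ) : cl M (rt M y) = (y : ZMod M) := by
  unfold cl
  rw [mul_rt, Int.floor_intCast]
  exact ZMod.intCast_mod y M

theorem cls_add (s t : Multiset ℚ) : cls M (s + t) = cls M s + cls M t := by
  funext x
  simp [cls]

theorem cls_zero : cls M 0 = 0 := by
  funext x
  simp [cls]

theorem cls_rt (y : ℤ) : cls M {rt M y} = dl M y := by
  funext x
  unfold cls dl
  rw [Multiset.map_singleton, cl_rt, Multiset.count_singleton, Pi.single_apply]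
  split_ifs <;> simp_all

theorem cls_map_range (k : ℕ) (g : ℕ → ℤ) :
    cls M ((Multiset.range k).map fun j => rt M (g j)) = ∑ j ∈ range k, dl M (g j) := by
  induction k with
  | zero => simp [cls_zero]
  | succ k ih =>
    rw [Multiset.range_succ, Multiset.map_cons, ← Multiset.singleton_add, cls_add, ih, cls_rt,
      sum_range_succ, add_comm]

theorem cls_injective {s t : Multiset ℚ} (hs : ∀ a ∈ s, 0 < a ∧ a < 1) (hds : HasDegree M s)
    (ht : ∀ a ∈ t, 0 < a ∧ a < 1) (hdt : HasDegree M t) (h : cls M s = cls M t) : s = t := by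
  have h1 : s.map (cl M) = t.map (cl M) := by
    ext x
    have := congrFun h x
    unfold cls at this
    exact_mod_cast this
  have h2 : ∀ u : Multiset ℚ, (∀ a ∈ u, 0 < a ∧ a < 1) → HasDegree M u →
      (u.map (cl M)).map (fun x => ((x.val : ℕ) : ℚ) / M) = u := by
    intro u hu hdu
    rw [Multiset.map_map]
    conv_rhs => rw [← Multiset.map_id u]
    apply Multiset.map_congr rfl
    intro a ha
    obtain ⟨k, hk⟩ := hdu a ha
    obtain ⟨h3, h4⟩ := hu a ha
    have h5 := eq_rt h3 h4 hk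
    simp only [Function.comp_apply, id_eq]
    conv_lhs => rw [h5]
    rw [cl_rt]
    conv_rhs => rw [h5]
    unfold rt
    congr 1
    have : (((k : ZMod M).val : ℕ) : ℤ) = k % M := ZMod.val_intCast k
    exact_mod_cast this
  rw [← h2 s hs hds, ← h2 t ht hdt, h1]

/-! ### Good multisets -/

structure Good (M : ℕ) (𝒜 : Multiset ℚ → Prop) (A : Multiset ℚ) : Prop where
  mem : 𝒜 A
  char : IsChar A
  deg : HasDegree M A
  tate : TateType M A

variable {𝒜 : Multiset ℚ → Prop}

theorem Good.add (h : CycleSystem 𝒜) {A B : Multiset ℚ} (hA : Good M 𝒜 A) (hB : Good M 𝒜 B) :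
    Good M 𝒜 (A + B) := by
  refine ⟨h.join _ _ hA.mem hB.mem, ⟨?_, ?_⟩, ?_, ?_⟩
  · intro a ha
    rcases Multiset.mem_add.1 ha with h1 | h1
    · exact hA.char.1 a h1
    · exact hB.char.1 a h1
  · obtain ⟨k, hk⟩ := hA.char.2
    obtain ⟨l, hl⟩ := hB.char.2
    exact ⟨k + l, by rw [Multiset.sum_add, hk, hl]; push_cast; ring⟩
  · intro a ha
    rcases Multiset.mem_add.1 ha with h1 | h1
    · exact hA.deg a h1
    · exact hB.deg a h1
  · intro t ht
    rw [Multiset.map_add, Multiset.sum_add, hA.tate t ht, hB.tate t ht, Multiset.card_add]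
    push_cast
    ring

theorem mem_zero (h : CycleSystem 𝒜) : 𝒜 0 := by
  have h1 := h.pair (1 / 2) (by norm_num) (by norm_num)
  apply h.cancel 0 (1 / 2) (by norm_num) (by norm_num)
  rwa [zero_add]

theorem Good.zero (h : CycleSystem 𝒜) : Good M 𝒜 0 := by
  refine ⟨mem_zero h, ⟨by simp, 0, by simp⟩, by intro a ha; simp at ha, ?_⟩
  intro t _
  simp

/-- a general way to build good multisets from integers -/
theorem good_of (l : Multiset ℤ) (h0 : ∀ y ∈ l, ¬ (M : ℤ) ∣ y) (hM1 : 1 ≤ M)
    (htate : ∀ t : ℕ, t.Coprime M →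
      (l.map fun y => rt M ((t : ℤ) * y)).sum = (l.card : ℚ) / 2)
    (heven : Even l.card) (hmem : IsChar (l.map (rt M)) → HasDegree M (l.map (rt M)) →
      TateType M (l.map (rt M)) → 𝒜 (l.map (rt M))) : Good M 𝒜 (l.map (rt M)) := by
  have hchar : IsChar (l.map (rt M)) := by
    refine ⟨?_, ?_⟩
    · intro a ha
      obtain ⟨y, hy, rfl⟩ := Multiset.mem_map.1 ha
      exact ⟨rt_pos (h0 y hy), rt_lt y⟩
    · obtain ⟨k, hk⟩ := heven
      refine ⟨k, ?_⟩
      have := htate 1 (Nat.coprime_one_left M)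
      simp only [Nat.cast_one, one_mul] at this
      rw [show (l.map (rt M)).sum = (l.map fun y => rt M y).sum from rfl, this, hk]
      push_cast
      ring
  have hdeg : HasDegree M (l.map (rt M)) := by
    intro a ha
    obtain ⟨y, hy, rfl⟩ := Multiset.mem_map.1 ha
    exact ⟨_, mul_rt y⟩
  have ht : TateType M (l.map (rt M)) := by
    intro t ht
    rw [Multiset.map_map, Multiset.card_map, ← htate t ht]
    congr 1
    apply Multiset.map_congr rfl
    intro y _
    exact fract_mul_rt t y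
  exact ⟨hmem hchar hdeg ht, hchar, hdeg, ht⟩

theorem not_dvd_mul {t : ℕ} (ht : t.Coprime M) {y : ℤ} (h : ¬ (M : ℤ) ∣ y) :
    ¬ (M : ℤ) ∣ (t : ℤ) * y := by
  intro h1
  apply h
  have h2 : IsCoprime (M : ℤ) (t : ℤ) := by
    rw [Nat.isCoprime_iff_coprime]
    exact ht.symm
  exact h2.dvd_of_dvd_mul_left h1

theorem good_pair (h : CycleSystem 𝒜) {y : ℤ} (hy : ¬ (M : ℤ) ∣ y) :
    Good M 𝒜 {rt M y, rt M (-y)} := by
  have hM1 : 1 ≤ M := Nat.pos_of_ne_zero (NeZero.ne M)
  have e : ({rt M y, rt M (-y)} : Multiset ℚ) = ({y, -y} : Multiset ℤ).map (rt M) := by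
    simp
  rw [e]
  apply good_of _ ?_ hM1 ?_ ?_ ?_
  · intro z hz
    simp only [Multiset.insert_eq_cons, Multiset.mem_cons, Multiset.mem_singleton] at hz
    rcases hz with rfl | rfl
    · exact hy
    · rwa [dvd_neg]
  · intro t ht
    have h1 : (t : ℤ) * -y = -((t : ℤ) * y) := by ring
    simp only [Multiset.insert_eq_cons, Multiset.map_cons, Multiset.map_singleton,
      Multiset.sum_cons, Multiset.sum_singleton, Multiset.card_cons, Multiset.card_singleton, h1,
      rt_neg (not_dvd_mul ht hy)]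
    norm_num
  · simp only [Multiset.insert_eq_cons, Multiset.card_cons, Multiset.card_singleton]
    exact ⟨1, rfl⟩
  · intro _ _ _
    have := h.pair (rt M y) (rt_pos hy) (rt_lt y)
    rw [← rt_neg hy] at this
    simpa using this

/-- the distribution multiset for odd `p` -/
theorem good_dist (h : CycleSystem 𝒜) {p n : ℕ} (hp : p.Prime) (hp2 : p ≠ 2) (hMn : M = p * n)
    {y : ℤ} (hy : ¬ (M : ℤ) ∣ p * y) :
    Good M 𝒜 ((Multiset.range p).map (fun j : ℕ => rt M (y + j * n)) + {rt M (-(p * y))}) := by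
  have hM1 : 1 ≤ M := Nat.pos_of_ne_zero (NeZero.ne M)
  have hM := M_pos (M := M)
  have hp' : (0 : ℚ) < p := by exact_mod_cast hp.pos
  have hMn' : (M : ℚ) = p * n := by exact_mod_cast hMn
  have hodd : p % 2 = 1 := by
    rcases hp.eq_two_or_odd with h1 | h1
    · exact absurd h1 hp2
    · exact h1
  have e : ((Multiset.range p).map (fun j : ℕ => rt M (y + j * n)) + {rt M (-(p * y))}) =
      ((Multiset.range p).map (fun j : ℕ => y + j * (n : ℤ)) + {-(p * y)}).map (rt M) := by
    rw [Multiset.map_add, Multiset.map_map, Multiset.map_singleton]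
    rfl
  have hyj : ∀ j : ℕ, ¬ (M : ℤ) ∣ y + j * n := by
    intro j hj
    apply hy
    have h1 : (M : ℤ) ∣ p * (y + j * n) := dvd_mul_of_dvd_right hj _
    have h2 : (p : ℤ) * (y + j * n) = p * y + M * j := by rw [hMn]; push_cast; ring
    rw [h2] at h1
    exact (dvd_add_left (dvd_mul_right _ _)).1 h1
  rw [e]
  apply good_of _ ?_ hM1 ?_ ?_ ?_
  · intro z hz
    rcases Multiset.mem_add.1 hz with h1 | h1
    · obtain ⟨j, _, rfl⟩ := Multiset.mem_map.1 h1
      exact hyj j
    · rw [Multiset.mem_singleton.1 h1, dvd_neg]; exact hy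
  · intro t ht
    have h1 : (t : ℤ) * -(p * y) = -((t : ℤ) * (p * y)) := by ring
    rw [Multiset.map_add, Multiset.sum_add, Multiset.map_map, Multiset.map_singleton,
      Multiset.sum_singleton, h1, rt_neg (not_dvd_mul ht hy), Multiset.card_add,
      Multiset.card_map, Multiset.card_range, Multiset.card_singleton]
    have h2 : (Multiset.map ((fun y => rt M ((t : ℤ) * y)) ∘ fun j : ℕ => y + (j : ℤ) * (n : ℤ))
        (Multiset.range p)).sum = ∑ j ∈ range p, rt M ((t : ℤ) * (y + j * n)) := rfl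
    rw [h2, sum_rt hp hMn ht y]
    push_cast
    ring
  · rw [Multiset.card_add, Multiset.card_map, Multiset.card_range, Multiset.card_singleton]
    exact ⟨(p + 1) / 2, by omega⟩
  · intro hc hd ht
    by_cases h3 : p = 3
    · apply h.surface M _ (by omega) hc hd ht
      rw [Multiset.card_map, Multiset.card_add, Multiset.card_map, Multiset.card_range,
        Multiset.card_singleton, h3]
    · have h5 : 5 ≤ p := by
        have := hp.two_le
        rcases Nat.lt_or_ge p 5 with h4 | h4
        · interval_cases p <;> omega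
        · exact h4
      have hy0 : ¬ (M : ℤ) ∣ y := fun h6 => hy (dvd_mul_of_dvd_right h6 _)
      have h7 := h.aoki p hp h5 (rt M y) (rt_pos hy0) (rt_lt y) (by
        rintro ⟨k, hk⟩
        apply hy
        have h8 : (M : ℚ) * (p * rt M y) = M * k := by rw [hk]
        have h9 : (M : ℚ) * (p * rt M y) = p * ((y % (M : ℤ) : ℤ) : ℚ) := by
          rw [← mul_rt]; ring
        rw [h9] at h8
        have h10 : (p : ℤ) * (y % M) = M * k := by exact_mod_cast h8
        have h11 : y % (M : ℤ) + M * (y / M) = y := Int.emod_add_mul_ediv y M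
        exact ⟨k + p * (y / M), by linear_combination (-(p : ℤ)) * h11 + h10⟩)
      have h7' : 𝒜 ((Multiset.range p).map (fun j : ℕ => Int.fract (rt M y + (j : ℚ) / p)) +
          {Int.fract (-((p : ℚ) * rt M y))}) := by
        first
        | exact h7
        | (convert h7 using 2
           simp [Multiset.pure_def, Multiset.bind_def, Multiset.bind_singleton, Multiset.map_map,
             Function.comp_def])
      rw [← e]
      convert h7' using 2
      · apply Multiset.map_congr rfl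
        intro j _
        have h12 : (M : ℚ) * (rt M y + (j : ℚ) / p) = ((y % (M : ℤ) + j * n : ℤ) : ℚ) := by
          rw [mul_add, mul_rt, hMn']
          push_cast
          field_simp
        rw [fract_eq_rt h12]
        apply rt_congr
        have h11 : y % (M : ℤ) + M * (y / M) = y := Int.emod_add_mul_ediv y M
        exact ⟨y / M, by linear_combination (-1 : ℤ) * h11⟩
      · congr 1
        have h12 : (M : ℚ) * (-(p * rt M y)) = ((-(p * (y % (M : ℤ))) : ℤ) : ℚ) := by
          push_cast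
          have := mul_rt (M := M) y
          push_cast at this
          linear_combination (-(p : ℚ)) * this
        rw [fract_eq_rt h12]
        apply rt_congr
        have h11 : y % (M : ℤ) + M * (y / M) = y := Int.emod_add_mul_ediv y M
        exact ⟨-(p * (y / M)), by linear_combination (p : ℤ) * h11⟩

/-- the distribution multiset for `p = 2` -/
theorem good_dist_two (h : CycleSystem 𝒜) {n : ℕ} (hMn : M = 2 * n)
    {y : ℤ} (hy : ¬ (M : ℤ) ∣ 2 * y) :
    Good M 𝒜 ({rt M y, rt M (y + n), rt M (-(2 * y)), rt M n} : Multiset ℚ) := by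
  have hM1 : 1 ≤ M := Nat.pos_of_ne_zero (NeZero.ne M)
  have hM := M_pos (M := M)
  have hn : 0 < n := by omega
  have hMn' : (M : ℚ) = 2 * n := by exact_mod_cast hMn
  have e : ({rt M y, rt M (y + n), rt M (-(2 * y)), rt M n} : Multiset ℚ) =
      ({y, y + n, -(2 * y), (n : ℤ)} : Multiset ℤ).map (rt M) := by
    simp
  have hyn : ¬ (M : ℤ) ∣ (n : ℤ) := by
    intro h1
    have := Int.le_of_dvd (by omega) h1
    omega
  rw [e]
  apply good_of _ ?_ hM1 ?_ ?_ ?_
  · intro z hz
    simp only [Multiset.insert_eq_cons, Multiset.mem_cons, Multiset.mem_singleton] at hz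
    rcases hz with rfl | rfl | rfl | rfl
    · exact fun h6 => hy (dvd_mul_of_dvd_right h6 _)
    · intro h1
      apply hy
      have h2 : (M : ℤ) ∣ 2 * (y + n) := dvd_mul_of_dvd_right h1 _
      have h3 : (2 : ℤ) * (y + n) = 2 * y + M * 1 := by rw [hMn]; push_cast; ring
      rw [h3] at h2
      exact (dvd_add_left (dvd_mul_right _ _)).1 h2
    · rwa [dvd_neg]
    · exact hyn
  · intro t ht
    have h1 : (t : ℤ) * -(2 * y) = -((t : ℤ) * (2 * y)) := by ring
    have htodd : t % 2 = 1 := by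
      have h2 : t.Coprime 2 := Nat.Coprime.coprime_dvd_right ⟨n, hMn⟩ ht
      rw [Nat.coprime_two_right] at h2
      exact Nat.odd_iff.1 h2
    have h3 := sum_rt Nat.prime_two hMn ht y
    simp only [sum_range_succ, sum_range_zero, zero_add, Nat.cast_zero, zero_mul, add_zero,
      Nat.cast_one, one_mul, Nat.cast_ofNat] at h3
    have h4 : rt M ((t : ℤ) * n) = 1 / 2 := by
      have h5 : rt M ((t : ℤ) * n) = rt M (n : ℤ) := by
        apply rt_congr
        obtain ⟨q, hq⟩ : ∃ q, t = 2 * q + 1 := ⟨t / 2, by omega⟩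
        refine ⟨q, ?_⟩
        rw [hMn, hq]
        push_cast
        ring
      rw [h5]
      unfold rt
      have h6 : (n : ℤ) % (M : ℤ) = n := Int.emod_eq_of_lt (by omega) (by omega)
      rw [h6, hMn']
      have : (0 : ℚ) < n := by exact_mod_cast hn
      push_cast
      field_simp
    simp only [Multiset.insert_eq_cons, Multiset.map_cons, Multiset.map_singleton,
      Multiset.sum_cons, Multiset.sum_singleton, Multiset.card_cons, Multiset.card_singleton, h1,
      rt_neg (not_dvd_mul ht hy), h4]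
    push_cast
    linarith
  · simp only [Multiset.insert_eq_cons, Multiset.card_cons, Multiset.card_singleton]
    exact ⟨2, rfl⟩
  · intro hc hd ht
    apply h.surface M _ (by omega) hc hd ht
    simp

/-- four-tuples -/
theorem good_tuple (h : CycleSystem 𝒜) {e : List ℤ} (he : GoodTuple M e) :
    Good M 𝒜 ((e : Multiset ℤ).map (rt M)) := by
  have hM1 : 1 ≤ M := Nat.pos_of_ne_zero (NeZero.ne M)
  have hM := M_pos (M := M)
  obtain ⟨h1, h2, h3, h4⟩ := he
  apply good_of _ ?_ hM1 ?_ ?_ ?_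
  · intro z hz
    exact h2 z (by simpa using hz)
  · intro t ht
    have h5 := h4 t ht
    rw [Multiset.map_coe, Multiset.sum_coe, Multiset.coe_card, h1]
    have h6 : (e.map fun y => rt M ((t : ℤ) * y)).sum =
        (((e.map fun x => ((t : ℤ) * x) % M).sum : ℤ) : ℚ) / M := by
      clear h1 h2 h3 h4 h5
      induction e with
      | nil => simp
      | cons a l ih =>
        rw [List.map_cons, List.sum_cons, List.map_cons, List.sum_cons, ih]
        unfold rt
        push_cast
        ring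
    rw [h6, h5]
    push_cast
    field_simp
    norm_num
  · rw [Multiset.coe_card, h1]
    exact ⟨2, rfl⟩
  · intro hc hd ht
    apply h.surface M _ (by omega) hc hd ht
    rw [Multiset.card_map, Multiset.coe_card, h1]

end BE

end Pool.Agent.FT
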