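import Pool.Agent.Lib_helper15.FT_E

/-! Block E: closure, second part. -/

set_option autoImplicit false
set_option linter.unusedSectionVars false
set_option linter.unusedVariables false
set_option linter.unusedSimpArgs false

open Finset

namespace Pool.Agent.FT

namespace BE

variable {M : ℕ} [NeZero M] {𝒜 : Multiset ℚ → Prop}

/-- the relations -/
inductive IsRel (M : ℕ) [NeZero M] (E : List (List ℤ)) : (ZMod M → ℤ) → Prop
  | zero : IsRel M E (dl M 0)
  | neg (y : ℤ) : IsRel M E (dl M y + dl M (-y))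
  | dist (p n : ℕ) (y : ℤ) (hp : p.Prime) (hMn : M = p * n) :
      IsRel M E (∑ j ∈ range p, dl M (y + j * n) - dl M (p * y))
  | tup (e : List ℤ) (he : e ∈ E) : IsRel M E (e.map (dl M)).sum

/-- decomposable vectors -/
def TT (M : ℕ) [NeZero M] (n : ℕ) (h : CycleSystem 𝒜) : AddSubgroup (ZMod M → ℤ) where
  carrier := {D | ∃ A B, Good M 𝒜 A ∧ Good M 𝒜 B ∧ ∃ c ε : ℤ,
    D = cls M A - cls M B + c • dl M 0 + ε • dl M n}
  zero_mem' := ⟨0, 0, Good.zero h, Good.zero h, 0, 0, by simp⟩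
  add_mem' := by
    rintro _ _ ⟨A, B, hA, hB, c, ε, rfl⟩ ⟨A', B', hA', hB', c', ε', rfl⟩
    refine ⟨A + A', B + B', hA.add h hA', hB.add h hB', c + c', ε + ε', ?_⟩
    rw [cls_add, cls_add, add_smul, add_smul]
    abel
  neg_mem' := by
    rintro _ ⟨A, B, hA, hB, c, ε, rfl⟩
    refine ⟨B, A, hB, hA, -c, -ε, ?_⟩
    rw [neg_smul, neg_smul]
    abel

theorem mem_TT {n : ℕ} {h : CycleSystem 𝒜} {D : ZMod M → ℤ} (A B : Multiset ℚ)
    (hA : Good M 𝒜 A) (hB : Good M 𝒜 B) (c ε : ℤ)
    (hD : D = cls M A - cls M B + c • dl M 0 + ε • dl M n) : D ∈ TT M n h :=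
  ⟨A, B, hA, hB, c, ε, hD⟩

theorem dl_congr {y z : ℤ} (h : (M : ℤ) ∣ y - z) : dl M y = dl M z := by
  unfold dl
  have : (y : ZMod M) = z := by
    rw [← sub_eq_zero, ← Int.cast_sub, ZMod.intCast_zmod_eq_zero_iff_dvd]
    exact h
  rw [this]

theorem dl_dvd {y : ℤ} (h : (M : ℤ) ∣ y) : dl M y = dl M 0 := dl_congr (by simpa using h)

theorem cls_pair (y z : ℤ) : cls M {rt M y, rt M z} = dl M y + dl M z := by
  rw [Multiset.insert_eq_cons, ← Multiset.singleton_add, cls_add, cls_rt, cls_rt]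

theorem neg_mem_TT {n : ℕ} (h : CycleSystem 𝒜) (y : ℤ) : dl M y + dl M (-y) ∈ TT M n h := by
  by_cases hy : (M : ℤ) ∣ y
  · refine mem_TT 0 0 (Good.zero h) (Good.zero h) 2 0 ?_
    rw [dl_dvd hy, dl_dvd ((dvd_neg (a := (M : ℤ))).2 hy)]
    rw [sub_self, zero_add, zero_smul, add_zero, two_smul]
  · refine mem_TT {rt M y, rt M (-y)} 0 (good_pair h hy) (Good.zero h) 0 0 ?_
    rw [cls_pair, cls_zero]
    simp

theorem n_mem_TT {n : ℕ} (h : CycleSystem 𝒜) : dl M (n : ℤ) ∈ TT M n h :=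
  mem_TT 0 0 (Good.zero h) (Good.zero h) 0 1 (by simp)

theorem zero_mem_TT {n : ℕ} (h : CycleSystem 𝒜) : dl M 0 ∈ TT M n h :=
  mem_TT 0 0 (Good.zero h) (Good.zero h) 1 0 (by simp)

/-- sum over the multiples of `n` -/
theorem sum_mult_mem {p n m : ℕ} (h : CycleSystem 𝒜) (hp : p % 2 = 1) (hMn : M = p * n) :
    ∑ j ∈ range p, dl M ((j : ℤ) * n) - dl M 0 ∈ TT M m h := by
  obtain ⟨q, rfl⟩ : ∃ q, p = 2 * q + 1 := ⟨p / 2, by omega⟩
  have h1 : ∑ j ∈ range (2 * q + 1), dl M ((j : ℤ) * n) - dl M 0 =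
      ∑ j ∈ range q, (dl M (((j + 1 : ℕ) : ℤ) * n) + dl M (-(((j + 1 : ℕ) : ℤ) * n))) := by
    rw [sum_range_succ', two_mul, sum_range_add, sum_add_distrib]
    have h2 : ∑ j ∈ range q, dl M ((((q + j) + 1 : ℕ) : ℤ) * n) =
        ∑ j ∈ range q, dl M (-(((j + 1 : ℕ) : ℤ) * n)) := by
      rw [← sum_range_reflect (fun j => dl M ((((q + j) + 1 : ℕ) : ℤ) * n))]
      refine sum_congr rfl fun j hj => ?_
      rw [mem_range] at hj
      apply dl_congr
      refine ⟨1, ?_⟩
      have h3 : (((q + (q - 1 - j)) + 1 : ℕ) : ℤ) = 2 * q - j := by omega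
      rw [h3, hMn]
      push_cast
      ring
    rw [h2]
    simp only [Nat.cast_zero, zero_mul]
    abel
  rw [h1]
  exact AddSubgroup.sum_mem _ fun j _ => neg_mem_TT h _

theorem dist_mem_TT {m p n : ℕ} (h : CycleSystem 𝒜) (hm : M = 2 * m) (hp : p.Prime)
    (hMn : M = p * n) (y : ℤ) :
    ∑ j ∈ range p, dl M (y + j * n) - dl M (p * y) ∈ TT M m h := by
  by_cases hp2 : p = 2
  · subst hp2
    have hnm : n = m := by omega
    subst hnm
    have e : ∑ j ∈ range 2, dl M (y + j * n) = dl M y + dl M (y + n) := by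
      simp [sum_range_succ]
    rw [e]
    push_cast
    by_cases hy : (M : ℤ) ∣ 2 * y
    · -- y is 0 or n mod M
      have h2n : (M : ℤ) = 2 * n := by exact_mod_cast hm
      have hny : (n : ℤ) ∣ y := by
        obtain ⟨k, hk⟩ := hy
        exact ⟨k, by rw [h2n] at hk; linarith⟩
      obtain ⟨k, hk⟩ := hny
      rw [dl_dvd hy]
      rcases Int.even_or_odd' k with ⟨l, hl | hl⟩
      · have h3 : dl M y = dl M 0 := dl_dvd ⟨l, by rw [hk, hl, h2n]; ring⟩
        have h4 : dl M (y + n) = dl M n := dl_congr ⟨l, by rw [hk, hl, h2n]; ring⟩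
        rw [h3, h4]
        have : dl M 0 + dl M (n : ℤ) - dl M 0 = dl M n := by abel
        rw [this]
        exact n_mem_TT h
      · have h3 : dl M y = dl M n := dl_congr ⟨l, by rw [hk, hl, h2n]; ring⟩
        have h4 : dl M (y + n) = dl M 0 := dl_dvd ⟨l + 1, by rw [hk, hl, h2n]; ring⟩
        rw [h3, h4]
        have : dl M (n : ℤ) + dl M 0 - dl M 0 = dl M n := by abel
        rw [this]
        exact n_mem_TT h
    · have h1 : dl M y + dl M (y + n) - dl M (2 * y) =
          (dl M y + dl M (y + n) + dl M (-(2 * y)) + dl M n) -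
          (dl M (2 * y) + dl M (-(2 * y))) - dl M n := by abel
      rw [h1]
      refine AddSubgroup.sub_mem _ (AddSubgroup.sub_mem _ ?_ (neg_mem_TT h _)) (n_mem_TT h)
      refine mem_TT _ 0 (good_dist_two h hm hy) (Good.zero h) 0 0 ?_
      rw [Multiset.insert_eq_cons, Multiset.insert_eq_cons, ← Multiset.singleton_add,
        ← Multiset.singleton_add, cls_add, cls_add, cls_pair, cls_rt, cls_rt, cls_zero]
      simp only [zero_smul, sub_zero, add_zero]
      abel
  · have hodd : p % 2 = 1 := by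
      rcases hp.eq_two_or_odd with h1 | h1
      · exact absurd h1 hp2
      · exact h1
    by_cases hy : (M : ℤ) ∣ p * y
    · have hpn : (M : ℤ) = p * n := by exact_mod_cast hMn
      have hp0 : (p : ℤ) ≠ 0 := by exact_mod_cast hp.ne_zero
      obtain ⟨k, hk⟩ : (n : ℤ) ∣ y := by
        obtain ⟨k, hk⟩ := hy
        refine ⟨k, ?_⟩
        rw [hpn, mul_assoc] at hk
        exact mul_left_cancel₀ hp0 hk
      rw [dl_dvd hy]
      have h1 : ∑ j ∈ range p, dl M (y + j * n) = ∑ j ∈ range p, dl M ((j : ℤ) * n) := by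
        rw [← sum_mod_bij p hp.pos (fun j => (k % p).toNat + j) ?_
          (fun j => dl M ((j : ℤ) * n))]
        · refine sum_congr rfl fun j _ => ?_
          apply dl_congr
          have h2 : ((((k % p).toNat + j) % p : ℕ) : ℤ) = (k % p + j) % p := by
            have : (((k % p).toNat : ℕ) : ℤ) = k % p :=
              Int.toNat_of_nonneg (Int.emod_nonneg _ hp0)
            push_cast
            rw [this]
          rw [h2, hk, hpn]
          have h3 := Int.emod_add_mul_ediv (k % p + j) p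
          have h4 := Int.emod_add_mul_ediv k p
          refine ⟨(k % p + j) / p + k / p, ?_⟩
          linear_combination -(n : ℤ) * h3 - (n : ℤ) * h4
        · intro i hi j hj hij
          have h5 : i % p = j % p := Nat.ModEq.add_left_cancel' _ hij
          rwa [Nat.mod_eq_of_lt hi, Nat.mod_eq_of_lt hj] at h5
      rw [h1]
      exact sum_mult_mem h hodd hMn
    · have h1 : ∑ j ∈ range p, dl M (y + j * n) - dl M (p * y) =
          (∑ j ∈ range p, dl M (y + j * n) + dl M (-(p * y))) -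
          (dl M (p * y) + dl M (-(p * y))) := by abel
      rw [h1]
      refine AddSubgroup.sub_mem _ ?_ (neg_mem_TT h _)
      refine mem_TT _ 0 (good_dist h hp hp2 hMn hy) (Good.zero h) 0 0 ?_
      rw [cls_add, cls_rt, cls_map_range, cls_zero]
      simp

theorem cls_list (e : List ℤ) : cls M ((e : Multiset ℤ).map (rt M)) = (e.map (dl M)).sum := by
  induction e with
  | nil => simp [cls_zero]
  | cons a l ih =>
    rw [← Multiset.cons_coe, Multiset.map_cons, ← Multiset.singleton_add, cls_add, cls_rt, ih,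
      List.map_cons, List.sum_cons]

theorem rel_mem_TT {m : ℕ} (h : CycleSystem 𝒜) (hm : M = 2 * m) {E : List (List ℤ)}
    (hE : ∀ e ∈ E, GoodTuple M e) {D : ZMod M → ℤ} (hD : IsRel M E D) : D ∈ TT M m h := by
  cases hD with
  | zero => exact zero_mem_TT h
  | neg y => exact neg_mem_TT h y
  | dist p n y hp hMn => exact dist_mem_TT h hm hp hMn y
  | tup e he =>
    refine mem_TT _ 0 (good_tuple h (hE e he)) (Good.zero h) 0 0 ?_
    rw [cls_list, cls_zero]
    simp

/-! ### The Stickelberger map -/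

theorem stq_add (D D' : ZMod M → ℤ) (t : (ZMod M)ˣ) : stq M (D + D') t = stq M D t + stq M D' t := by
  unfold stq
  rw [← sum_add_distrib]
  refine sum_congr rfl fun x _ => ?_
  simp only [Pi.add_apply]
  push_cast
  ring

theorem stq_neg (D : ZMod M → ℤ) (t : (ZMod M)ˣ) : stq M (-D) t = - stq M D t := by
  unfold stq
  rw [← sum_neg_distrib]
  refine sum_congr rfl fun x _ => ?_
  simp only [Pi.neg_apply]
  push_cast
  ring

theorem stq_sub (D D' : ZMod M → ℤ) (t : (ZMod M)ˣ) : stq M (D - D') t = stq M D t - stq M D' t := by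
  rw [sub_eq_add_neg, stq_add, stq_neg]; ring

theorem stq_smul (c : ℤ) (D : ZMod M → ℤ) (t : (ZMod M)ˣ) : stq M (c • D) t = c * stq M D t := by
  unfold stq
  rw [mul_sum]
  refine sum_congr rfl fun x _ => ?_
  simp only [Pi.smul_apply, smul_eq_mul]
  push_cast
  ring

theorem stq_zero (t : (ZMod M)ˣ) : stq M 0 t = 0 := by
  unfold stq
  simp

theorem stq_dl (y : ℤ) (t : (ZMod M)ˣ) :
    stq M (dl M y) t = rt M (((t : ZMod M).val : ℤ) * y) - if (M : ℤ) ∣ y then 0 else 1 / 2 := by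
  unfold stq dl
  rw [sum_eq_single (y : ZMod M)]
  · rw [Pi.single_eq_same]
    have h1 : (((t : ZMod M) * (y : ZMod M)).val : ℤ) = (((t : ZMod M).val : ℤ) * y) % M := by
      have h2 : ((t : ZMod M) * (y : ZMod M)) = (((((t : ZMod M).val : ℤ) * y) : ℤ) : ZMod M) := by
        push_cast
        rw [ZMod.natCast_zmod_val]
      rw [h2, ZMod.val_intCast]
    have h3 : ((((t : ZMod M) * (y : ZMod M)).val : ℕ) : ℚ) =
        (((((t : ZMod M).val : ℤ) * y) % M : ℤ) : ℚ) := by exact_mod_cast h1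
    rw [h3]
    simp only [ZMod.intCast_zmod_eq_zero_iff_dvd]
    unfold rt
    push_cast
    ring
  · intro b _ hb
    rw [Pi.single_eq_of_ne hb]
    simp
  · intro h
    exact absurd (mem_univ _) h

theorem coprime_val (t : (ZMod M)ˣ) : ((t : ZMod M).val).Coprime M := ZMod.val_coe_unit_coprime t

theorem stq_cls (A : Multiset ℚ) (h0 : ∀ a ∈ A, 0 < a ∧ a < 1) (hd : HasDegree M A)
    (t : (ZMod M)ˣ) :
    stq M (cls M A) t =
      (A.map fun a => Int.fract ((((t : ZMod M).val : ℕ) : ℚ) * a)).sum - (A.card : ℚ) / 2 := by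
  induction A using Multiset.induction with
  | empty => simp [cls_zero, stq_zero]
  | cons a s ih =>
    have ha := h0 a (Multiset.mem_cons_self a s)
    obtain ⟨k, hk⟩ := hd a (Multiset.mem_cons_self a s)
    have e := eq_rt ha.1 ha.2 hk
    have hnd := not_dvd ha.1 ha.2 hk
    rw [← Multiset.singleton_add, cls_add, stq_add,
      ih (fun b hb => h0 b (Multiset.mem_cons_of_mem hb))
        (fun b hb => hd b (Multiset.mem_cons_of_mem hb))]
    rw [Multiset.map_add, Multiset.sum_add, Multiset.card_add, Multiset.map_singleton,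
      Multiset.sum_singleton, Multiset.card_singleton]
    rw [e, cls_rt, stq_dl, if_neg hnd, fract_mul_rt]
    push_cast
    ring

theorem stq_good {A : Multiset ℚ} (hA : Good M 𝒜 A) (t : (ZMod M)ˣ) : stq M (cls M A) t = 0 := by
  rw [stq_cls A hA.char.1 hA.deg t, hA.tate _ (coprime_val t)]
  ring

theorem stq_TT {m : ℕ} (h : CycleSystem 𝒜) (hm : M = 2 * m) {D : ZMod M → ℤ}
    (hD : D ∈ TT M m h) (t : (ZMod M)ˣ) : stq M D t = 0 := by
  obtain ⟨A, B, hA, hB, c, ε, rfl⟩ := hD
  have hm0 : 0 < m := by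
    have := Nat.pos_of_ne_zero (NeZero.ne M)
    omega
  rw [stq_add, stq_add, stq_sub, stq_smul, stq_smul, stq_good hA, stq_good hB, stq_dl, stq_dl]
  have h1 : rt M (((t : ZMod M).val : ℤ) * 0) = 0 := by
    rw [mul_zero]; unfold rt; simp
  have h2 : ¬ (M : ℤ) ∣ (m : ℤ) := by
    intro h1
    have := Int.le_of_dvd (by omega) h1
    omega
  have h3 : rt M (((t : ZMod M).val : ℤ) * m) = 1 / 2 := by
    have ht := coprime_val t
    have htodd : (t : ZMod M).val % 2 = 1 := by
      have h2 : ((t : ZMod M).val).Coprime 2 := Nat.Coprime.coprime_dvd_right ⟨m, hm⟩ ht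
      rw [Nat.coprime_two_right] at h2
      exact Nat.odd_iff.1 h2
    have h5 : rt M (((t : ZMod M).val : ℤ) * m) = rt M (m : ℤ) := by
      apply rt_congr
      obtain ⟨q, hq⟩ : ∃ q, (t : ZMod M).val = 2 * q + 1 := ⟨(t : ZMod M).val / 2, by omega⟩
      refine ⟨q, ?_⟩
      rw [hq]
      have : (M : ℤ) = 2 * m := by exact_mod_cast hm
      rw [this]
      push_cast
      ring
    rw [h5]
    unfold rt
    have h6 : (m : ℤ) % (M : ℤ) = m := Int.emod_eq_of_lt (by omega) (by omega)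
    have hMn' : (M : ℚ) = 2 * m := by exact_mod_cast hm
    rw [h6, hMn']
    have : (0 : ℚ) < m := by exact_mod_cast hm0
    push_cast
    field_simp
  rw [h1, h3, if_neg h2, if_pos (dvd_zero _)]
  ring

/-! ### Weights -/

/-- the weight -/
def wt (D : ZMod M → ℤ) : ZMod M := ∑ x, (D x : ZMod M) * x

theorem wt_add (D D' : ZMod M → ℤ) : wt (D + D') = wt D + wt D' := by
  unfold wt
  rw [← sum_add_distrib]
  refine sum_congr rfl fun x _ => ?_
  simp only [Pi.add_apply]
  push_cast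
  ring

theorem wt_smul (c : ℤ) (D : ZMod M → ℤ) : wt (c • D) = (c : ZMod M) * wt D := by
  unfold wt
  rw [mul_sum]
  refine sum_congr rfl fun x _ => ?_
  simp only [Pi.smul_apply, smul_eq_mul]
  push_cast
  ring

theorem wt_dl (y : ℤ) : wt (dl M y) = (y : ZMod M) := by
  unfold wt dl
  rw [sum_eq_single (y : ZMod M)]
  · rw [Pi.single_eq_same]; simp
  · intro b _ hb
    rw [Pi.single_eq_of_ne hb]
    simp
  · intro h
    exact absurd (mem_univ _) h

theorem wt_cls (A : Multiset ℚ) (h0 : ∀ a ∈ A, 0 < a ∧ a < 1) (hd : HasDegree M A) :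
    ∃ K : ℤ, (M : ℚ) * A.sum = K ∧ wt (cls M A) = (K : ZMod M) := by
  induction A using Multiset.induction with
  | empty => exact ⟨0, by simp, by rw [cls_zero]; simp [wt]⟩
  | cons a s ih =>
    obtain ⟨K, h1, h2⟩ := ih (fun b hb => h0 b (Multiset.mem_cons_of_mem hb))
        (fun b hb => hd b (Multiset.mem_cons_of_mem hb))
    have ha := h0 a (Multiset.mem_cons_self a s)
    obtain ⟨k, hk⟩ := hd a (Multiset.mem_cons_self a s)
    have e := eq_rt ha.1 ha.2 hk
    refine ⟨k + K, ?_, ?_⟩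
    · rw [Multiset.sum_cons, mul_add, hk, h1]; push_cast; ring
    · rw [← Multiset.singleton_add, cls_add, wt_add, h2]
      conv_lhs => rw [e]
      rw [cls_rt, wt_dl]
      push_cast
      ring

theorem wt_char {A : Multiset ℚ} (hc : IsChar A) (hd : HasDegree M A) : wt (cls M A) = 0 := by
  obtain ⟨K, h1, h2⟩ := wt_cls A hc.1 hd
  obtain ⟨k, hk⟩ := hc.2
  rw [hk] at h1
  have h3 : (M : ℤ) * k = K := by exact_mod_cast h1
  rw [h2, ← h3]
  simp

/-- cancellation in a cycle system -/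
theorem cancel_all (h : CycleSystem 𝒜) (s : Multiset ℚ) (B : Multiset ℚ)
    (hB : ∀ a ∈ B, 0 < a ∧ a < 1) (hs : 𝒜 (s + (B + B.map fun a => 1 - a))) : 𝒜 s := by
  induction B using Multiset.induction with
  | empty => simpa using hs
  | cons a B ih =>
    apply ih (fun b hb => hB b (Multiset.mem_cons_of_mem hb))
    have ha := hB a (Multiset.mem_cons_self a B)
    apply h.cancel _ a ha.1 ha.2
    convert hs using 1
    rw [Multiset.map_cons, ← Multiset.singleton_add, ← Multiset.singleton_add (1 - a),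
      Multiset.insert_eq_cons, ← Multiset.singleton_add]
    abel

theorem of_add (h : CycleSystem 𝒜) {s B : Multiset ℚ} (hB : ∀ a ∈ B, 0 < a ∧ a < 1)
    (hB' : 𝒜 B) (hs : 𝒜 (s + B)) : 𝒜 s := by
  apply cancel_all h s B hB
  rw [← add_assoc]
  exact h.join _ _ hs (h.conj _ hB')

/-- from the decomposition to the conclusion -/
theorem of_mem_TT {m : ℕ} (h : CycleSystem 𝒜) (hm : M = 2 * m) {s : Multiset ℚ}
    (hs : IsChar s) (hd : HasDegree M s) (hD : cls M s ∈ TT M m h) : 𝒜 s := by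
  obtain ⟨A, B, hA, hB, c, ε, heq⟩ := hD
  have hm0 : 0 < m := by
    have := Nat.pos_of_ne_zero (NeZero.ne M)
    omega
  have hmM : ¬ (M : ℤ) ∣ (m : ℤ) := by
    intro h1
    have := Int.le_of_dvd (by omega) h1
    omega
  have hcl0 : ∀ u : Multiset ℚ, (∀ a ∈ u, 0 < a ∧ a < 1) → HasDegree M u → cls M u 0 = 0 := by
    intro u hu hdu
    unfold cls
    have : (u.map (cl M)).count 0 = 0 := by
      rw [Multiset.count_eq_zero]
      intro h1
      obtain ⟨a, ha, h2⟩ := Multiset.mem_map.1 h1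
      obtain ⟨k, hk⟩ := hdu a ha
      obtain ⟨h3, h4⟩ := hu a ha
      have h5 := eq_rt h3 h4 hk
      rw [h5, cl_rt, ZMod.intCast_zmod_eq_zero_iff_dvd] at h2
      exact not_dvd h3 h4 hk h2
    rw [this]; rfl
  -- c = 0
  have hc : c = 0 := by
    have h1 := congrFun heq 0
    simp only [Pi.add_apply, Pi.sub_apply, Pi.smul_apply, smul_eq_mul] at h1
    rw [hcl0 s hs.1 hd, hcl0 A hA.char.1 hA.deg, hcl0 B hB.char.1 hB.deg] at h1
    have h2 : dl M 0 0 = 1 := by unfold dl; simp
    have h3 : dl M (m : ℤ) 0 = 0 := by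
      unfold dl
      apply Pi.single_eq_of_ne
      intro h4
      apply hmM
      rw [← ZMod.intCast_zmod_eq_zero_iff_dvd]
      exact h4.symm
    rw [h2, h3] at h1
    linarith
  -- ε even
  have hε : Even ε := by
    have h1 := congrArg wt heq
    rw [sub_eq_add_neg, wt_add, wt_add, wt_add, wt_smul, wt_smul, wt_dl, wt_dl, wt_char hs hd,
      wt_char hA.char hA.deg] at h1
    have h2 : wt (-cls M B) = 0 := by
      have : -cls M B = (-1 : ℤ) • cls M B := by simp
      rw [this, wt_smul, wt_char hB.char hB.deg, mul_zero]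
    rw [h2] at h1
    have h3 : ((ε * m : ℤ) : ZMod M) = 0 := by
      push_cast
      have : (0 : ZMod M) = (ε : ZMod M) * ((m : ℤ) : ZMod M) := by simpa using h1
      rw [Int.cast_natCast] at this
      exact this.symm
    rw [ZMod.intCast_zmod_eq_zero_iff_dvd] at h3
    obtain ⟨k, hk⟩ := h3
    have h4 : (M : ℤ) = 2 * m := by exact_mod_cast hm
    rw [h4] at hk
    have h5 : ε = 2 * k := by
      have : (m : ℤ) ≠ 0 := by exact_mod_cast hm0.ne'
      apply mul_right_cancel₀ this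
      linear_combination hk
    exact ⟨k, by rw [h5]; ring⟩
  obtain ⟨k, hk⟩ := hε
  rw [hc, zero_smul, add_zero] at heq
  have hP : Good M 𝒜 {rt M m, rt M (-(m : ℤ))} := good_pair h hmM
  have hclsP : cls M {rt M m, rt M (-(m : ℤ))} = (2 : ℤ) • dl M m := by
    rw [cls_pair]
    have : dl M (-(m : ℤ)) = dl M m := by
      apply dl_congr
      have h4 : (M : ℤ) = 2 * m := by exact_mod_cast hm
      exact ⟨-1, by rw [h4]; ring⟩
    rw [this, two_smul]
  have hPn : ∀ r : ℕ, ∃ P, Good M 𝒜 P ∧ cls M P = ((2 * r : ℕ) : ℤ) • dl M m := by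
    intro r
    induction r with
    | zero => exact ⟨0, Good.zero h, by rw [cls_zero]; simp⟩
    | succ r ih =>
      obtain ⟨P, hP1, hP2⟩ := ih
      refine ⟨P + {rt M m, rt M (-(m : ℤ))}, hP1.add h hP, ?_⟩
      rw [cls_add, hP2, hclsP, ← add_smul]
      congr 1
  obtain ⟨P, hP1, hP2⟩ := hPn k.toNat
  obtain ⟨P', hP1', hP2'⟩ := hPn (-k).toNat
  have h1 : cls M (s + (B + P')) = cls M (A + P) := by
    rw [cls_add, cls_add, cls_add, hP2, hP2', heq]
    have h2 : ε • dl M (m : ℤ) + ((2 * (-k).toNat : ℕ) : ℤ) • dl M m =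
        ((2 * k.toNat : ℕ) : ℤ) • dl M m := by
      rw [← add_smul]
      congr 1
      push_cast
      have := Int.toNat_sub_toNat_neg k
      omega
    rw [← h2]
    abel
  have h2 : s + (B + P') = A + P := by
    have hg1 := hB.add h hP1'
    have hg2 := hA.add h hP1
    apply cls_injective ?_ ?_ hg2.char.1 hg2.deg h1
    · intro a ha
      rcases Multiset.mem_add.1 ha with h3 | h3
      · exact hs.1 a h3
      · exact hg1.char.1 a h3
    · intro a ha
      rcases Multiset.mem_add.1 ha with h3 | h3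
      · exact hd a h3
      · exact hg1.deg a h3
  have hg1 := hB.add h hP1'
  apply of_add h hg1.char.1 hg1.mem
  rw [h2]
  exact (hA.add h hP1).mem

end BE

/-- Block E: closure, with block B as a hypothesis. -/
theorem of_rigid_aux (M : ℕ) [NeZero M]
    (ker_le : ∀ (R : AddSubgroup (ZMod M → ℤ)) (K : Finset ℤ),
      2 * K.card ≤ M.totient →
      (∀ x : ZMod M, (Pi.single x 1 : ZMod M → ℤ) ∈
        R ⊔ AddSubgroup.closure ((fun k : ℤ => (Pi.single (k : ZMod M) 1 : ZMod M → ℤ)) '' K)) →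
      (∀ D ∈ R, ∀ t : (ZMod M)ˣ, stq M D t = 0) →
      ∀ D : ZMod M → ℤ, (∀ t : (ZMod M)ˣ, stq M D t = 0) → D ∈ R)
    (hM2 : 2 ∣ M) (E : List (List ℤ))
    (hE : ∀ e ∈ E, GoodTuple M e) (hR : Rigid M E) (𝒜 : Multiset ℚ → Prop) (h : CycleSystem 𝒜)
    (s : Multiset ℚ) (hs : IsChar s) (hd : HasDegree M s) (ht : TateType M s) : 𝒜 s := by
  classical
  obtain ⟨m, hm⟩ := hM2
  obtain ⟨K, hK, hprop⟩ := hR
  set R : AddSubgroup (ZMod M → ℤ) := AddSubgroup.closure {D | BE.IsRel M E D} with hRdef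
  have hrel : ∀ D, BE.IsRel M E D → D ∈ R := fun D hD => AddSubgroup.subset_closure hD
  have hRT : R ≤ BE.TT M m h := by
    rw [hRdef, AddSubgroup.closure_le]
    intro D hD
    exact BE.rel_mem_TT h hm hE hD
  set R' : AddSubgroup (ZMod M → ℤ) :=
    R ⊔ AddSubgroup.closure ((fun k : ℤ => (Pi.single (k : ZMod M) 1 : ZMod M → ℤ)) '' K)
    with hR'
  have hgen : ∀ x : ZMod M, (Pi.single x 1 : ZMod M → ℤ) ∈ R' := by
    let Q := (ZMod M → ℤ) ⧸ R'
    let f : ℤ → Q := fun y => QuotientAddGroup.mk (BE.dl M y)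
    have hmk : ∀ D : ZMod M → ℤ, D ∈ R' → (QuotientAddGroup.mk D : Q) = 0 :=
      fun D hD => (QuotientAddGroup.eq_zero_iff D).2 hD
    have hle : R ≤ R' := le_sup_left
    have hf : OddDist M f := by
      refine ⟨?_, ?_, ?_, ?_⟩
      · intro x
        show (QuotientAddGroup.mk (BE.dl M (x + M)) : Q) = QuotientAddGroup.mk (BE.dl M x)
        rw [BE.dl_congr (y := x + M) (z := x) ⟨1, by ring⟩]
      · exact hmk _ (hle (hrel _ BE.IsRel.zero))
      · intro x
        have h1 : (QuotientAddGroup.mk (BE.dl M x + BE.dl M (-x)) : Q) = 0 :=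
          hmk _ (hle (hrel _ (BE.IsRel.neg x)))
        have h2 : f x + f (-x) = 0 := h1
        exact (neg_eq_of_add_eq_zero_right h2).symm
      · intro p hp n hMn y
        have h1 : (QuotientAddGroup.mk
            (∑ j ∈ range p, BE.dl M (y + j * n) - BE.dl M (p * y)) : Q) = 0 :=
          hmk _ (hle (hrel _ (BE.IsRel.dist p n y hp hMn)))
        have h2 : (QuotientAddGroup.mk' R' (∑ j ∈ range p, BE.dl M (y + j * n)
            - BE.dl M (p * y))) = 0 := h1
        rw [map_sub, map_sum] at h2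
        exact sub_eq_zero.1 h2
    have hfE : ∀ e ∈ E, (e.map f).sum = 0 := by
      intro e he
      have h1 : (QuotientAddGroup.mk' R') ((e.map (BE.dl M)).sum) = 0 :=
        hmk _ (hle (hrel _ (BE.IsRel.tup e he)))
      rw [map_list_sum, List.map_map] at h1
      exact h1
    have hfK : ∀ k ∈ K, f k = 0 := by
      intro k hk
      apply hmk
      apply (le_sup_right : _ ≤ R')
      apply AddSubgroup.subset_closure
      exact ⟨k, hk, rfl⟩
    have hall := hprop Q f hf hfE hfK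
    intro x
    have h1 := hall (x.val : ℤ)
    have h2 : BE.dl M (x.val : ℤ) ∈ R' := (QuotientAddGroup.eq_zero_iff _).1 h1
    have h3 : BE.dl M (x.val : ℤ) = Pi.single x 1 := by
      unfold BE.dl
      congr 1
      push_cast
      rw [ZMod.natCast_zmod_val]
    rwa [h3] at h2
  have hstR : ∀ D ∈ R, ∀ t : (ZMod M)ˣ, stq M D t = 0 :=
    fun D hD t => BE.stq_TT h hm (hRT hD) t
  have hst : ∀ t : (ZMod M)ˣ, stq M (BE.cls M s) t = 0 := by
    intro t
    rw [BE.stq_cls s hs.1 hd t, ht _ (BE.coprime_val t)]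
    ring
  have hmem : BE.cls M s ∈ R := ker_le R K hK hgen hstR _ hst
  exact BE.of_mem_TT h hm hs hd (hRT hmem)

end Pool.Agent.FT
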