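import Pool.Agent.Lib_helper15.FT_E2
import Pool.Agent.Lib_helper64.FT_KerLe

/-! Block E: `of_rigid`. -/

set_option autoImplicit false

namespace Pool.Agent.FT

/-- Block E: closure. -/
theorem of_rigid (M : ℕ) (hM : 3 ≤ M) (hM2 : 2 ∣ M) (E : List (List ℤ))
    (hE : ∀ e ∈ E, GoodTuple M e) (hR : Rigid M E) (𝒜 : Multiset ℚ → Prop) (h : CycleSystem 𝒜)
    (s : Multiset ℚ) (hs : IsChar s) (hd : HasDegree M s) (ht : TateType M s) : 𝒜 s := by
  haveI : NeZero M := ⟨by omega⟩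
  exact of_rigid_aux M (fun R K h1 h2 h3 D hD => ker_le M hM R K h1 h2 h3 D hD) hM2 E hE hR 𝒜 h s
    hs hd ht

end Pool.Agent.FT
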