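import Mathlib

set_option autoImplicit false

/-!
Abstract pebbling lemmas used for the weighted zero-sum theorem in arbitrary finite groups.
Configurations are finitely supported functions `α →₀ ℕ`; `Av` is a predicate on configurations
(closed downwards) and `Rch Av T b k` says that the pebbles in `T` can always be traded for `k`
pebbles at `b`.
-/

namespace Pool.Agent.Lib_helper15.KL

open Finsupp

variable {α : Type*}

/-- In every frame `F`, the configuration `T` may be traded for `k` pebbles at `b`. -/
def Rch (Av : (α →₀ ℕ) → Prop) (T : α →₀ ℕ) (b : α) (k : ℕ) : Prop :=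
  ∀ F : α →₀ ℕ, Av (F + T) → Av (F + single b k)

/-- Downward closed predicate on configurations. -/
def Dn (Av : (α →₀ ℕ) → Prop) : Prop := ∀ S T : α →₀ ℕ, S ≤ T → Av T → Av S

theorem Rch.mono {Av : (α →₀ ℕ) → Prop} (hd : Dn Av) {S T : α →₀ ℕ} {b : α} {k : ℕ}
    (h : Rch Av S b k) (hST : S ≤ T) : Rch Av T b k := by
  intro F hF
  exact h F (hd _ _ (add_le_add le_rfl hST) hF)

theorem Rch.add {Av : (α →₀ ℕ) → Prop} {S T : α →₀ ℕ} {b : α} {k l : ℕ}
    (h : Rch Av S b k) (h' : Rch Av T b l) : Rch Av (S + T) b (k + l) := by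
  intro F hF
  have h1 : Av ((F + T) + S) := by
    have : F + T + S = F + (S + T) := by abel
    rw [this]; exact hF
  have h2 := h _ h1
  have h3 : Av ((F + single b k) + T) := by
    have : F + single b k + T = F + T + single b k := by abel
    rw [this]; exact h2
  have h4 := h' _ h3
  have h5 : F + single b k + single b l = F + single b (k + l) := by
    rw [Finsupp.single_add]; abel
  rw [← h5]; exact h4

/-- `PA`: every configuration on `P` with at least `N` pebbles can move one pebble to `b`. -/
def PA (Av : (α →₀ ℕ) → Prop) (P : Finset α) (b : α) (N : ℕ) : Prop :=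
  ∀ T : α →₀ ℕ, T.support ⊆ P → N ≤ T.degree → Rch Av T b 1

/-- `PE`: for `k ≥ 2`, every configuration on `P` with `size + support > k * N` can move
`k` pebbles to `b`. -/
def PE (Av : (α →₀ ℕ) → Prop) (P : Finset α) (b : α) (N : ℕ) : Prop :=
  ∀ k : ℕ, 2 ≤ k → ∀ T : α →₀ ℕ, T.support ⊆ P → k * N < T.degree + T.support.card →
    Rch Av T b k

theorem PA_base (Av : (α →₀ ℕ) → Prop) (hd : Dn Av) (b : α) : PA Av {b} b 1 := by
  intro T hT hN F hF
  refine hd _ _ (add_le_add le_rfl ?_) hF
  have hT' : T = single b (T b) := by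
    rw [Finsupp.eq_single_iff]
    exact ⟨hT, rfl⟩
  have hdeg : T.degree = T b := by
    rw [hT']; simp
  rw [hT']
  rw [Finsupp.single_le_single]
  omega

theorem PE_base (Av : (α →₀ ℕ) → Prop) (hd : Dn Av) (b : α) : PE Av {b} b 1 := by
  intro k hk T hT hN F hF
  refine hd _ _ (add_le_add le_rfl ?_) hF
  have hT' : T = single b (T b) := by
    rw [Finsupp.eq_single_iff]
    exact ⟨hT, rfl⟩
  have hdeg : T.degree = T b := by
    rw [hT']; simp
  have hs : T.support.card ≤ 1 := by
    have := Finset.card_le_card hT
    simpa using this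
  rw [hT']
  rw [Finsupp.single_le_single]
  omega

theorem exists_le_degree (c : α →₀ ℕ) (m : ℕ) (hm : m ≤ c.degree) :
    ∃ c' : α →₀ ℕ, c' ≤ c ∧ c'.degree = m := by
  classical
  induction c using Finsupp.induction generalizing m with
  | zero =>
    refine ⟨0, le_rfl, ?_⟩
    simp at hm
    simp [hm]
  | single_add a n f ha hn ih =>
    by_cases h : m ≤ f.degree
    · obtain ⟨c', h1, h2⟩ := ih m h
      exact ⟨c', h1.trans (by simp), h2⟩
    · push Not at h
      refine ⟨single a (m - f.degree) + f, ?_, ?_⟩
      · refine add_le_add ?_ le_rfl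
        rw [Finsupp.single_le_single]
        have : (single a n + f).degree = n + f.degree := by simp
        omega
      · have : (single a (m - f.degree) + f).degree = (m - f.degree) + f.degree := by
          rw [map_add, Finsupp.degree_single]
        omega

/-- Simultaneous application of moves `a ↦ f a` of cost `q`. -/
theorem move_many (Av : (α →₀ ℕ) → Prop) (f : α → α) (q : ℕ) (c : α →₀ ℕ)
    (hmv : ∀ a ∈ c.support, ∀ F : α →₀ ℕ, Av (F + single a q) → Av (F + single (f a) 1)) :
    ∀ F : α →₀ ℕ, Av (F + q • c) → Av (F + mapDomain f c) := by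
  classical
  induction c using Finsupp.induction with
  | zero => intro F; simp
  | single_add a n g ha hn ih =>
    intro F hF
    have hsup : (single a n + g).support = insert a g.support := by
      rw [Finsupp.support_add_eq]
      · rw [Finsupp.support_single _ hn]; rfl
      · rw [Finsupp.support_single _ hn]
        simpa using ha
    have hmvg : ∀ x ∈ g.support, ∀ F : α →₀ ℕ, Av (F + single x q) → Av (F + single (f x) 1) := by
      intro x hx
      exact hmv x (by rw [hsup]; exact Finset.mem_insert_of_mem hx)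
    have hmva := hmv a (by rw [hsup]; exact Finset.mem_insert_self _ _)
    have step : ∀ m : ℕ, ∀ F : α →₀ ℕ, Av (F + single a (q * m)) → Av (F + single (f a) m) := by
      intro m
      induction m with
      | zero => intro F; simp
      | succ m ihm =>
        intro F hF
        have e1 : F + single a (q * (m + 1)) = (F + single a (q * m)) + single a q := by
          rw [Nat.mul_succ, Finsupp.single_add, add_assoc]
        rw [e1] at hF
        have h2 := hmva _ hF
        have e2 : F + single a (q * m) + single (f a) 1 = (F + single (f a) 1) + single a (q * m) := by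
          abel
        rw [e2] at h2
        have h3 := ihm _ h2
        have e3 : F + single (f a) 1 + single (f a) m = F + single (f a) (m + 1) := by
          rw [add_comm m 1, Finsupp.single_add, add_assoc]
        rw [← e3]; exact h3
    have e1 : F + q • (single a n + g) = (F + q • g) + single a (q * n) := by
      rw [smul_add, Finsupp.smul_single, smul_eq_mul]; abel
    rw [e1] at hF
    have h2 := step n _ hF
    have e2 : F + q • g + single (f a) n = (F + single (f a) n) + q • g := by abel
    rw [e2] at h2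
    have h3 := ih hmvg _ h2
    have e3 : F + single (f a) n + mapDomain f g = F + mapDomain f (single a n + g) := by
      rw [Finsupp.mapDomain_add, Finsupp.mapDomain_single, add_assoc]
    rw [← e3]; exact h3

/-- Arithmetic core of case (δ). -/
theorem arith_delta (k q n1 D d0 s0 z : ℕ) (hk : 2 ≤ k) (hq : 2 ≤ q)
    (hs : s0 ≤ d0) (hx : k * D < d0 + s0)
    (htot : k * q * n1 + k * D < d0 + s0 + z) :
    k * q * n1 + q * D < z + q * d0 := by
  have h1 : 2 * (q * D) ≤ 2 * (k * D) + (q - 2) * (d0 + s0) := by
    obtain ⟨r, rfl⟩ := Nat.exists_eq_add_of_le hq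
    have : 2 + r - 2 = r := by omega
    rw [this]
    have h2 : r * (k * D) ≤ r * (d0 + s0) := Nat.mul_le_mul le_rfl hx.le
    have h3 : 2 * ((2 + r) * D) ≤ k * ((2 + r) * D) := Nat.mul_le_mul hk le_rfl
    nlinarith
  have h4 : (q - 2) * (d0 + s0) + 2 * (d0 + s0) ≤ 2 * (q * d0) := by
    have : (q - 2) * (d0 + s0) + 2 * (d0 + s0) = q * (d0 + s0) := by
      rw [← add_mul]; congr 1; omega
    rw [this]
    nlinarith
  omega

/-- The elimination step for `PE`. -/
theorem stepE [DecidableEq α] (Av : (α →₀ ℕ) → Prop) (hd : Dn Av) (P0 P1 : Finset α) (b b' : α)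
    (N0 N1 q w' : ℕ) (f : α → α)
    (hf : ∀ a ∈ P1, f a ∈ P0)
    (hmv : ∀ a ∈ P1, ∀ F : α →₀ ℕ, Av (F + single a q) → Av (F + single (f a) 1))
    (hchain : ∀ k : ℕ, ∀ F : α →₀ ℕ, Av (F + single b' (k * (q * w'))) → Av (F + single b k))
    (hq : 2 ≤ q) (hw : 1 ≤ w') (hN0 : 1 ≤ N0) (hNN : w' * N1 ≤ N0)
    (hcard : 2 * P1.card ≤ N1 + 1)
    (hA0 : PA Av P0 b N0) (hE0 : PE Av P0 b N0) (hE1 : PE Av P1 b' N1) :
    PE Av (P0 ∪ P1) b (N0 + (q - 1) * w' * N1) := by
  classical
  intro k hk T hT hN
  set T0 := T.filter (· ∈ P0) with hT0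
  set T1 := T.filter (fun a => ¬ (a ∈ P0)) with hT1
  have hTsum : T0 + T1 = T := by
    rw [hT0, hT1]; exact Finsupp.filter_add_filter_not _ _
  have hsup0 : T0.support ⊆ P0 := by
    intro a ha
    rw [hT0, Finsupp.support_filter] at ha
    exact (Finset.mem_filter.mp ha).2
  have hsup1 : T1.support ⊆ P1 := by
    intro a ha
    rw [hT1, Finsupp.support_filter] at ha
    obtain ⟨h1, h2⟩ := Finset.mem_filter.mp ha
    rcases Finset.mem_union.mp (hT h1) with h | h
    · exact absurd h h2
    · exact h
  have hdisj : Disjoint T0.support T1.support := by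
    rw [Finset.disjoint_left]
    intro a ha0 ha1
    rw [hT1, Finsupp.support_filter] at ha1
    exact (Finset.mem_filter.mp ha1).2 (hsup0 ha0)
  have hdeg : T.degree = T0.degree + T1.degree := by rw [← hTsum]; simp
  have hsupp : T.support.card = T0.support.card + T1.support.card := by
    rw [← hTsum, Finsupp.support_add_eq hdisj, Finset.card_union_of_disjoint hdisj]
  have hs0 : T0.support.card ≤ T0.degree := by
    rw [Finsupp.degree_apply, Finset.card_eq_sum_ones]
    apply Finset.sum_le_sum
    intro i hi
    have := Finsupp.mem_support_iff.mp hi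
    omega
  have hs1 : T1.support.card ≤ P1.card := Finset.card_le_card hsup1
  set d0 := T0.degree with hd0
  set d1 := T1.degree with hd1
  set s0 := T0.support.card with hs0def
  set s1 := T1.support.card with hs1def
  rw [hdeg, hsupp] at hN
  obtain ⟨D, hD⟩ := Nat.exists_eq_add_of_le hNN
  set n1 := w' * N1 with hn1
  have hq1 : (q - 1) + 1 = q := by omega
  have hexp : k * (N0 + (q - 1) * w' * N1) = k * q * n1 + k * D := by
    have : (q - 1) * w' * N1 = (q - 1) * n1 := by rw [hn1, mul_assoc]
    rw [this, hD]
    have h2 : n1 + D + (q - 1) * n1 = q * n1 + D := by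
      calc n1 + D + (q - 1) * n1 = ((q - 1) + 1) * n1 + D := by ring
        _ = q * n1 + D := by rw [hq1]
    rw [h2]; ring
  rw [hexp] at hN
  have hchainR : ∀ (S : α →₀ ℕ) (m : ℕ), Rch Av S b' (m * (q * w')) → Rch Av S b m := by
    intro S m h F hF
    exact hchain m F (h F hF)
  have hw2 : 2 ≤ q * w' := by nlinarith
  -- helper: from T1-type configuration
  have useE1 : ∀ (m : ℕ), 1 ≤ m → ∀ S : α →₀ ℕ, S.support ⊆ P1 →
      m * q * n1 < S.degree + S.support.card → Rch Av S b m := by
    intro m hm S hS h
    apply hchainR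
    apply hE1 (m * (q * w')) (by nlinarith) S hS
    have : m * (q * w') * N1 = m * q * n1 := by rw [hn1]; ring
    rw [this]; exact h
  by_cases hal : k * q * n1 < d1 + s1
  · have := useE1 k (by omega) T1 hsup1 hal
    exact this.mono hd (by rw [← hTsum]; simp)
  push Not at hal
  have hx : k * D < d0 + s0 := by omega
  by_cases hbig : k * N0 < d0 + s0
  · have := hE0 k hk T0 hsup0 hbig
    exact this.mono hd (by rw [← hTsum]; simp)
  push Not at hbig
  by_cases h2N : 2 * N0 < d0 + s0
  · -- case β
    set i := (d0 + s0 - 1) / N0 with hi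
    have hi1 : i * N0 ≤ d0 + s0 - 1 := Nat.div_mul_le_self _ _
    have hi2 : d0 + s0 - 1 < (i + 1) * N0 := by
      have h1 := Nat.div_add_mod (d0 + s0 - 1) N0
      have h2 := Nat.mod_lt (d0 + s0 - 1) (show 0 < N0 by omega)
      rw [← hi] at h1
      have h3 : (i + 1) * N0 = N0 * i + N0 := by ring
      omega
    have hi3 : 2 ≤ i := by
      rw [hi, Nat.le_div_iff_mul_le (by omega)]; omega
    have hik : i < k := by
      by_contra hcon
      push Not at hcon
      have : k * N0 ≤ i * N0 := Nat.mul_le_mul hcon le_rfl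
      omega
    have hR0 := hE0 i hi3 T0 hsup0 (by omega)
    have hR1 : Rch Av T1 b (k - i) := by
      apply useE1 (k - i) (by omega) T1 hsup1
      obtain ⟨j, hj⟩ := Nat.exists_eq_add_of_lt hik
      have hkj : k - i = j + 1 := by omega
      rw [hkj]
      have h5 : d0 + s0 ≤ (i + 1) * N0 := by omega
      rw [hD] at h5
      -- k*q*n1 + k*D < d0+s0+d1+s1 ≤ (i+1)*(n1+D) + (d1+s1)
      have hk' : k = i + j + 1 := by omega
      have h6 : (i + 1) * n1 ≤ i * q * n1 := by
        apply Nat.mul_le_mul _ le_rfl
        calc i + 1 ≤ i * 2 := by omega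
          _ ≤ i * q := Nat.mul_le_mul le_rfl hq
      have h7 : k * q * n1 + k * D < (i + 1) * (n1 + D) + (d1 + s1) := by omega
      rw [hk'] at h7
      have h8 : (i + j + 1) * q * n1 = i * q * n1 + (j + 1) * q * n1 := by ring
      have h9 : (i + j + 1) * D = (i + 1) * D + j * D := by ring
      have h10 : (i + 1) * (n1 + D) = (i + 1) * n1 + (i + 1) * D := by ring
      rw [h8, h9, h10] at h7
      omega
    have := hR0.add hR1
    rw [hTsum] at this
    have hki : i + (k - i) = k := by omega
    rwa [hki] at this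
  push Not at h2N
  by_cases hge : N0 ≤ d0
  · -- case γ
    have hR0 := hA0 T0 hsup0 hge
    have hR1 : Rch Av T1 b (k - 1) := by
      apply useE1 (k - 1) (by omega) T1 hsup1
      obtain ⟨j, hj⟩ := Nat.exists_eq_add_of_le hk
      have hkj : k - 1 = j + 1 := by omega
      rw [hkj]
      rw [hD] at h2N
      rw [hj] at hN
      have h8 : (2 + j) * q * n1 = q * n1 + (j + 1) * q * n1 := by ring
      have h9 : (2 + j) * D = 2 * D + j * D := by ring
      have h6 : 2 * n1 ≤ q * n1 := Nat.mul_le_mul hq le_rfl
      rw [h8, h9] at hN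
      omega
    have := hR0.add hR1
    rw [hTsum] at this
    have hki : 1 + (k - 1) = k := by omega
    rwa [hki] at this
  push Not at hge
  -- case δ
  set c0 := N0 - d0 with hc0
  have hstar : k * q * n1 + q * D < (d1 + s1) + q * d0 := by
    apply arith_delta k q n1 D d0 s0 (d1 + s1) hk hq hs0 hx
    omega
  -- rewrite as (k-1)*q*n1 + q*c0 < d1 + s1
  have hstar2 : (k - 1) * q * n1 + q * c0 < d1 + s1 := by
    have h1 : q * c0 + q * d0 = q * N0 := by
      rw [← Nat.mul_add]; congr 1; omega
    have h2 : (k - 1) * q * n1 + q * n1 = k * q * n1 := by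
      obtain ⟨j, hj⟩ := Nat.exists_eq_add_of_le (show 1 ≤ k by omega)
      rw [hj]
      have : 1 + j - 1 = j := by omega
      rw [this]; ring
    have h3 : q * N0 = q * n1 + q * D := by rw [hD]; ring
    omega
  set cm : α →₀ ℕ := T1.mapRange (fun x => (x - 1) / q) (by simp) with hcm
  have hR : d1 ≤ q * cm.degree + q * s1 := by
    have hcmdeg : cm.degree = ∑ a ∈ T1.support, (T1 a - 1) / q := by
      rw [Finsupp.degree_apply]
      apply Finset.sum_subset_zero_on_sdiff
      · exact Finsupp.support_mapRange
      · intro x hx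
        have := (Finset.mem_sdiff.mp hx).2
        rw [Finsupp.mem_support_iff, not_not] at this
        simpa [hcm] using this
      · intro x _
        simp [hcm]
    rw [hd1, hcmdeg, hs1def, Finsupp.degree_apply, Finset.mul_sum,
      Finset.card_eq_sum_ones, Finset.mul_sum, ← Finset.sum_add_distrib]
    apply Finset.sum_le_sum
    intro a ha
    have h0 : T1 a ≠ 0 := Finsupp.mem_support_iff.mp ha
    have h1 := Nat.div_add_mod (T1 a - 1) q
    have h2 := Nat.mod_lt (T1 a - 1) (show 0 < q by omega)
    omega
  have hRc : c0 ≤ cm.degree := by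
    by_contra hcon
    push Not at hcon
    have h1 : q * cm.degree + q ≤ q * c0 := by
      calc q * cm.degree + q = q * (cm.degree + 1) := by ring
        _ ≤ q * c0 := Nat.mul_le_mul le_rfl hcon
    have h2 : (k - 1) * q * n1 + q < (q + 1) * s1 := by
      have : (q + 1) * s1 = q * s1 + s1 := by ring
      omega
    have h3 : q * n1 ≤ (k - 1) * q * n1 := by
      have : 1 * (q * n1) ≤ (k - 1) * (q * n1) := Nat.mul_le_mul (by omega) le_rfl
      calc q * n1 = 1 * (q * n1) := by ring
        _ ≤ (k - 1) * (q * n1) := this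
        _ = (k - 1) * q * n1 := by ring
    have h4 : N1 ≤ n1 := by
      rw [hn1]; nlinarith
    have h5 : 2 * s1 ≤ n1 + 1 := by omega
    have h6 : (q + 1) * (2 * s1) ≤ (q + 1) * (n1 + 1) := Nat.mul_le_mul le_rfl h5
    nlinarith
  obtain ⟨c, hcle, hcdeg⟩ := exists_le_degree cm c0 hRc
  have hcT : ∀ a, q * c a ≤ T1 a - 1 := by
    intro a
    have h1 : c a ≤ (T1 a - 1) / q := by
      have := hcle a
      simpa [hcm] using this
    calc q * c a ≤ q * ((T1 a - 1) / q) := Nat.mul_le_mul le_rfl h1
      _ ≤ T1 a - 1 := Nat.mul_div_le _ _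
  have hcle1 : q • c ≤ T1 := by
    intro a
    have := hcT a
    simp only [Finsupp.smul_apply, smul_eq_mul]
    omega
  set T1' := T1 - q • c with hT1'
  have hT1sum : q • c + T1' = T1 := by
    rw [hT1']; exact add_tsub_cancel_of_le hcle1
  have hsupT1' : T1'.support = T1.support := by
    ext a
    rw [Finsupp.mem_support_iff, Finsupp.mem_support_iff, hT1', Finsupp.tsub_apply,
      Finsupp.smul_apply, smul_eq_mul]
    have := hcT a
    omega
  have hdegT1' : T1'.degree + q * c0 = d1 := by
    rw [hd1, ← hT1sum, map_add, ← hcdeg]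
    have : (q • c).degree = q * c.degree := by
      rw [map_nsmul, smul_eq_mul]
    rw [this]; ring
  have hcsup : c.support ⊆ P1 := by
    intro a ha
    apply hsup1
    have h0 : c a ≠ 0 := Finsupp.mem_support_iff.mp ha
    rw [Finsupp.mem_support_iff]
    have := hcT a
    intro h
    rw [h] at this
    have h1 : q * c a = 0 := by omega
    rcases Nat.mul_eq_zero.mp h1 with h2 | h2
    · omega
    · exact h0 h2
  have hR1 : Rch Av T1' b (k - 1) := by
    apply useE1 (k - 1) (by omega) T1'
    · rw [hsupT1']; exact hsup1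
    · rw [hsupT1']; omega
  have hR0 : Rch Av (T0 + mapDomain f c) b 1 := by
    apply hA0
    · intro a ha
      have := Finsupp.support_add ha
      rcases Finset.mem_union.mp this with h | h
      · exact hsup0 h
      · have h2 := Finsupp.mapDomain_support h
        obtain ⟨x, hx, rfl⟩ := Finset.mem_image.mp h2
        exact hf x (hcsup hx)
    · rw [map_add, Finsupp.degree_mapDomain, hcdeg]
      omega
  have hR := hR0.add hR1
  have hk1 : 1 + (k - 1) = k := by omega
  rw [hk1] at hR
  intro F hF
  apply hR
  have e1 : F + T = (F + T0 + T1') + q • c := by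
    rw [← hTsum, ← hT1sum]; abel
  rw [e1] at hF
  have h2 := move_many Av f q c (fun a ha => hmv a (hcsup ha)) _ hF
  have e2 : F + (T0 + mapDomain f c + T1') = F + T0 + T1' + mapDomain f c := by abel
  rw [e2]; exact h2

/-- The elimination step for `PA`. -/
theorem stepA [DecidableEq α] (Av : (α →₀ ℕ) → Prop) (hd : Dn Av) (P0 P1 : Finset α) (b b' : α)
    (N0 N1 q w' : ℕ) (f : α → α)
    (hf : ∀ a ∈ P1, f a ∈ P0)
    (hmv : ∀ a ∈ P1, ∀ F : α →₀ ℕ, Av (F + single a q) → Av (F + single (f a) 1))
    (hchain : ∀ k : ℕ, ∀ F : α →₀ ℕ, Av (F + single b' (k * (q * w'))) → Av (F + single b k))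
    (hq : 2 ≤ q) (hw : 1 ≤ w')
    (hA0 : PA Av P0 b N0) (hE1 : PE Av P1 b' N1) :
    PA Av (P0 ∪ P1) b (N0 + (q - 1) * w' * N1) := by
  classical
  intro T hT hN
  set T0 := T.filter (· ∈ P0) with hT0
  set T1 := T.filter (fun a => ¬ (a ∈ P0)) with hT1
  have hTsum : T0 + T1 = T := by
    rw [hT0, hT1]; exact Finsupp.filter_add_filter_not _ _
  have hsup0 : T0.support ⊆ P0 := by
    intro a ha
    rw [hT0, Finsupp.support_filter] at ha
    exact (Finset.mem_filter.mp ha).2
  have hsup1 : T1.support ⊆ P1 := by
    intro a ha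
    rw [hT1, Finsupp.support_filter] at ha
    obtain ⟨h1, h2⟩ := Finset.mem_filter.mp ha
    rcases Finset.mem_union.mp (hT h1) with h | h
    · exact absurd h h2
    · exact h
  have hdeg : T.degree = T0.degree + T1.degree := by rw [← hTsum]; simp
  have hw2 : 2 ≤ q * w' := by nlinarith
  by_cases hal : q * w' * N1 < T1.degree + T1.support.card
  · have h1 := hE1 (q * w') hw2 T1 hsup1 hal
    have h2 : Rch Av T1 b 1 := by
      intro F hF
      apply hchain 1 F
      rw [one_mul]
      exact h1 F hF
    exact h2.mono hd (by rw [← hTsum]; simp)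
  push Not at hal
  set c : α →₀ ℕ := T1.mapRange (fun x => x / q) (by simp) with hc
  have hcle1 : q • c ≤ T1 := by
    intro a
    simp only [hc, Finsupp.smul_apply, smul_eq_mul, Finsupp.mapRange_apply]
    exact Nat.mul_div_le _ _
  have hcsup : c.support ⊆ P1 := by
    intro a ha
    exact hsup1 (Finsupp.support_mapRange ha)
  have hcdeg : T1.degree ≤ q * c.degree + (q - 1) * T1.support.card := by
    have hcmdeg : c.degree = ∑ a ∈ T1.support, (T1 a) / q := by
      rw [Finsupp.degree_apply]
      apply Finset.sum_subset_zero_on_sdiff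
      · exact Finsupp.support_mapRange
      · intro x hx
        have := (Finset.mem_sdiff.mp hx).2
        rw [Finsupp.mem_support_iff, not_not] at this
        simpa [hc] using this
      · intro x _
        simp [hc]
    rw [hcmdeg, Finsupp.degree_apply, Finset.mul_sum,
      Finset.card_eq_sum_ones, Finset.mul_sum, ← Finset.sum_add_distrib]
    apply Finset.sum_le_sum
    intro a ha
    have h1 := Nat.div_add_mod (T1 a) q
    have h2 := Nat.mod_lt (T1 a) (show 0 < q by omega)
    omega
  have hkey : N0 ≤ (T0 + mapDomain f c).degree := by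
    rw [map_add, Finsupp.degree_mapDomain]
    -- q * (T1.degree - c.degree) ≤ (q-1)*(T1.degree + supp) ≤ (q-1)*q*w'*N1
    have h1 : (q - 1) * (T1.degree + T1.support.card) ≤ (q - 1) * (q * w' * N1) :=
      Nat.mul_le_mul le_rfl hal
    obtain ⟨r, hr⟩ := Nat.exists_eq_add_of_le (show 1 ≤ q by omega)
    have hq1 : q - 1 = r := by omega
    rw [hq1] at h1 hcdeg hN
    have h2 : q * T1.degree ≤ q * (r * w' * N1 + c.degree) := by
      have e1 : q * T1.degree = r * T1.degree + T1.degree := by rw [hr]; ring
      have e2 : q * (r * w' * N1 + c.degree) = r * (q * w' * N1) + q * c.degree := by ring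
      have e3 : r * (T1.degree + T1.support.card) = r * T1.degree + r * T1.support.card := by ring
      omega
    have h3 : T1.degree ≤ r * w' * N1 + c.degree := Nat.le_of_mul_le_mul_left h2 (by omega)
    omega
  have hR0 : Rch Av (T0 + mapDomain f c) b 1 := by
    apply hA0 _ _ hkey
    intro a ha
    have := Finsupp.support_add ha
    rcases Finset.mem_union.mp this with h | h
    · exact hsup0 h
    · have h2 := Finsupp.mapDomain_support h
      obtain ⟨x, hx, rfl⟩ := Finset.mem_image.mp h2
      exact hf x (hcsup hx)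
  intro F hF
  apply hR0
  have h1 : Av (F + T0 + q • c) := by
    refine hd _ _ ?_ hF
    rw [← hTsum, ← add_assoc]
    exact add_le_add le_rfl hcle1
  have h2 := move_many Av f q c (fun a ha => hmv a (hcsup ha)) _ h1
  rw [← add_assoc]; exact h2

end Pool.Agent.Lib_helper15.KL
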