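import Mathlib
import Pool.Agent.Lib_helper15.KLPebble

set_option autoImplicit false

/-!
Decomposition of down-closed families of cyclic subgroups of a finite group.
-/

namespace Pool.Agent.Lib_helper15.KL

open Finsupp

set_option linter.unusedSectionVars false

variable {G : Type*} [Group G] [Finite G]

theorem card_dvd {D C : Subgroup G} (h : D ≤ C) : Nat.card D ∣ Nat.card C :=
  Subgroup.card_dvd_of_le h

theorem card_pos' (C : Subgroup G) : 0 < Nat.card C := Nat.card_pos

theorem eq_of_card {D C : Subgroup G} (h : D ≤ C) (hc : Nat.card D = Nat.card C) : D = C :=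
  Subgroup.eq_of_le_of_card_ge h hc.ge

theorem isCyclic_of_le {D C : Subgroup G} (hC : IsCyclic C) (h : D ≤ C) : IsCyclic D := by
  have := Subgroup.isCyclic (D.subgroupOf C)
  exact isCyclic_of_surjective (Subgroup.subgroupOfEquivOfLe h)
    (Subgroup.subgroupOfEquivOfLe h).surjective

theorem cyc_exists (C : Subgroup G) (hC : IsCyclic C) (m : ℕ) (hm : m ∣ Nat.card C) :
    ∃ D : Subgroup G, D ≤ C ∧ Nat.card D = m := by
  obtain ⟨g, hg⟩ := (Subgroup.isCyclic_iff_exists_zpowers_eq_top C).mp hC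
  obtain ⟨t, ht⟩ := hm
  have ho : orderOf g = m * t := by
    rw [← ht, ← hg, Nat.card_zpowers]
  have hpos : 0 < m * t := by rw [← ho]; exact orderOf_pos g
  have htpos : t ≠ 0 := by rintro rfl; simp at hpos
  refine ⟨Subgroup.zpowers (g ^ t), ?_, ?_⟩
  · rw [← hg, Subgroup.zpowers_le]
    exact Subgroup.pow_mem _ (Subgroup.mem_zpowers g) t
  · rw [Nat.card_zpowers, orderOf_pow_of_dvd htpos (by rw [ho]; exact Dvd.intro_left m rfl), ho]
    exact Nat.mul_div_cancel _ (Nat.pos_of_ne_zero htpos)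

theorem cyc_le {C D D' : Subgroup G} (hC : IsCyclic C) (hD : D ≤ C) (hD' : D' ≤ C)
    (h : Nat.card D ∣ Nat.card D') : D ≤ D' := by
  classical
  have := Fintype.ofFinite C
  set n := Nat.card D' with hn
  have hn0 : 0 < n := card_pos' D'
  have h1 := IsCyclic.card_pow_eq_one_le (α := C) hn0
  -- the set of elements of D' inside C
  set S : Finset C := Finset.univ.filter (fun a : C => a ^ n = 1) with hS
  set S' : Finset C := Finset.univ.filter (fun a : C => (a : G) ∈ D') with hS'
  have hS'card : S'.card = n := by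
    have e : Nat.card (D'.subgroupOf C) = n := by
      rw [hn]
      exact Nat.card_congr (Subgroup.subgroupOfEquivOfLe hD').toEquiv
    rw [← e, Nat.card_eq_fintype_card, Fintype.card_subtype]
    rfl
  have hsub : S' ⊆ S := by
    intro a ha
    have ha' : (a : G) ∈ D' := (Finset.mem_filter.mp ha).2
    refine Finset.mem_filter.mpr ⟨Finset.mem_univ _, ?_⟩
    have h2 : (⟨(a : G), ha'⟩ : D') ^ n = 1 := by
      rw [hn]; exact pow_card_eq_one'
    have h3 := congrArg (fun x : D' => (x : G)) h2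
    apply Subtype.ext
    simpa using h3
  have heq : S' = S := Finset.eq_of_subset_of_card_le hsub (by rw [hS'card]; exact h1)
  intro x hx
  have hxC : x ∈ C := hD hx
  have hxn : x ^ n = 1 := by
    have h2 : (⟨x, hx⟩ : D) ^ Nat.card D = 1 := pow_card_eq_one'
    have h3 : x ^ Nat.card D = 1 := congrArg (fun x : D => (x : G)) h2
    obtain ⟨t, ht⟩ := h
    rw [ht, pow_mul, h3, one_pow]
  have : (⟨x, hxC⟩ : C) ∈ S := by
    refine Finset.mem_filter.mpr ⟨Finset.mem_univ _, ?_⟩
    apply Subtype.ext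
    simpa using hxn
  rw [← heq] at this
  exact (Finset.mem_filter.mp this).2

theorem cyc_le_iff {C D D' : Subgroup G} (hC : IsCyclic C) (hD : D ≤ C) (hD' : D' ≤ C) :
    D ≤ D' ↔ Nat.card D ∣ Nat.card D' :=
  ⟨card_dvd, cyc_le hC hD hD'⟩

/-- A down-closed (above `B`) family of cyclic subgroups whose index over `B` is coprime to `|B|`. -/
structure Closed (B : Subgroup G) (P : Finset (Subgroup G)) : Prop where
  base : B ∈ P
  cyc : ∀ C ∈ P, IsCyclic C
  le : ∀ C ∈ P, B ≤ C
  cop : ∀ C ∈ P, Nat.Coprime (Nat.card C / Nat.card B) (Nat.card B)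
  down : ∀ C ∈ P, ∀ D : Subgroup G, B ≤ D → D ≤ C → D ∈ P

/-- The weight `∑_{C ∈ P} φ(|C|/|B|)` of a family. -/
noncomputable def NN (B : Subgroup G) (P : Finset (Subgroup G)) : ℕ :=
  ∑ C ∈ P, Nat.totient (Nat.card C / Nat.card B)

theorem Closed.card_eq {B : Subgroup G} {P : Finset (Subgroup G)} (h : Closed B P)
    {C : Subgroup G} (hC : C ∈ P) : Nat.card C = Nat.card B * (Nat.card C / Nat.card B) :=
  (Nat.mul_div_cancel' (card_dvd (h.le C hC))).symm

/-- chosen subgroup of given order -/
noncomputable def sb (C : Subgroup G) (m : ℕ) : Subgroup G := by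
  classical
  exact if h : ∃ D : Subgroup G, D ≤ C ∧ Nat.card D = m then h.choose else ⊥

theorem sb_spec {C : Subgroup G} (hC : IsCyclic C) {m : ℕ} (hm : m ∣ Nat.card C) :
    sb C m ≤ C ∧ Nat.card (sb C m) = m := by
  have h := cyc_exists C hC m hm
  unfold sb
  rw [dif_pos h]
  exact h.choose_spec

theorem NN_pos {B : Subgroup G} {P : Finset (Subgroup G)} (h : Closed B P) : 1 ≤ NN B P := by
  unfold NN
  have : Nat.totient (Nat.card B / Nat.card B) ≤ ∑ C ∈ P, Nat.totient (Nat.card C / Nat.card B) :=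
    Finset.single_le_sum (f := fun C : Subgroup G => Nat.totient (Nat.card C / Nat.card B))
      (fun _ _ => Nat.zero_le _) h.base
  rw [Nat.div_self (card_pos' B)] at this
  simpa using this

theorem count_odd {B : Subgroup G} {P : Finset (Subgroup G)} (h : Closed B P)
    (hodd : ∀ C ∈ P, Odd (Nat.card C / Nat.card B)) : 2 * P.card ≤ NN B P + 1 := by
  classical
  unfold NN
  rw [← Finset.add_sum_erase P _ h.base, Nat.div_self (card_pos' B), Nat.totient_one]
  have h1 : (P.erase B).card * 2 ≤ ∑ C ∈ P.erase B, Nat.totient (Nat.card C / Nat.card B) := by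
    rw [← smul_eq_mul]
    apply Finset.card_nsmul_le_sum
    intro C hC
    obtain ⟨hne, hCP⟩ := Finset.mem_erase.mp hC
    set m := Nat.card C / Nat.card B with hm
    have hCm := h.card_eq hCP
    have hm1 : m ≠ 1 := by
      intro hm1
      rw [← hm, hm1, mul_one] at hCm
      exact hne (eq_of_card (h.le C hCP) hCm.symm).symm
    have hmodd := hodd C hCP
    rw [← hm] at hmodd
    have hm0 : 0 < m := hmodd.pos
    have hm3 : 2 < m := by
      rcases hmodd with ⟨r, hr⟩
      omega
    have heven := Nat.totient_even hm3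
    have hpos := Nat.totient_pos.mpr hm0
    rcases heven with ⟨r, hr⟩
    omega
  have h2 : (P.erase B).card = P.card - 1 := Finset.card_erase_of_mem h.base
  have h3 : 0 < P.card := Finset.card_pos.mpr ⟨B, h.base⟩
  omega

theorem sum_totient_pow (q : ℕ) (hq : q.Prime) (d : ℕ) :
    ∑ j ∈ Finset.range (d + 1), Nat.totient (q ^ j) = q ^ d := by
  have h1 := Nat.sum_totient (q ^ d)
  rw [Nat.sum_divisors_prime_pow hq] at h1
  exact h1

/-- The elimination data at a prime `q`. -/
theorem decomp {B : Subgroup G} {P : Finset (Subgroup G)} (h : Closed B P) (q : ℕ) (hq : q.Prime)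
    (hex : ∃ C ∈ P, q ∣ Nat.card C / Nat.card B) :
    ∃ (B' : Subgroup G) (P0 P1 : Finset (Subgroup G)) (f : Subgroup G → Subgroup G) (w' : ℕ),
      (∀ C, C ∈ P ↔ C ∈ P0 ∨ C ∈ P1) ∧ P0.card < P.card ∧ P1.card < P.card ∧
      Closed B P0 ∧ Closed B' P1 ∧
      (∀ C ∈ P1, f C ∈ P0 ∧ f C ≤ C ∧ Nat.card C = q * Nat.card (f C)) ∧
      B ≤ B' ∧ Nat.card B' = (q * w') * Nat.card B ∧ 1 ≤ w' ∧
      NN B P = NN B P0 + (q - 1) * w' * NN B' P1 ∧
      w' * NN B' P1 ≤ NN B P0 ∧
      (∀ C ∈ P1, Nat.card C / Nat.card B' ∣ Nat.card C / Nat.card B ∧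
        ¬ q ∣ Nat.card C / Nat.card B') := by
  classical
  set β := Nat.card B with hβ
  have hβ0 : 0 < β := card_pos' B
  -- q does not divide β
  have hqβ : ¬ q ∣ β := by
    obtain ⟨C, hC, hqC⟩ := hex
    intro hqb
    have := h.cop C hC
    have h2 := Nat.dvd_gcd hqC hqb
    rw [this] at h2
    exact hq.one_lt.ne' (Nat.dvd_one.mp h2)
  -- maximal valuation
  obtain ⟨C₀, hC₀, hmax⟩ := Finset.exists_max_image P
    (fun C : Subgroup G => (Nat.card C / β).factorization q) ⟨B, h.base⟩
  set d := (Nat.card C₀ / β).factorization q with hd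
  have hd1 : 1 ≤ d := by
    obtain ⟨C, hC, hqC⟩ := hex
    have h1 := hmax C hC
    have hne : Nat.card C / β ≠ 0 := by
      have := h.card_eq hC
      have h2 := card_pos' C
      intro h0
      rw [← hβ] at this
      rw [h0, mul_zero] at this
      omega
    have h2 := (hq.dvd_iff_one_le_factorization hne).mp hqC
    omega
  have hne0 : ∀ C ∈ P, Nat.card C / β ≠ 0 := by
    intro C hC h0
    have := h.card_eq hC
    have h2 := card_pos' C
    rw [← hβ] at this
    rw [h0, mul_zero] at this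
    omega
  obtain ⟨w', hw'⟩ : ∃ w', w' = q ^ (d - 1) := ⟨_, rfl⟩
  have hqd : q ^ d = q * w' := by
    rw [hw', ← pow_succ']; congr 1; omega
  have hw1 : 1 ≤ w' := by rw [hw']; exact Nat.one_le_pow _ _ hq.pos
  have hdvd0 : q ^ d ∣ Nat.card C₀ / β := Nat.ordProj_dvd _ _
  have hdvd1 : q ^ d * β ∣ Nat.card C₀ := by
    have := h.card_eq hC₀
    rw [← hβ] at this
    rw [this, mul_comm (q ^ d) β]
    exact Nat.mul_dvd_mul (dvd_refl _) hdvd0
  obtain ⟨B', hB'C, hB'card⟩ := cyc_exists C₀ (h.cyc C₀ hC₀) (q ^ d * β) hdvd1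
  have hBB' : B ≤ B' := by
    apply cyc_le (h.cyc C₀ hC₀) (h.le C₀ hC₀) hB'C
    rw [hB'card]; exact Dvd.intro_left _ rfl
  set P1 := P.filter (fun C => B' ≤ C) with hP1
  set P0 := P.filter (fun C => ¬ B' ≤ C) with hP0
  have hB'P : B' ∈ P := h.down C₀ hC₀ B' hBB' hB'C
  have hB'P1 : B' ∈ P1 := Finset.mem_filter.mpr ⟨hB'P, le_rfl⟩
  have hB'ne : ¬ B' ≤ B := by
    intro hle
    have h1 := Nat.le_of_dvd hβ0 (card_dvd hle)
    rw [hB'card] at h1
    have h2 : 1 < q ^ d := Nat.one_lt_pow (by omega) hq.one_lt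
    nlinarith
  have hBP0 : B ∈ P0 := Finset.mem_filter.mpr ⟨h.base, hB'ne⟩
  -- structure of orders in P1
  have hstr : ∀ C ∈ P1, ∃ m, Nat.card C = q ^ d * β * m ∧ ¬ q ∣ m ∧ Nat.Coprime m β ∧
      Nat.card C / β = q ^ d * m ∧ Nat.card C / (q ^ d * β) = m := by
    intro C hC
    obtain ⟨hCP, hB'C'⟩ := Finset.mem_filter.mp hC
    have h1 := card_dvd hB'C'
    rw [hB'card] at h1
    obtain ⟨m, hm⟩ := h1
    have hq0 : 0 < q ^ d := Nat.pow_pos hq.pos
    have e1 : Nat.card C / β = q ^ d * m := by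
      rw [hm, show q ^ d * β * m = β * (q ^ d * m) by ring]
      exact Nat.mul_div_cancel_left _ hβ0
    have e2 : Nat.card C / (q ^ d * β) = m := by
      rw [hm]; exact Nat.mul_div_cancel_left _ (Nat.mul_pos hq0 hβ0)
    refine ⟨m, hm, ?_, ?_, e1, e2⟩
    · intro hqm
      have h2 := hmax C hCP
      have h3 : q ^ (d + 1) ∣ Nat.card C / β := by
        rw [e1, pow_succ]
        exact Nat.mul_dvd_mul (dvd_refl _) hqm
      have h4 := (hq.pow_dvd_iff_le_factorization (hne0 C hCP)).mp h3
      omega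
    · have h2 := h.cop C hCP
      rw [← hβ, e1] at h2
      exact Nat.Coprime.coprime_mul_left h2
  -- the map f
  refine ⟨B', P0, P1, fun C => sb C (Nat.card C / q), w', ?_, ?_, ?_, ?_, ?_, ?_, hBB', ?_, hw1,
    ?_, ?_, ?_⟩
  · intro C
    rw [hP0, hP1, Finset.mem_filter, Finset.mem_filter]
    tauto
  · apply Finset.card_lt_card
    rw [Finset.ssubset_iff_of_subset (Finset.filter_subset _ _)]
    exact ⟨B', hB'P, fun hmem => (Finset.mem_filter.mp hmem).2 le_rfl⟩
  · apply Finset.card_lt_card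
    rw [Finset.ssubset_iff_of_subset (Finset.filter_subset _ _)]
    exact ⟨B, h.base, fun hmem => hB'ne (Finset.mem_filter.mp hmem).2⟩
  · refine ⟨hBP0, ?_, ?_, ?_, ?_⟩
    · intro C hC; exact h.cyc C (Finset.mem_filter.mp hC).1
    · intro C hC; exact h.le C (Finset.mem_filter.mp hC).1
    · intro C hC; exact h.cop C (Finset.mem_filter.mp hC).1
    · intro C hC D hBD hDC
      obtain ⟨h1, h2⟩ := Finset.mem_filter.mp hC
      exact Finset.mem_filter.mpr ⟨h.down C h1 D hBD hDC, fun h3 => h2 (h3.trans hDC)⟩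
  · refine ⟨hB'P1, ?_, ?_, ?_, ?_⟩
    · intro C hC; exact h.cyc C (Finset.mem_filter.mp hC).1
    · intro C hC; exact (Finset.mem_filter.mp hC).2
    · intro C hC
      obtain ⟨m, h1, h2, h3, h4, h5⟩ := hstr C hC
      rw [hB'card, h5]
      apply Nat.Coprime.mul_right _ h3
      apply Nat.Coprime.pow_right
      exact ((Nat.Prime.coprime_iff_not_dvd hq).mpr h2).symm
    · intro C hC D hBD hDC
      obtain ⟨h1, h2⟩ := Finset.mem_filter.mp hC
      exact Finset.mem_filter.mpr ⟨h.down C h1 D (hBB'.trans hBD) hDC, hBD⟩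
  · intro C hC
    obtain ⟨m, h1, h2, h3, h4, h5⟩ := hstr C hC
    have hCP := (Finset.mem_filter.mp hC).1
    have hdiv : Nat.card C = q * (w' * β * m) := by rw [h1, hqd]; ring
    have e1 : Nat.card C / q = w' * β * m := by
      rw [hdiv]; exact Nat.mul_div_cancel_left _ hq.pos
    have hdv : Nat.card C / q ∣ Nat.card C := by
      rw [e1, hdiv]; exact Dvd.intro_left _ rfl
    obtain ⟨hs1, hs2⟩ := sb_spec (h.cyc C hCP) hdv
    refine ⟨?_, hs1, ?_⟩
    · refine Finset.mem_filter.mpr ⟨h.down C hCP _ ?_ hs1, ?_⟩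
      · apply cyc_le (h.cyc C hCP) (h.le C hCP) hs1
        rw [hs2, e1, ← hβ]
        exact ⟨w' * m, by ring⟩
      · intro hle
        have h6 := card_dvd hle
        rw [hs2, e1, hB'card, hqd] at h6
        obtain ⟨t, ht⟩ := h6
        apply h2
        refine ⟨t, ?_⟩
        have h7 : (w' * β) * m = (w' * β) * (q * t) := by rw [ht]; ring
        exact Nat.eq_of_mul_eq_mul_left (Nat.mul_pos hw1 hβ0) h7
    · rw [hs2, e1, hdiv]
  · rw [hB'card, hqd]
  · -- NN identity
    unfold NN
    have hsplit : ∑ C ∈ P, Nat.totient (Nat.card C / β) =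
        ∑ C ∈ P1, Nat.totient (Nat.card C / β) + ∑ C ∈ P0, Nat.totient (Nat.card C / β) := by
      rw [hP1, hP0, Finset.sum_filter_add_sum_filter_not]
    rw [← hβ, hsplit, add_comm]
    congr 1
    rw [Finset.mul_sum]
    apply Finset.sum_congr rfl
    intro C hC
    obtain ⟨m, h1, h2, h3, h4, h5⟩ := hstr C hC
    rw [h4, hB'card, h5]
    have hcop : Nat.Coprime (q ^ d) m :=
      Nat.Coprime.pow_left _ ((Nat.Prime.coprime_iff_not_dvd hq).mpr h2)
    rw [Nat.totient_mul hcop, Nat.totient_prime_pow hq (by omega), ← hw']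
    ring
  · -- lower bound for NN B P0
    have key : ∀ C ∈ P1, ∀ j ∈ Finset.range d,
        sb C (q ^ j * (Nat.card C / q ^ d)) ≤ C ∧
        Nat.card (sb C (q ^ j * (Nat.card C / q ^ d))) = q ^ j * (Nat.card C / q ^ d) := by
      intro C hC j hj
      obtain ⟨m, h1, h2, h3, h4, h5⟩ := hstr C hC
      have hCP := (Finset.mem_filter.mp hC).1
      have hj' : j ≤ d := (Finset.mem_range.mp hj).le
      have e1 : Nat.card C / q ^ d = β * m := by
        rw [h1, mul_assoc]; exact Nat.mul_div_cancel_left _ (Nat.pow_pos hq.pos)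
      apply sb_spec (h.cyc C hCP)
      rw [e1, h1]
      refine ⟨q ^ (d - j), ?_⟩
      have : q ^ d = q ^ j * q ^ (d - j) := by rw [← pow_add]; congr 1; omega
      rw [this]; ring
    have key2 : ∀ C ∈ P1, ∀ j ∈ Finset.range d, ∃ m, ¬ q ∣ m ∧ Nat.card C / q ^ d = β * m ∧
        Nat.card C = q ^ d * β * m ∧ Nat.card C / (q ^ d * β) = m := by
      intro C hC j hj
      obtain ⟨m, h1, h2, h3, h4, h5⟩ := hstr C hC
      refine ⟨m, h2, ?_, h1, h5⟩
      rw [h1, mul_assoc]; exact Nat.mul_div_cancel_left _ (Nat.pow_pos hq.pos)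
    set Φ : ℕ × Subgroup G → Subgroup G := fun x => sb x.2 (q ^ x.1 * (Nat.card x.2 / q ^ d)) with hΦ
    have hinj : Set.InjOn Φ (((Finset.range d) ×ˢ P1 : Finset (ℕ × Subgroup G)) : Set (ℕ × Subgroup G)) := by
      rintro ⟨j, C⟩ hx ⟨j', C'⟩ hy hxy
      rw [Finset.mem_coe, Finset.mem_product] at hx hy
      simp only at hx hy
      obtain ⟨hj, hC⟩ := hx
      obtain ⟨hj', hC'⟩ := hy
      obtain ⟨k1, k2⟩ := key C hC j hj
      obtain ⟨k1', k2'⟩ := key C' hC' j' hj'
      obtain ⟨m, m1, m2, m3, m4⟩ := key2 C hC j hj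
      obtain ⟨m', m1', m2', m3', m4'⟩ := key2 C' hC' j' hj'
      simp only [hΦ] at hxy
      have hcards : q ^ j * (β * m) = q ^ j' * (β * m') := by
        rw [← m2, ← m2', ← k2, ← k2', hxy]
      have hcards2 : q ^ j * m = q ^ j' * m' := by
        have : β * (q ^ j * m) = β * (q ^ j' * m') := by
          calc β * (q ^ j * m) = q ^ j * (β * m) := by ring
            _ = q ^ j' * (β * m') := hcards
            _ = β * (q ^ j' * m') := by ring
        exact Nat.eq_of_mul_eq_mul_left hβ0 this
      have hm0 : m ≠ 0 := by rintro rfl; simp at m1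
      have hm0' : m' ≠ 0 := by rintro rfl; simp at m1'
      have hjj : j = j' := by
        have f1 : (q ^ j * m).factorization q = (q ^ j' * m').factorization q := by rw [hcards2]
        rw [Nat.factorization_mul (pow_ne_zero _ hq.ne_zero) hm0,
          Nat.factorization_mul (pow_ne_zero _ hq.ne_zero) hm0',
          Finsupp.add_apply, Finsupp.add_apply, Nat.Prime.factorization_pow hq,
          Nat.Prime.factorization_pow hq, Finsupp.single_eq_same, Finsupp.single_eq_same,
          Nat.factorization_eq_zero_of_not_dvd m1, Nat.factorization_eq_zero_of_not_dvd m1'] at f1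
        simpa using f1
      subst hjj
      have hmm : m = m' := Nat.eq_of_mul_eq_mul_left (Nat.pow_pos hq.pos) hcards2
      subst hmm
      -- C = B' ⊔ E = C'
      have hB'C1 : B' ≤ C := (Finset.mem_filter.mp hC).2
      have hB'C2 : B' ≤ C' := (Finset.mem_filter.mp hC').2
      set E := sb C (q ^ j * (Nat.card C / q ^ d)) with hE
      have hEC' : E ≤ C' := by rw [hxy]; exact k1'
      have hsup : ∀ C'' : Subgroup G, B' ≤ C'' → E ≤ C'' → Nat.card C'' = q ^ d * β * m →
          B' ⊔ E = C'' := by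
        intro C'' h1 h2 h3
        apply eq_of_card (sup_le h1 h2)
        apply Nat.dvd_antisymm (card_dvd (sup_le h1 h2))
        rw [h3]
        have d1 : q ^ d ∣ Nat.card (B' ⊔ E : Subgroup G) := by
          have := card_dvd (show B' ≤ B' ⊔ E from le_sup_left)
          rw [hB'card] at this
          exact dvd_trans (Dvd.intro _ rfl) this
        have d2 : β * m ∣ Nat.card (B' ⊔ E : Subgroup G) := by
          have := card_dvd (show E ≤ B' ⊔ E from le_sup_right)
          rw [k2, m2] at this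
          exact dvd_trans (Dvd.intro_left _ rfl) this
        rw [mul_assoc]
        apply Nat.Coprime.mul_dvd_of_dvd_of_dvd _ d1 d2
        apply Nat.Coprime.pow_left
        rw [Nat.Prime.coprime_iff_not_dvd hq]
        intro hdv
        rcases (Nat.Prime.dvd_mul hq).mp hdv with h6 | h6
        · exact hqβ h6
        · exact m1 h6
      have e1 := hsup C hB'C1 k1 m3
      have e2 := hsup C' hB'C2 hEC' m3'
      rw [← e1, ← e2]
    have himg : ((Finset.range d) ×ˢ P1).image Φ ⊆ P0 := by
      intro D hD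
      obtain ⟨⟨j, C⟩, hx, rfl⟩ := Finset.mem_image.mp hD
      rw [Finset.mem_product] at hx
      simp only at hx
      obtain ⟨hj, hC⟩ := hx
      obtain ⟨k1, k2⟩ := key C hC j hj
      obtain ⟨m, m1, m2, m3, m4⟩ := key2 C hC j hj
      have hCP := (Finset.mem_filter.mp hC).1
      refine Finset.mem_filter.mpr ⟨h.down C hCP _ ?_ k1, ?_⟩
      · apply cyc_le (h.cyc C hCP) (h.le C hCP) k1
        rw [k2, m2, ← hβ]
        exact ⟨q ^ j * m, by ring⟩
      · intro hle
        have h6 := card_dvd hle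
        rw [hB'card] at h6
        have h6' : q ^ d * β ∣ q ^ j * (Nat.card C / q ^ d) := by rw [← k2]; exact h6
        rw [m2] at h6'
        have h7 : q ^ d ∣ q ^ j * (β * m) := dvd_trans (Dvd.intro _ rfl) h6'
        have hcop : Nat.Coprime (q ^ d) (β * m) := by
          apply Nat.Coprime.pow_left
          rw [Nat.Prime.coprime_iff_not_dvd hq]
          intro hdv
          rcases (Nat.Prime.dvd_mul hq).mp hdv with h6 | h6
          · exact hqβ h6
          · exact m1 h6
        have h8 := hcop.dvd_of_dvd_mul_right h7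
        have h9 := (Nat.pow_dvd_pow_iff_le_right hq.one_lt).mp h8
        have := Finset.mem_range.mp hj
        omega
    calc w' * NN B' P1 = ∑ x ∈ (Finset.range d) ×ˢ P1, Nat.totient (Nat.card (Φ x) / β) := by
          rw [Finset.sum_product_right]
          unfold NN
          rw [Finset.mul_sum]
          apply Finset.sum_congr rfl
          intro C hC
          have hs := sum_totient_pow q hq (d - 1)
          rw [show d - 1 + 1 = d by omega, ← hw'] at hs
          rw [← hs, Finset.sum_mul]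
          apply Finset.sum_congr rfl
          intro j hj
          obtain ⟨k1, k2⟩ := key C hC j hj
          obtain ⟨m, m1, m2, m3, m4⟩ := key2 C hC j hj
          simp only [hΦ]
          rw [k2, m2, hB'card, m4]
          have : q ^ j * (β * m) / β = q ^ j * m := by
            rw [show q ^ j * (β * m) = β * (q ^ j * m) by ring]
            exact Nat.mul_div_cancel_left _ hβ0
          rw [this, Nat.totient_mul]
          exact Nat.Coprime.pow_left _ ((Nat.Prime.coprime_iff_not_dvd hq).mpr m1)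
      _ = ∑ D ∈ ((Finset.range d) ×ˢ P1).image Φ, Nat.totient (Nat.card D / β) := by
          rw [Finset.sum_image hinj]
      _ ≤ NN B P0 := by
          unfold NN
          rw [← hβ]
          exact Finset.sum_le_sum_of_subset himg
  · intro C hC
    obtain ⟨m, h1, h2, h3, h4, h5⟩ := hstr C hC
    rw [h4, hB'card, h5]
    exact ⟨Dvd.intro_left _ rfl, h2⟩

end Pool.Agent.Lib_helper15.KL
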