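import Mathlib
import Pool.Agent.Lib_helper15.KLPebble
import Pool.Agent.Lib_helper15.KLCyclic

set_option autoImplicit false
set_option linter.unusedSectionVars false

/-!
Realisation of pebbles by index lists, and the weighted zero-sum theorem for all finite groups.
-/

namespace Pool.Agent.Lib_helper15.KL

open Finsupp

/-- Induction over down-closed families. -/
theorem main_induct {G : Type*} [Group G] [Finite G] (Av : (Subgroup G →₀ ℕ) → Prop) (hd : Dn Av)
    (hmv : ∀ (C D : Subgroup G) (t : ℕ), D ≤ C → Nat.card C = t * Nat.card D →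
      ∀ F : Subgroup G →₀ ℕ, Av (F + single C t) → Av (F + single D 1)) :
    ∀ n : ℕ, ∀ (B : Subgroup G) (P : Finset (Subgroup G)), Closed B P → P.card ≤ n →
      PA Av P B (NN B P) ∧
      ((∀ C ∈ P, Odd (Nat.card C / Nat.card B)) → PE Av P B (NN B P)) := by
  classical
  intro n
  induction n with
  | zero =>
    intro B P hcl hcard
    have : 0 < P.card := Finset.card_pos.mpr ⟨B, hcl.base⟩
    omega
  | succ n ih =>
    intro B P hcl hcard
    by_cases hP : P = {B}
    · have hN : NN B P = 1 := by
        rw [hP]; unfold NN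
        rw [Finset.sum_singleton, Nat.div_self (card_pos' B), Nat.totient_one]
      rw [hN, hP]
      exact ⟨PA_base Av hd B, fun _ => PE_base Av hd B⟩
    -- a cell different from B
    have hexC : ∃ C ∈ P, C ≠ B := by
      by_contra hcon
      push Not at hcon
      apply hP
      ext C
      rw [Finset.mem_singleton]
      exact ⟨fun h => hcon C h, fun h => h ▸ hcl.base⟩
    obtain ⟨C, hCP, hCB⟩ := hexC
    have hm1 : Nat.card C / Nat.card B ≠ 1 := by
      intro hm1
      have h1 := hcl.card_eq hCP
      rw [hm1, mul_one] at h1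
      exact hCB (eq_of_card (hcl.le C hCP) h1.symm).symm
    -- chain moves
    have hchain : ∀ (B B' : Subgroup G) (t : ℕ), B ≤ B' → Nat.card B' = t * Nat.card B →
        ∀ k : ℕ, ∀ F : Subgroup G →₀ ℕ, Av (F + single B' (k * t)) → Av (F + single B k) := by
      intro B B' t hle hc k
      induction k with
      | zero => intro F; simp
      | succ k ihk =>
        intro F hF
        have e1 : F + single B' ((k + 1) * t) = (F + single B' (k * t)) + single B' t := by
          rw [Nat.succ_mul, Finsupp.single_add, add_assoc]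
        rw [e1] at hF
        have h2 := hmv B' B t hle hc _ hF
        have e2 : F + single B' (k * t) + single B 1 = (F + single B 1) + single B' (k * t) := by
          abel
        rw [e2] at h2
        have h3 := ihk _ h2
        have e3 : F + single B 1 + single B k = F + single B (k + 1) := by
          rw [add_comm k 1, Finsupp.single_add, add_assoc]
        rw [← e3]; exact h3
    constructor
    · -- PA
      have hq : ∃ q : ℕ, q.Prime ∧ (∃ C ∈ P, q ∣ Nat.card C / Nat.card B) ∧
          (q = 2 ∨ ∀ C ∈ P, Odd (Nat.card C / Nat.card B)) := by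
        by_cases hev : ∃ C ∈ P, 2 ∣ Nat.card C / Nat.card B
        · exact ⟨2, Nat.prime_two, hev, Or.inl rfl⟩
        · refine ⟨(Nat.card C / Nat.card B).minFac, Nat.minFac_prime hm1,
            ⟨C, hCP, Nat.minFac_dvd _⟩, Or.inr ?_⟩
          intro D hD
          push Not at hev
          rw [← Nat.not_even_iff_odd, even_iff_two_dvd]
          exact hev D hD
      obtain ⟨q, hqp, hex, hodd⟩ := hq
      obtain ⟨B', P0, P1, f, w', hmem, hc0, hc1, hcl0, hcl1, hf, hBB', hB'c, hw1, hNN, hNN1, hdv⟩ :=
        decomp hcl q hqp hex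
      have hPeq : P = P0 ∪ P1 := by
        ext x; rw [Finset.mem_union]; exact hmem x
      have hodd1 : ∀ C ∈ P1, Odd (Nat.card C / Nat.card B') := by
        intro D hD
        rcases hodd with h2 | h2
        · rw [← Nat.not_even_iff_odd, even_iff_two_dvd, ← h2]
          exact (hdv D hD).2
        · have h3 := h2 D ((hmem D).mpr (Or.inr hD))
          exact Odd.of_dvd_nat h3 (hdv D hD).1
      have ih0 := ih B P0 hcl0 (by omega)
      have ih1 := ih B' P1 hcl1 (by omega)
      rw [hNN, hPeq]
      exact stepA Av hd P0 P1 B B' (NN B P0) (NN B' P1) q w' f (fun a ha => (hf a ha).1)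
        (fun a ha => hmv a (f a) q (hf a ha).2.1 (hf a ha).2.2)
        (hchain B B' (q * w') hBB' hB'c) hqp.two_le hw1 ih0.1 (ih1.2 hodd1)
    · -- PE
      intro hodd
      obtain ⟨B', P0, P1, f, w', hmem, hc0, hc1, hcl0, hcl1, hf, hBB', hB'c, hw1, hNN, hNN1, hdv⟩ :=
        decomp hcl (Nat.card C / Nat.card B).minFac (Nat.minFac_prime hm1)
          ⟨C, hCP, Nat.minFac_dvd _⟩
      have hqp := Nat.minFac_prime hm1
      have hPeq : P = P0 ∪ P1 := by
        ext x; rw [Finset.mem_union]; exact hmem x
      have hodd1 : ∀ C ∈ P1, Odd (Nat.card C / Nat.card B') := by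
        intro D hD
        have h3 := hodd D ((hmem D).mpr (Or.inr hD))
        exact Odd.of_dvd_nat h3 (hdv D hD).1
      have hodd0 : ∀ C ∈ P0, Odd (Nat.card C / Nat.card B) := by
        intro D hD
        exact hodd D ((hmem D).mpr (Or.inl hD))
      have ih0 := ih B P0 hcl0 (by omega)
      have ih1 := ih B' P1 hcl1 (by omega)
      rw [hNN, hPeq]
      exact stepE Av hd P0 P1 B B' (NN B P0) (NN B' P1) _ w' f (fun a ha => (hf a ha).1)
        (fun a ha => hmv a (f a) _ (hf a ha).2.1 (hf a ha).2.2)
        (hchain B B' _ hBB' hB'c) hqp.two_le hw1 (NN_pos hcl0) hNN1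
        (count_odd hcl1 hodd1) ih0.1 (ih0.2 hodd0) (ih1.2 hodd1)

variable {G : Type*} [Group G] [Finite G] {ι : Type*} [DecidableEq ι]

/-- A valid pebble at `C`. -/
def Peb (g : ι → G) (C : Subgroup G) (l : List ι) : Prop :=
  l ≠ [] ∧ (l.map g).prod ∈ C ∧
    (l.map (fun i => (1 : ℚ) / (orderOf (g i) : ℚ))).sum ≤ 1 / (Nat.card C : ℚ)

open Classical in
/-- Availability of a configuration. -/
def Avl (g : ι → G) (T : Subgroup G →₀ ℕ) : Prop :=
  ∃ L : Multiset (Subgroup G × List ι), (∀ x ∈ L, Peb g x.1 x.2) ∧
    (L.bind (fun x => (↑x.2 : Multiset ι))).Nodup ∧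
    ∀ C : Subgroup G, T C ≤ (L.filter (fun x => x.1 = C)).card

theorem Avl_dn (g : ι → G) : Dn (Avl g) := by
  intro S T hST ⟨L, h1, h2, h3⟩
  exact ⟨L, h1, h2, fun C => (hST C).trans (h3 C)⟩

/-- Pigeonhole on partial products. -/
theorem segment (C D : Subgroup G) (t : ℕ) (hDC : D ≤ C) (hcard : Nat.card C = t * Nat.card D)
    (g : ι → G) (ls : List (List ι))
    (hls : ∀ l ∈ ls, (l.map g).prod ∈ C) :
    ∃ i j : ℕ, i < j ∧ j ≤ t ∧ ((((ls.take j).drop i).flatten).map g).prod ∈ D := by
  classical
  -- partial products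
  have hprod : ∀ k : ℕ, (((ls.take k).flatten).map g).prod ∈ C := by
    intro k
    have : ∀ ls' : List (List ι), (∀ l ∈ ls', (l.map g).prod ∈ C) →
        ((ls'.flatten).map g).prod ∈ C := by
      intro ls'
      induction ls' with
      | nil => intro _; simp
      | cons a tl ih =>
        intro h
        rw [List.flatten_cons, List.map_append, List.prod_append]
        exact C.mul_mem (h a List.mem_cons_self) (ih fun l hl => h l (List.mem_cons_of_mem _ hl))
    exact this _ fun l hl => hls l (List.mem_of_mem_take hl)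
  set φ : Fin (t + 1) → C ⧸ (D.subgroupOf C) := fun k =>
    QuotientGroup.mk ⟨(((ls.take k).flatten).map g).prod, hprod k⟩ with hφ
  have hcq : Nat.card (C ⧸ (D.subgroupOf C)) = t := by
    have h1 := Subgroup.card_eq_card_quotient_mul_card_subgroup (D.subgroupOf C)
    have h2 : Nat.card (D.subgroupOf C) = Nat.card D :=
      Nat.card_congr (Subgroup.subgroupOfEquivOfLe hDC).toEquiv
    rw [h2, hcard] at h1
    exact (Nat.eq_of_mul_eq_mul_right (card_pos' D) h1).symm
  have : Fintype (C ⧸ (D.subgroupOf C)) := Fintype.ofFinite _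
  have hlt : Fintype.card (C ⧸ (D.subgroupOf C)) < Fintype.card (Fin (t + 1)) := by
    rw [← Nat.card_eq_fintype_card, hcq, Fintype.card_fin]; omega
  obtain ⟨x, y, hxy, hφxy⟩ := Fintype.exists_ne_map_eq_of_card_lt φ hlt
  -- wlog x < y
  have key : ∀ x y : Fin (t + 1), x < y → φ x = φ y →
      ∃ i j : ℕ, i < j ∧ j ≤ t ∧ ((((ls.take j).drop i).flatten).map g).prod ∈ D := by
    intro x y hlt hφxy
    refine ⟨x, y, hlt, Nat.lt_succ_iff.mp y.2, ?_⟩
    rw [hφ] at hφxy
    simp only at hφxy
    rw [QuotientGroup.eq] at hφxy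
    rw [Subgroup.mem_subgroupOf] at hφxy
    have hsplit : ls.take (y : ℕ) = ls.take (x : ℕ) ++ (ls.take (y : ℕ)).drop (x : ℕ) := by
      have h1 := (List.take_append_drop (x : ℕ) (ls.take (y : ℕ))).symm
      rw [List.take_take, min_eq_left (by exact_mod_cast hlt.le)] at h1
      exact h1
    have hp : (((ls.take (y : ℕ)).flatten).map g).prod =
        (((ls.take (x : ℕ)).flatten).map g).prod *
        ((((ls.take (y : ℕ)).drop (x : ℕ)).flatten).map g).prod := by
      conv_lhs => rw [hsplit]
      rw [List.flatten_append, List.map_append, List.prod_append]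
    have : ((((ls.take (y : ℕ)).drop (x : ℕ)).flatten).map g).prod =
        (((ls.take (x : ℕ)).flatten).map g).prod⁻¹ * (((ls.take (y : ℕ)).flatten).map g).prod := by
      rw [hp]; group
    rw [this]
    exact hφxy
  rcases lt_or_gt_of_ne hxy with h | h
  · exact key x y h hφxy
  · exact key y x h hφxy.symm

theorem Avl_move (g : ι → G) (C D : Subgroup G) (t : ℕ) (hDC : D ≤ C)
    (hcard : Nat.card C = t * Nat.card D) (F : Subgroup G →₀ ℕ)
    (h : Avl g (F + single C t)) : Avl g (F + single D 1) := by
  classical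
  obtain ⟨L, h1, h2, h3⟩ := h
  have hC := h3 C
  rw [Finsupp.add_apply, Finsupp.single_eq_same] at hC
  -- choose t pebbles at C
  obtain ⟨La, hLa1, hLa2⟩ : ∃ La : Multiset (Subgroup G × List ι),
      La ≤ L.filter (fun x => x.1 = C) ∧ La.card = t := by
    have : (L.filter (fun x => x.1 = C)).powersetCard t ≠ 0 := by
      rw [← Multiset.card_pos, Multiset.card_powersetCard]
      exact Nat.choose_pos (by omega)
    obtain ⟨La, hLa⟩ := Multiset.exists_mem_of_ne_zero this
    exact ⟨La, Multiset.mem_powersetCard.mp hLa⟩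
  have hLaL : La ≤ L := hLa1.trans (Multiset.filter_le _ _)
  obtain ⟨R, hR⟩ := Multiset.le_iff_exists_add.mp hLaL
  have hLaC : ∀ x ∈ La, x.1 = C := fun x hx => (Multiset.mem_filter.mp (Multiset.mem_of_le hLa1 hx)).2
  -- list of pebbles
  obtain ⟨ll, hll⟩ : ∃ ll : List (Subgroup G × List ι), (ll : Multiset _) = La :=
    ⟨La.toList, Multiset.coe_toList La⟩
  set ls : List (List ι) := ll.map Prod.snd with hls
  have hlen : ls.length = t := by
    rw [hls, List.length_map, ← hLa2, ← hll, Multiset.coe_card]
  have hmemls : ∀ l ∈ ls, Peb g C l := by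
    intro l hl
    obtain ⟨x, hx, rfl⟩ := List.mem_map.mp hl
    have hxLa : x ∈ La := by rw [← hll]; exact hx
    have := h1 x (Multiset.mem_of_le hLaL hxLa)
    rwa [hLaC x hxLa] at this
  obtain ⟨i, j, hij, hjt, hprod⟩ := segment C D t hDC hcard g ls (fun l hl => (hmemls l hl).2.1)
  set seg := (ls.take j).drop i with hseg
  have hseglen : seg.length = j - i := by
    rw [hseg, List.length_drop, List.length_take, hlen]
    omega
  have hsegsub : seg.Sublist ls := (List.drop_sublist _ _).trans (List.take_sublist _ _)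
  have hD0 : 0 < Nat.card D := card_pos' D
  have hnew : Peb g D seg.flatten := by
    refine ⟨?_, hprod, ?_⟩
    · intro hnil
      have hne : seg ≠ [] := by
        intro h0
        rw [h0] at hseglen
        simp at hseglen
        omega
      obtain ⟨a, ha⟩ := List.exists_mem_of_ne_nil seg hne
      have h5 := (hmemls a (hsegsub.subset ha)).1
      rw [List.flatten_eq_nil_iff] at hnil
      exact h5 (hnil a ha)
    · have hb : ∀ ls' : List (List ι), (∀ l ∈ ls', Peb g C l) →
          ((ls'.flatten).map (fun i => (1 : ℚ) / (orderOf (g i) : ℚ))).sum ≤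
            (ls'.length : ℚ) * (1 / (Nat.card C : ℚ)) := by
        intro ls'
        induction ls' with
        | nil => intro _; simp
        | cons a tl ih =>
          intro h
          rw [List.flatten_cons, List.map_append, List.sum_append, List.length_cons]
          have h5 := (h a List.mem_cons_self).2.2
          have h6 := ih fun l hl => h l (List.mem_cons_of_mem _ hl)
          push_cast
          linarith
      have h5 := hb seg (fun l hl => hmemls l (hsegsub.subset hl))
      refine h5.trans ?_
      have hDq : (0 : ℚ) < (Nat.card D : ℚ) := by exact_mod_cast hD0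
      have ht0 : 0 < t := by omega
      have htq : (0 : ℚ) < (t : ℚ) := by exact_mod_cast ht0
      rw [hcard, hseglen]
      push_cast
      have h7 : ((j - i : ℕ) : ℚ) ≤ (t : ℚ) := by
        have : j - i ≤ t := by omega
        exact_mod_cast this
      calc ((j - i : ℕ) : ℚ) * (1 / ((t : ℚ) * (Nat.card D : ℚ)))
          ≤ (t : ℚ) * (1 / ((t : ℚ) * (Nat.card D : ℚ))) := by
            apply mul_le_mul_of_nonneg_right h7
            positivity
        _ = 1 / (Nat.card D : ℚ) := by field_simp
  refine ⟨R + {(D, seg.flatten)}, ?_, ?_, ?_⟩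
  · intro x hx
    rcases Multiset.mem_add.mp hx with h5 | h5
    · exact h1 x (by rw [hR]; exact Multiset.mem_add.mpr (Or.inr h5))
    · rw [Multiset.mem_singleton.mp h5]; exact hnew
  · rw [Multiset.add_bind, Multiset.singleton_bind]
    rw [hR, Multiset.add_bind, add_comm] at h2
    refine Multiset.nodup_of_le (add_le_add le_rfl ?_) h2
    have e1 : La.bind (fun x => (↑x.2 : Multiset ι)) = (↑(ls.flatten) : Multiset ι) := by
      rw [← hll, hls, Multiset.coe_bind]
      rfl
    rw [e1]
    exact Multiset.coe_le.mpr (hsegsub.flatten).subperm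
  · intro C'
    have h5 := h3 C'
    rw [hR, Multiset.filter_add, Multiset.card_add, Finsupp.add_apply] at h5
    rw [Multiset.filter_add, Multiset.card_add, Finsupp.add_apply]
    have h6 : (La.filter (fun x => x.1 = C')).card = (single C t : Subgroup G →₀ ℕ) C' := by
      by_cases hCC : C = C'
      · rw [← hCC, Finsupp.single_eq_same, Multiset.filter_eq_self.mpr hLaC, hLa2]
      · rw [Finsupp.single_eq_of_ne (Ne.symm hCC)]
        rw [Multiset.card_eq_zero, Multiset.filter_eq_nil]
        intro x hx hx'
        exact hCC ((hLaC x hx).symm.trans hx')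
    have h7 : ((({(D, seg.flatten)} : Multiset (Subgroup G × List ι)).filter
        (fun x => x.1 = C')).card) = (single D 1 : Subgroup G →₀ ℕ) C' := by
      rw [Multiset.filter_singleton, Finsupp.single_apply]
      by_cases hDC' : D = C'
      · rw [if_pos hDC', if_pos hDC', Multiset.card_singleton]
      · rw [if_neg hDC', if_neg hDC']; rfl
    rw [h6] at h5
    rw [h7]
    omega

/-- `∑ φ(|C|)` over all cyclic subgroups is at most `|G|`. -/
theorem sum_totient_le (P : Finset (Subgroup G)) (hP : ∀ C ∈ P, IsCyclic C) :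
    NN (⊥ : Subgroup G) P ≤ Nat.card G := by
  classical
  have : Fintype G := Fintype.ofFinite G
  unfold NN
  have hG : Nat.card G = (Finset.univ : Finset G).card := by
    rw [Nat.card_eq_fintype_card, Finset.card_univ]
  rw [hG]
  have h1 : ∀ C ∈ P, Nat.totient (Nat.card C / Nat.card (⊥ : Subgroup G)) ≤
      (Finset.univ.filter (fun x : G => Subgroup.zpowers x = C)).card := by
    intro C hC
    rw [Subgroup.card_bot, Nat.div_one]
    have hcyc := hP C hC
    have : Fintype C := Fintype.ofFinite C
    have h2 := IsCyclic.card_orderOf_eq_totient (α := C) (d := Nat.card C)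
      (by rw [Nat.card_eq_fintype_card])
    rw [← h2]
    refine Finset.card_le_card_of_injOn (fun x : C => (x : G)) ?_ ?_
    · intro x hx
      rw [Finset.mem_coe, Finset.mem_filter] at hx ⊢
      refine ⟨Finset.mem_univ _, ?_⟩
      apply eq_of_card
      · rw [Subgroup.zpowers_le]; exact x.2
      · rw [Nat.card_zpowers, Subgroup.orderOf_coe]; exact hx.2
    · intro x _ y _ hxy
      exact Subtype.ext hxy
  calc ∑ C ∈ P, Nat.totient (Nat.card C / Nat.card (⊥ : Subgroup G))
      ≤ ∑ C ∈ P, (Finset.univ.filter (fun x : G => Subgroup.zpowers x = C)).card :=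
        Finset.sum_le_sum h1
    _ ≤ (Finset.univ : Finset G).card := by
        rw [← Finset.card_biUnion]
        · exact Finset.card_le_card (Finset.subset_univ _)
        · intro C _ C' _ hne
          rw [Function.onFun, Finset.disjoint_left]
          intro x hx hx'
          exact hne ((Finset.mem_filter.mp hx).2.symm.trans (Finset.mem_filter.mp hx').2)

/-- Main theorem, general index type. -/
theorem weighted_zero_sum [Fintype ι] (hι : Nat.card G ≤ Fintype.card ι) (g : ι → G) :
    ∃ l : List ι, l ≠ [] ∧ l.Nodup ∧ (l.map g).prod = 1 ∧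
      (l.map (fun i => (1 : ℚ) / (orderOf (g i) : ℚ))).sum ≤ 1 := by
  classical
  have : Fintype G := Fintype.ofFinite G
  have : Fintype (Subgroup G) := Fintype.ofFinite _
  set P : Finset (Subgroup G) := Finset.univ.filter (fun C : Subgroup G => IsCyclic C) with hP
  have hcyc : ∀ C ∈ P, IsCyclic C := fun C hC => (Finset.mem_filter.mp hC).2
  have hcl : Closed (⊥ : Subgroup G) P := by
    refine ⟨?_, hcyc, fun _ _ => bot_le, ?_, ?_⟩
    · exact Finset.mem_filter.mpr ⟨Finset.mem_univ _, inferInstance⟩
    · intro C _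
      rw [Subgroup.card_bot]; exact Nat.coprime_one_right _
    · intro C hC D _ hDC
      exact Finset.mem_filter.mpr ⟨Finset.mem_univ _, isCyclic_of_le (hcyc C hC) hDC⟩
  have hA := (main_induct (Avl g) (Avl_dn g) (fun C D t h1 h2 F => Avl_move g C D t h1 h2 F)
    P.card ⊥ P hcl le_rfl).1
  set T : Subgroup G →₀ ℕ := ∑ i : ι, single (Subgroup.zpowers (g i)) 1 with hT
  have hTdeg : T.degree = Fintype.card ι := by
    rw [hT, map_sum]; simp
  have hTsup : T.support ⊆ P := by
    intro C hC
    have h1 := Finsupp.support_finsetSum hC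
    obtain ⟨i, _, hi⟩ := Finset.mem_biUnion.mp h1
    have h2 := Finsupp.support_single_subset hi
    rw [Finset.mem_singleton] at h2
    rw [h2]
    exact Finset.mem_filter.mpr ⟨Finset.mem_univ _, inferInstance⟩
  have hNle : NN (⊥ : Subgroup G) P ≤ T.degree := by
    rw [hTdeg]
    exact (sum_totient_le P hcyc).trans hι
  have hR := hA T hTsup hNle 0
  rw [zero_add, zero_add] at hR
  have hAv : Avl g T := by
    refine ⟨(Finset.univ : Finset ι).val.map (fun i => (Subgroup.zpowers (g i), [i])), ?_, ?_, ?_⟩
    · intro x hx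
      obtain ⟨i, _, rfl⟩ := Multiset.mem_map.mp hx
      refine ⟨by simp, ?_, ?_⟩
      · simp
      · rw [List.map_singleton, List.sum_singleton, Nat.card_zpowers]
    · rw [Multiset.bind_map]
      simp only [Multiset.coe_singleton]
      have : (Finset.univ : Finset ι).val.bind (fun a => ({a} : Multiset ι)) =
          (Finset.univ : Finset ι).val := Multiset.bind_singleton _ _ |>.trans (Multiset.map_id _)
      rw [this]
      exact (Finset.univ : Finset ι).nodup
    · intro C
      rw [Multiset.filter_map, Multiset.card_map]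
      rw [hT, Finsupp.finsetSum_apply]
      have : ∀ i : ι, (single (Subgroup.zpowers (g i)) 1 : Subgroup G →₀ ℕ) C =
          if Subgroup.zpowers (g i) = C then 1 else 0 := by
        intro i
        rw [Finsupp.single_apply]
      simp only [this]
      rw [← Finset.card_filter]
      rfl
  obtain ⟨L, h1, h2, h3⟩ := hR hAv
  have h4 := h3 ⊥
  rw [Finsupp.single_eq_same] at h4
  obtain ⟨x, hx⟩ := Multiset.card_pos_iff_exists_mem.mp h4
  obtain ⟨hxL, hxb⟩ := Multiset.mem_filter.mp hx
  obtain ⟨p1, p2, p3⟩ := h1 x hxL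
  rw [hxb] at p2 p3
  refine ⟨x.2, p1, ?_, Subgroup.mem_bot.mp p2, ?_⟩
  · have h5 : (↑x.2 : Multiset ι) ≤ L.bind (fun x => (↑x.2 : Multiset ι)) := Multiset.le_bind _ hxL
    exact Multiset.coe_nodup.mp (Multiset.nodup_of_le h5 h2)
  · simpa using p3

end Pool.Agent.Lib_helper15.KL
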