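import Mathlib

set_option autoImplicit false

/-!
Definitions for the quasi-holomorph question (MP_036866_al), verbatim from the problem:
`B = Perm G`, `λ(G)`, regular subgroups, `S(G)`, `R(G)`, `Q(G)`, representative sets of `Q(G)`
and conj-closed sets of permutations.
-/

namespace Pool.Agent.Lib_helper15.QHol

/-- `λ(G) ≤ Perm(G)`, the image of the left regular representation `λ(g)(h) = gh`. -/
def lam (G : Type) [Group G] : Subgroup (Equiv.Perm G) := (MulAction.toPermHom G G).range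

/-- A subgroup `N` of `Perm(G)` is regular: for all `x, y` exactly one `n ∈ N` has `n x = y`. -/
def IsReg {G : Type} (N : Subgroup (Equiv.Perm G)) : Prop :=
  ∀ x y : G, ∃! n : Equiv.Perm G, n ∈ N ∧ n x = y

/-- `Norm_B(N)`. -/
def Nrm {G : Type} (N : Subgroup (Equiv.Perm G)) : Subgroup (Equiv.Perm G) :=
  Subgroup.normalizer (N : Set (Equiv.Perm G))

/-- `S(G)`: regular `N ≤ B` with `N ≅ G` and `N ≤ Hol(G) = Norm_B(λ(G))`. -/
def SS (G : Type) [Group G] : Set (Subgroup (Equiv.Perm G)) :=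
  {N | IsReg N ∧ Nonempty (N ≃* G) ∧ N ≤ Nrm (lam G)}

/-- `R(G)`: regular `N ≤ B` with `N ≅ G` and `λ(G) ≤ Norm_B(N)`. -/
def RR (G : Type) [Group G] : Set (Subgroup (Equiv.Perm G)) :=
  {N | IsReg N ∧ Nonempty (N ≃* G) ∧ lam G ≤ Nrm N}

/-- `Q(G)`: the `M ∈ S(G) ∩ R(G)` normalised by every `N ∈ S(G) ∩ R(G)`. -/
def QQ (G : Type) [Group G] : Set (Subgroup (Equiv.Perm G)) :=
  {M | M ∈ SS G ∩ RR G ∧ ∀ N ∈ SS G ∩ RR G, N ≤ Nrm M}

/-- `cj β N = β N β⁻¹`. -/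
def cj {G : Type} (β : Equiv.Perm G) (N : Subgroup (Equiv.Perm G)) : Subgroup (Equiv.Perm G) :=
  N.map (MulAut.conj β).toMonoidHom

/-- `A` is a representative set `π(Q(G))`: every `β ∈ A` has `β λ(G) β⁻¹ ∈ Q(G)`, and every
`M ∈ Q(G)` equals `β λ(G) β⁻¹` for exactly one `β ∈ A`. -/
def IsRepSet {G : Type} [Group G] (A : Set (Equiv.Perm G)) : Prop :=
  (∀ β ∈ A, cj β (lam G) ∈ QQ G) ∧ ∀ M ∈ QQ G, ∃! β : Equiv.Perm G, β ∈ A ∧ cj β (lam G) = M

/-- `A` is conj-closed: for all `α, β ∈ A` there is `γ ∈ A` with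
`αβ λ(G) β⁻¹α⁻¹ = γ λ(G) γ⁻¹`. -/
def ConjClosed {G : Type} [Group G] (A : Set (Equiv.Perm G)) : Prop :=
  ∀ α ∈ A, ∀ β ∈ A, ∃ γ ∈ A, cj (α * β) (lam G) = cj γ (lam G)

end Pool.Agent.Lib_helper15.QHol
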