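import Mathlib
import Pool.Agent.Lib_helper15.QHolDefs

set_option autoImplicit false
set_option linter.unusedSectionVars false

/-! General lemmas about regular subgroups and holomorphs. -/

namespace Pool.Agent.Lib_helper15.QHol

open Equiv

section gen

variable {G : Type} [Group G]

theorem mem_lam {π : Perm G} : π ∈ lam G ↔ ∃ g : G, π = Equiv.mulLeft g := by
  constructor
  · rintro ⟨g, rfl⟩
    exact ⟨g, by ext x; rfl⟩
  · rintro ⟨g, rfl⟩
    exact ⟨g, by ext x; rfl⟩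

theorem mulLeft_mem (g : G) : Equiv.mulLeft g ∈ lam G := mem_lam.mpr ⟨g, rfl⟩

theorem lam_mul (g h : G) : (Equiv.mulLeft (g * h) : Perm G) = Equiv.mulLeft g * Equiv.mulLeft h := by
  ext x; simp

theorem lam_inv (g : G) : (Equiv.mulLeft g : Perm G)⁻¹ = Equiv.mulLeft g⁻¹ := by
  ext x; simp

theorem mem_cj {β : Perm G} {N : Subgroup (Perm G)} {π : Perm G} :
    π ∈ cj β N ↔ β⁻¹ * π * β ∈ N := by
  unfold cj
  rw [Subgroup.mem_map]
  constructor
  · rintro ⟨n, hn, rfl⟩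
    have : β⁻¹ * (MulAut.conj β).toMonoidHom n * β = n := by
      simp [MulAut.conj_apply, mul_assoc]
    rw [this]; exact hn
  · intro h
    exact ⟨_, h, by simp [MulAut.conj_apply, mul_assoc]⟩

theorem cj_mul (α β : Perm G) (N : Subgroup (Perm G)) : cj (α * β) N = cj α (cj β N) := by
  ext π
  rw [mem_cj, mem_cj, mem_cj]
  have : (α * β)⁻¹ * π * (α * β) = β⁻¹ * (α⁻¹ * π * α) * β := by group
  rw [this]

theorem cj_one (N : Subgroup (Perm G)) : cj 1 N = N := by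
  ext π; rw [mem_cj]; simp

theorem mem_Nrm {N : Subgroup (Perm G)} {π : Perm G} :
    π ∈ Nrm N ↔ ∀ n, n ∈ N ↔ π * n * π⁻¹ ∈ N := Iff.rfl

theorem mem_Nrm_iff_cj {N : Subgroup (Perm G)} {π : Perm G} : π ∈ Nrm N ↔ cj π N = N := by
  rw [mem_Nrm]
  constructor
  · intro h
    ext x
    rw [mem_cj, h (π⁻¹ * x * π)]
    have : π * (π⁻¹ * x * π) * π⁻¹ = x := by group
    rw [this]
  · intro h n
    have := SetLike.ext_iff.mp h (π * n * π⁻¹)
    rw [mem_cj] at this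
    have e : π⁻¹ * (π * n * π⁻¹) * π = n := by group
    rw [e] at this
    exact this

theorem mem_Nrm_cj {N : Subgroup (Perm G)} {β π : Perm G} :
    π ∈ Nrm (cj β N) ↔ β⁻¹ * π * β ∈ Nrm N := by
  rw [mem_Nrm_iff_cj, mem_Nrm_iff_cj]
  constructor
  · intro h
    rw [mul_assoc, cj_mul, cj_mul, h, ← cj_mul, inv_mul_cancel, cj_one]
  · intro h
    have h2 : cj β (cj (β⁻¹ * π * β) N) = cj β N := by rw [h]
    rw [← cj_mul] at h2
    have h3 : β * (β⁻¹ * π * β) = π * β := by group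
    rw [h3, cj_mul] at h2
    exact h2

theorem isReg_lam : IsReg (lam G) := by
  intro x y
  refine ⟨Equiv.mulLeft (y * x⁻¹), ⟨mulLeft_mem _, by simp⟩, ?_⟩
  rintro n ⟨hn, hnx⟩
  obtain ⟨g, rfl⟩ := mem_lam.mp hn
  have : g = y * x⁻¹ := by
    rw [← hnx]; simp
  rw [this]

theorem isReg_cj {N : Subgroup (Perm G)} (h : IsReg N) (β : Perm G) : IsReg (cj β N) := by
  intro x y
  obtain ⟨n, ⟨hn, hnx⟩, huniq⟩ := h (β⁻¹ x) (β⁻¹ y)
  refine ⟨β * n * β⁻¹, ⟨?_, ?_⟩, ?_⟩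
  · rw [mem_cj]
    have : β⁻¹ * (β * n * β⁻¹) * β = n := by group
    rw [this]; exact hn
  · change β (n (β⁻¹ x)) = y
    rw [hnx]; exact Equiv.apply_symm_apply β y
  · rintro m ⟨hm, hmx⟩
    rw [mem_cj] at hm
    have := huniq (β⁻¹ * m * β) ⟨hm, by simp [Perm.mul_apply, hmx]⟩
    rw [← this]; group

noncomputable def isoLam : lam G ≃* G :=
  (MonoidHom.ofInjective (f := MulAction.toPermHom G G) (by
    intro a b h
    have := congrArg (fun π : Perm G => π 1) h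
    simpa using this)).symm

noncomputable def isoCj (β : Perm G) (N : Subgroup (Perm G)) : cj β N ≃* N :=
  (Subgroup.equivMapOfInjective N (MulAut.conj β).toMonoidHom (MulAut.conj β).injective).symm

theorem nonempty_iso_cj (β : Perm G) : Nonempty (cj β (lam G) ≃* G) :=
  ⟨(isoCj β (lam G)).trans isoLam⟩

/-- Hol(G)-invariance of `S ∩ R`. -/
theorem SR_invariant {h : Perm G} (hh : h ∈ Nrm (lam G)) {N : Subgroup (Perm G)}
    (hN : N ∈ SS G ∩ RR G) : cj h N ∈ SS G ∩ RR G := by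
  obtain ⟨⟨h1, ⟨e⟩, h3⟩, ⟨_, _, h4⟩⟩ := hN
  have hcj : cj h (lam G) = lam G := mem_Nrm_iff_cj.mp hh
  refine ⟨⟨isReg_cj h1 h, ⟨(isoCj h N).trans e⟩, ?_⟩, ⟨isReg_cj h1 h, ⟨(isoCj h N).trans e⟩, ?_⟩⟩
  · intro π hπ
    rw [mem_cj] at hπ
    have h5 := h3 hπ
    rw [← hcj, mem_Nrm_cj]; exact h5
  · intro π hπ
    rw [mem_Nrm_cj]
    apply h4
    rw [← hcj, mem_cj] at hπ
    exact hπ

theorem Q_invariant {h : Perm G} (hh : h ∈ Nrm (lam G)) {M : Subgroup (Perm G)}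
    (hM : M ∈ QQ G) : cj h M ∈ QQ G := by
  obtain ⟨h1, h2⟩ := hM
  refine ⟨SR_invariant hh h1, ?_⟩
  intro N hN π hπ
  rw [mem_Nrm_cj]
  have h3 := SR_invariant (inv_mem hh) hN
  apply h2 _ h3
  rw [mem_cj]
  have : (h⁻¹)⁻¹ * (h⁻¹ * π * h) * h⁻¹ = π := by group
  rw [this]; exact hπ

/-- The reduction: it suffices to find `M₀ = β₀ λ(G) β₀⁻¹ ∈ Q`, `K₀ ∈ Q` with
`β₀ K₀ β₀⁻¹ ∉ Q`. -/
theorem no_conjClosed {β₀ : Perm G} {K₀ : Subgroup (Perm G)}
    (hM : cj β₀ (lam G) ∈ QQ G) (hK : K₀ ∈ QQ G) (hL : cj β₀ K₀ ∉ QQ G) :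
    ¬ ∃ A : Set (Perm G), IsRepSet A ∧ ConjClosed A := by
  rintro ⟨A, ⟨hA1, hA2⟩, hA3⟩
  obtain ⟨α, ⟨hαA, hα⟩, _⟩ := hA2 _ hM
  have hh : β₀⁻¹ * α ∈ Nrm (lam G) := by
    rw [mem_Nrm_iff_cj, cj_mul, hα, ← cj_mul, inv_mul_cancel, cj_one]
  obtain ⟨β, ⟨hβA, hβ⟩, _⟩ := hA2 _ (Q_invariant (inv_mem hh) hK)
  obtain ⟨γ, hγA, hγ⟩ := hA3 α hαA β hβA
  apply hL
  have h1 := hA1 γ hγA
  rw [← hγ, cj_mul, hβ, ← cj_mul] at h1
  have : α * (β₀⁻¹ * α)⁻¹ = β₀ := by group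
  rw [this] at h1
  exact h1

theorem mem_Hol_of_forall [Finite G] {π : Perm G} (h : ∀ g : G, π * Equiv.mulLeft g * π⁻¹ ∈ lam G) :
    π ∈ Nrm (lam G) := by
  apply Subgroup.mem_normalizer_fintype
  intro n hn
  obtain ⟨g, rfl⟩ := mem_lam.mp hn
  exact h g

/-- elements of `Hol(G)` fixing `1` are multiplicative. -/
theorem mul_of_mem_Hol {π : Perm G} (h : π ∈ Nrm (lam G)) (h1 : π 1 = 1) (x y : G) :
    π (x * y) = π x * π y := by
  obtain ⟨x', hx'⟩ := mem_lam.mp ((h (Equiv.mulLeft x)).mp (mulLeft_mem x))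
  have e : ∀ u, π (x * u) = x' * π u := by
    intro u
    have := congrArg (fun σ : Perm G => σ (π u)) hx'
    simpa [Perm.mul_apply] using this
  have : π x = x' := by
    have := e 1
    rw [mul_one, h1, mul_one] at this
    exact this
  rw [e, this]

/-- elements of `Hol(G)` are affine. -/
theorem affine_of_mem_Hol {π : Perm G} (h : π ∈ Nrm (lam G)) (x u : G) :
    π (x * u) = π x * (π 1)⁻¹ * π u := by
  obtain ⟨x', hx'⟩ := mem_lam.mp ((h (Equiv.mulLeft x)).mp (mulLeft_mem x))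
  have e : ∀ u, π (x * u) = x' * π u := by
    intro u
    have := congrArg (fun σ : Perm G => σ (π u)) hx'
    simpa [Perm.mul_apply] using this
  have h1 : π x = x' * π 1 := by
    have := e 1
    rwa [mul_one] at this
  rw [e, h1]; group

end gen

end Pool.Agent.Lib_helper15.QHol
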