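import Mathlib
import Pool.Agent.Lib_helper15.QHolGen
import Pool.Agent.Lib_helper15.QHolGroup

set_option autoImplicit false

/-! The permutations `β₀, κ₀, η` of `G32`, and the finite checks. -/

namespace Pool.Agent.Lib_helper15.QHol

open Equiv

namespace G32

/-- a permutation from a table and its inverse table -/
def ofTab (T Ti : Nat)
    (h : all32 (fun x => Nat.beq (lk Ti (lk T x)) x && Nat.beq (lk T (lk Ti x)) x) = true) :
    Perm G32 where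
  toFun x := mk' T x.v.1
  invFun x := mk' Ti x.v.1
  left_inv x := by
    have h := all32_iff.mp h x.v.1 x.v.2
    simp only [Bool.and_eq_true] at h
    exact eq_of (Nat.eq_of_beq_eq_true h.1)
  right_inv x := by
    have h := all32_iff.mp h x.v.1 x.v.2
    simp only [Bool.and_eq_true] at h
    exact eq_of (Nat.eq_of_beq_eq_true h.2)

def β₀ : Perm G32 := ofTab Tb0 Tb0i (by decide +kernel)
def κ₀ : Perm G32 := ofTab Tk0 Tk0 (by decide +kernel)
def η : Perm G32 := ofTab Teta Tetai (by decide +kernel)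

def a : G32 := ⟨⟨1, by decide⟩⟩
def b : G32 := ⟨⟨4, by decide⟩⟩
def c : G32 := ⟨⟨16, by decide⟩⟩

theorem ext_nat {x y : G32} : x = y ↔ x.v.1 = y.v.1 := ⟨fun h => by rw [h], eq_of⟩

/-- every element is `a^i b^j c^k`. -/
theorem nf (g : G32) : ∃ i j k : ℕ, i < 4 ∧ j < 4 ∧ k < 2 ∧ g = a ^ i * b ^ j * c ^ k := by
  have h : ∀ n : Fin 32, ∃ i : Fin 4, ∃ j : Fin 4, ∃ k : Fin 2,
      (⟨n⟩ : G32) = a ^ i.1 * b ^ j.1 * c ^ k.1 := by
    decide +kernel
  obtain ⟨i, j, k, h⟩ := h g.v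
  exact ⟨i, j, k, i.2, j.2, k.2, h⟩

theorem top_of_gens {H : Subgroup G32} (ha : a ∈ H) (hb : b ∈ H) (hc : c ∈ H) (g : G32) : g ∈ H := by
  obtain ⟨i, j, k, _, _, _, rfl⟩ := nf g
  exact mul_mem (mul_mem (pow_mem ha i) (pow_mem hb j)) (pow_mem hc k)

/-- `g ↦ β λ_g β⁻¹` as a homomorphism. -/
def conjLam (β : Perm G32) : G32 →* Perm G32 :=
  (MulAut.conj β).toMonoidHom.comp (MulAction.toPermHom G32 G32)

theorem conjLam_apply (β : Perm G32) (g : G32) : conjLam β g = β * Equiv.mulLeft g * β⁻¹ := by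
  rfl

theorem mem_Hol_of_gens {π : Perm G32} (h : ∀ t ∈ [a, b, c], ∃ t' : G32, ∀ u, π (t * u) = t' * π u) :
    π ∈ Nrm (lam G32) := by
  apply mem_Hol_of_forall
  intro g
  have key : ∀ t ∈ [a, b, c], t ∈ (lam G32).comap (conjLam π) := by
    intro t ht
    obtain ⟨t', ht'⟩ := h t ht
    rw [Subgroup.mem_comap, conjLam_apply, mem_lam]
    refine ⟨t', Equiv.ext fun u => ?_⟩
    simp only [Perm.mul_apply, Equiv.coe_mulLeft]
    rw [ht']
    exact congrArg (t' * ·) (Equiv.apply_symm_apply π u)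
  have := top_of_gens (key a (by simp)) (key b (by simp)) (key c (by simp)) g
  rw [Subgroup.mem_comap, conjLam_apply] at this
  exact this

/-- `cj β (lam G) ≤ H` if the generators go in. -/
theorem cj_lam_le {β : Perm G32} {H : Subgroup (Perm G32)}
    (h : ∀ t ∈ [a, b, c], β * Equiv.mulLeft t * β⁻¹ ∈ H) : cj β (lam G32) ≤ H := by
  have key : ∀ t ∈ [a, b, c], t ∈ H.comap (conjLam β) := by
    intro t ht
    rw [Subgroup.mem_comap, conjLam_apply]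
    exact h t ht
  have h3 := top_of_gens (key a (by simp)) (key b (by simp)) (key c (by simp))
  intro π hπ
  rw [mem_cj, mem_lam] at hπ
  obtain ⟨g, hg⟩ := hπ
  have := h3 g
  rw [Subgroup.mem_comap, conjLam_apply, ← hg] at this
  have e : β * (β⁻¹ * π * β) * β⁻¹ = π := by group
  rwa [e] at this

theorem SR_of_gens {β : Perm G32}
    (h1 : ∀ t ∈ [a, b, c], β * Equiv.mulLeft t * β⁻¹ ∈ Nrm (lam G32))
    (h2 : ∀ t ∈ [a, b, c], β⁻¹ * Equiv.mulLeft t * β ∈ Nrm (lam G32)) :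
    cj β (lam G32) ∈ SS G32 ∩ RR G32 := by
  refine ⟨⟨isReg_cj isReg_lam β, nonempty_iso_cj β, cj_lam_le h1⟩,
    ⟨isReg_cj isReg_lam β, nonempty_iso_cj β, ?_⟩⟩
  have h3 : ∀ t ∈ [a, b, c], β⁻¹ * Equiv.mulLeft t * (β⁻¹)⁻¹ ∈ Nrm (lam G32) := by
    intro t ht
    rw [inv_inv]; exact h2 t ht
  have h4 := cj_lam_le h3
  intro π hπ
  rw [mem_Nrm_cj]
  apply h4
  rw [mem_cj]
  have e : (β⁻¹)⁻¹ * (β⁻¹ * π * β) * β⁻¹ = π := by group
  rw [e]; exact hπ

/-- `Hol`-membership in decidable form. -/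
theorem mem_Hol_of_chk {π : Perm G32}
    (h : ∀ t ∈ [a, b, c], ∀ u : Fin 32, π (t * ⟨u⟩) = π t * (π 1)⁻¹ * π ⟨u⟩) :
    π ∈ Nrm (lam G32) :=
  mem_Hol_of_gens fun t ht => ⟨π t * (π 1)⁻¹, fun u => h t ht u.v⟩

theorem M0_mem : cj β₀ (lam G32) ∈ SS G32 ∩ RR G32 := by
  apply SR_of_gens
  · intro t ht
    apply mem_Hol_of_chk
    revert t
    decide +kernel
  · intro t ht
    apply mem_Hol_of_chk
    revert t
    decide +kernel

theorem K0_mem : cj κ₀ (lam G32) ∈ SS G32 ∩ RR G32 := by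
  apply SR_of_gens
  · intro t ht
    apply mem_Hol_of_chk
    revert t
    decide +kernel
  · intro t ht
    apply mem_Hol_of_chk
    revert t
    decide +kernel

theorem N1_mem : cj η (lam G32) ∈ SS G32 ∩ RR G32 := by
  apply SR_of_gens
  · intro t ht
    apply mem_Hol_of_chk
    revert t
    decide +kernel
  · intro t ht
    apply mem_Hol_of_chk
    revert t
    decide +kernel

theorem L_mem : cj (β₀ * κ₀) (lam G32) ∈ SS G32 ∩ RR G32 := by
  apply SR_of_gens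
  · intro t ht
    apply mem_Hol_of_chk
    revert t
    decide +kernel
  · intro t ht
    apply mem_Hol_of_chk
    revert t
    decide +kernel

theorem L_not : ¬ (cj η (lam G32) ≤ Nrm (cj (β₀ * κ₀) (lam G32))) := by
  intro h
  have h1 : ∀ t : G32, (β₀ * κ₀)⁻¹ * (η * Equiv.mulLeft t * η⁻¹) * (β₀ * κ₀) ∈ Nrm (lam G32) := by
    intro t
    rw [← mem_Nrm_cj]
    apply h
    rw [mem_cj]
    have e : η⁻¹ * (η * Equiv.mulLeft t * η⁻¹) * η = Equiv.mulLeft t := by group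
    rw [e]; exact mulLeft_mem t
  have h2 : ∀ t x u : Fin 32,
      ((β₀ * κ₀)⁻¹ * (η * Equiv.mulLeft (⟨t⟩ : G32) * η⁻¹) * (β₀ * κ₀)) ((⟨x⟩ : G32) * ⟨u⟩) =
      ((β₀ * κ₀)⁻¹ * (η * Equiv.mulLeft (⟨t⟩ : G32) * η⁻¹) * (β₀ * κ₀)) ⟨x⟩ *
      (((β₀ * κ₀)⁻¹ * (η * Equiv.mulLeft (⟨t⟩ : G32) * η⁻¹) * (β₀ * κ₀)) 1)⁻¹ *
      ((β₀ * κ₀)⁻¹ * (η * Equiv.mulLeft (⟨t⟩ : G32) * η⁻¹) * (β₀ * κ₀)) ⟨u⟩ :=
    fun t x u => affine_of_mem_Hol (h1 ⟨t⟩) ⟨x⟩ ⟨u⟩
  revert h2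
  decide +kernel

end G32

end Pool.Agent.Lib_helper15.QHol
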