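import Mathlib
import Pool.Agent.Lib_helper15.QHolPerm

set_option autoImplicit false

/-! Automorphisms of `G32` with `ε_a(α b) = 0` normalise `M₀` and `K₀`. -/

namespace Pool.Agent.Lib_helper15.QHol

open Equiv

namespace G32

/-- the map `a^i b^j c^k ↦ x^i y^j w^k` -/
def af (x y w g : G32) : G32 := x ^ (g.v.1 % 4) * y ^ (g.v.1 / 4 % 4) * w ^ (g.v.1 / 16)

theorem nf' (g : G32) : g = af a b c g := by
  have h : ∀ n : Fin 32, (⟨n⟩ : G32) = af a b c ⟨n⟩ := by decide +kernel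
  exact h g.v

theorem eq_af {α : Perm G32} (hα : ∀ x y, α (x * y) = α x * α y) (g : G32) :
    α g = af (α a) (α b) (α c) g := by
  have h1 : α 1 = 1 := by
    have := hα 1 1
    rw [mul_one] at this
    exact (left_eq_mul.mp this)
  let φ : G32 →* G32 := ⟨⟨α, h1⟩, hα⟩
  have h2 : ∀ x, α x = φ x := fun _ => rfl
  conv_lhs => rw [nf' g]
  unfold af
  rw [h2, map_mul, map_mul, map_pow, map_pow, map_pow]
  rfl

def X : List G32 := [⟨1⟩, ⟨3⟩, ⟨9⟩, ⟨11⟩]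
def Y : List G32 := [⟨4⟩, ⟨6⟩, ⟨12⟩, ⟨14⟩, ⟨20⟩, ⟨22⟩, ⟨28⟩, ⟨30⟩]
def W : List G32 := [⟨16⟩, ⟨18⟩, ⟨24⟩, ⟨26⟩]

set_option maxRecDepth 100000 in
theorem chk_aut : ∀ x ∈ X, ∀ y ∈ Y, ∀ w ∈ W, ∀ t ∈ [a, b, c], ∀ u : Fin 32,
    β₀⁻¹ (af x y w (β₀ (t * ⟨u⟩))) =
      β₀⁻¹ (af x y w (β₀ t)) * (β₀⁻¹ (af x y w (β₀ 1)))⁻¹ * β₀⁻¹ (af x y w (β₀ ⟨u⟩)) := by
  decide +kernel

set_option maxRecDepth 100000 in
theorem chk_autK : ∀ x ∈ X, ∀ y ∈ Y, ∀ w ∈ W, ∀ t ∈ [a, b, c], ∀ u : Fin 32,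
    κ₀⁻¹ (af x y w (κ₀ (t * ⟨u⟩))) =
      κ₀⁻¹ (af x y w (κ₀ t)) * (κ₀⁻¹ (af x y w (κ₀ 1)))⁻¹ * κ₀⁻¹ (af x y w (κ₀ ⟨u⟩)) := by
  decide +kernel

/-- `ε_a` and `ε_b` : exponents of `a`, `b` mod 2 -/
def ea (g : G32) : ℕ := g.v.1 % 2
def eb (g : G32) : ℕ := g.v.1 / 4 % 2

def z : G32 := ⟨2⟩

theorem chk_comm : ∀ x y : Fin 32, (⟨x⟩ : G32) * ⟨y⟩ * (⟨x⟩ : G32)⁻¹ * (⟨y⟩ : G32)⁻¹ = 1 ∨
    (⟨x⟩ : G32) * ⟨y⟩ * (⟨x⟩ : G32)⁻¹ * (⟨y⟩ : G32)⁻¹ = z := by decide +kernel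

theorem chk_exp : ∀ x : Fin 32, (⟨x⟩ : G32) ^ 4 = 1 := by decide +kernel

theorem chk_X : ∀ x : Fin 32, (⟨x⟩ : G32) * ⟨x⟩ = z → ⟨x⟩ * b = b * (⟨x⟩ : G32) →
    ⟨x⟩ * c = c * (⟨x⟩ : G32) → (⟨x⟩ : G32) ∈ X := by decide +kernel

theorem chk_W : ∀ x y : Fin 32, (⟨x⟩ : G32) * ⟨x⟩ = 1 → ⟨x⟩ * ⟨y⟩ ≠ (⟨y⟩ : G32) * (⟨x⟩ : G32) →
    (⟨x⟩ : G32) ∈ W := by decide +kernel

theorem chk_Y : ∀ x : Fin 32, (⟨x⟩ : G32) * ⟨x⟩ ≠ 1 → (⟨x⟩ : G32) * ⟨x⟩ ≠ z →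
    ea ⟨x⟩ = 0 → (⟨x⟩ : G32) ∈ Y := by decide +kernel

theorem comm_mem (x y : G32) : x * y * x⁻¹ * y⁻¹ = 1 ∨ x * y * x⁻¹ * y⁻¹ = z := chk_comm x.v y.v

section aut

variable {α : Perm G32} (hα : ∀ x y, α (x * y) = α x * α y)

include hα

theorem aut_one : α 1 = 1 := by
  have := hα 1 1
  rw [mul_one] at this
  exact (left_eq_mul.mp this)

theorem aut_inv (x : G32) : α x⁻¹ = (α x)⁻¹ := by
  have := hα x x⁻¹
  rw [mul_inv_cancel, aut_one hα] at this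
  exact (inv_eq_of_mul_eq_one_right this.symm).symm

theorem aut_z : α z = z := by
  have h1 : z = c * b * c⁻¹ * b⁻¹ := by decide +kernel
  have h2 : α z = α c * α b * (α c)⁻¹ * (α b)⁻¹ := by
    rw [h1, hα, hα, hα, aut_inv hα, aut_inv hα]
  rcases comm_mem (α c) (α b) with h3 | h3
  · exfalso
    rw [← h2, ← aut_one hα] at h3
    have := α.injective h3
    revert this
    decide +kernel
  · rw [h2, h3]

theorem aut_X : α a ∈ X := by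
  have hc : ∀ g, α a * g = g * α a := by
    intro g
    obtain ⟨g', rfl⟩ := α.surjective g
    rw [← hα, ← hα]
    congr 1
    have : ∀ n : Fin 32, a * (⟨n⟩ : G32) = ⟨n⟩ * a := by decide +kernel
    exact this g'.v
  refine chk_X (α a).v ?_ (hc b) (hc c)
  have h1 : a * a = z := by decide +kernel
  calc α a * α a = α (a * a) := (hα a a).symm
    _ = z := by rw [h1, aut_z hα]

theorem aut_W : α c ∈ W := by
  refine chk_W (α c).v (α b).v ?_ ?_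
  · have h1 : c * c = 1 := by decide +kernel
    calc α c * α c = α (c * c) := (hα c c).symm
      _ = 1 := by rw [h1, aut_one hα]
  · intro h
    have h2 : α (c * b) = α (b * c) := by
      rw [hα, hα]; exact h
    have := α.injective h2
    revert this
    decide +kernel

theorem aut_b1 : α b * α b ≠ 1 := by
  intro h
  rw [← hα, ← aut_one hα] at h
  have := α.injective h
  revert this
  decide +kernel

theorem aut_bz : α b * α b ≠ z := by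
  intro h
  rw [← hα, ← aut_z hα] at h
  have := α.injective h
  revert this
  decide +kernel

theorem aut_Y (h : ea (α b) = 0) : α b ∈ Y :=
  chk_Y (α b).v (aut_b1 hα) (aut_bz hα) h

theorem aut_norm_M0 (h : ea (α b) = 0) : α ∈ Nrm (cj β₀ (lam G32)) := by
  rw [mem_Nrm_cj]
  apply mem_Hol_of_chk
  intro t ht u
  have := chk_aut (α a) (aut_X hα) (α b) (aut_Y hα h) (α c) (aut_W hα) t ht u
  rw [← eq_af hα, ← eq_af hα, ← eq_af hα, ← eq_af hα] at this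
  exact this

theorem aut_norm_K0 (h : ea (α b) = 0) : α ∈ Nrm (cj κ₀ (lam G32)) := by
  rw [mem_Nrm_cj]
  apply mem_Hol_of_chk
  intro t ht u
  have := chk_autK (α a) (aut_X hα) (α b) (aut_Y hα h) (α c) (aut_W hα) t ht u
  rw [← eq_af hα, ← eq_af hα, ← eq_af hα, ← eq_af hα] at this
  exact this

end aut

end G32

end Pool.Agent.Lib_helper15.QHol
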