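import Mathlib
import Pool.Agent.Lib_helper15.QHolGen

set_option autoImplicit false
set_option linter.unusedSectionVars false

/-! The gamma function of a member of `S(G) ∩ R(G)`. -/

namespace Pool.Agent.Lib_helper15.QHol

open Equiv

section

variable {G : Type} [Group G]

theorem gamma_exists {N : Subgroup (Perm G)} (hN : N ∈ SS G ∩ RR G) :
    ∃ γ : G → Perm G, (∀ g, Equiv.mulLeft g * γ g ∈ N) ∧ (∀ g, γ g 1 = 1) ∧
      (∀ g, γ g ∈ Nrm (lam G)) ∧
      (∀ g x y, γ g (x * y) = γ g x * γ g y) ∧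
      (∀ n ∈ N, n = Equiv.mulLeft (n 1) * γ (n 1)) ∧
      (∀ g h, γ (g * γ g h) = γ g * γ h) ∧ (∀ g h, γ (h * g) = γ g * γ h) := by
  obtain ⟨⟨h1, _, h3⟩, ⟨_, _, h4⟩⟩ := hN
  choose ν hν hνu using fun g => h1 1 g
  have hval : ∀ g, ν g 1 = g := fun g => (hν g).2
  have hmem : ∀ g, ν g ∈ N := fun g => (hν g).1
  have huniq : ∀ n ∈ N, n = ν (n 1) := fun n hn => hνu (n 1) n ⟨hn, rfl⟩
  let γ : G → Perm G := fun g => (Equiv.mulLeft g)⁻¹ * ν g
  have hγ : ∀ g, Equiv.mulLeft g * γ g = ν g := fun g => mul_inv_cancel_left _ _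
  have hγ1 : ∀ g, γ g 1 = 1 := by
    intro g
    have : γ g 1 = g⁻¹ * ν g 1 := rfl
    rw [this, hval]; group
  have hlam : ∀ g : G, Equiv.mulLeft g ∈ Nrm (lam G) := by
    intro g
    exact (Subgroup.le_normalizer : lam G ≤ _) (mulLeft_mem g)
  have hγH : ∀ g, γ g ∈ Nrm (lam G) := by
    intro g
    exact mul_mem (inv_mem (hlam g)) (h3 (hmem g))
  have hγm : ∀ g x y, γ g (x * y) = γ g x * γ g y :=
    fun g x y => mul_of_mem_Hol (hγH g) (hγ1 g) x y
  have hνapp : ∀ g x, ν g x = g * γ g x := by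
    intro g x
    rw [← hγ g]; rfl
  -- the group law of N
  have hA : ∀ g h, γ (g * γ g h) = γ g * γ h := by
    intro g h
    have e1 : ν g * ν h = ν (g * γ g h) := by
      have := huniq (ν g * ν h) (mul_mem (hmem g) (hmem h))
      rw [this]
      congr 1
      rw [Perm.mul_apply, hval, hνapp]
    ext x
    have e2 := congrArg (fun σ : Perm G => σ x) e1
    simp only [Perm.mul_apply, hνapp, hγm] at e2
    rw [← mul_assoc] at e2
    rw [Perm.mul_apply]
    exact (mul_left_cancel e2).symm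
  -- stability under conjugation by λ
  have hB : ∀ g h, γ (h * g * (γ g h)⁻¹) = γ g := by
    intro g h
    have hm : Equiv.mulLeft h * ν g * (Equiv.mulLeft h)⁻¹ ∈ N :=
      (h4 (mulLeft_mem h) (ν g)).mp (hmem g)
    have e1 := huniq _ hm
    have e0 : ∀ x, (Equiv.mulLeft h * ν g * (Equiv.mulLeft h)⁻¹) x = h * (g * γ g (h⁻¹ * x)) := by
      intro x
      rw [← hνapp]; rfl
    have hinv : γ g h⁻¹ = (γ g h)⁻¹ := by
      have := hγm g h h⁻¹
      rw [mul_inv_cancel, hγ1] at this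
      exact (inv_eq_of_mul_eq_one_right this.symm).symm
    rw [e0, mul_one, hinv, ← mul_assoc] at e1
    ext x
    have e2 := congrArg (fun σ : Perm G => σ x) e1
    simp only [e0, hνapp, hγm, hinv] at e2
    rw [← mul_assoc, ← mul_assoc] at e2
    exact (mul_left_cancel e2).symm
  refine ⟨γ, fun g => by rw [hγ]; exact hmem g, hγ1, hγH, hγm, ?_, hA, ?_⟩
  · intro n hn
    rw [hγ]; exact huniq n hn
  · intro g h
    have e1 := hB g h
    have e2 := hA (h * g * (γ g h)⁻¹) h
    rw [e1] at e2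
    rw [inv_mul_cancel_right] at e2
    exact e2

end

end Pool.Agent.Lib_helper15.QHol
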