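import Mathlib
import Pool.Agent.Lib_helper15.QHolStruct
import Pool.Agent.Lib_helper15.QHolAut

set_option autoImplicit false

/-! Every member of `S(G) ∩ R(G)` normalises `M₀` and `K₀`. -/

namespace Pool.Agent.Lib_helper15.QHol

open Equiv

namespace G32

/-- commutator structure of `N ≅ G32` normalised by `λ(G)` -/
theorem comm_struct {N : Subgroup (Perm G32)} (hN : N ∈ SS G32 ∩ RR G32) :
    ∃ κ : G32, κ * κ = 1 ∧ ∀ n ∈ N, ∀ m ∈ N, (n * m) 1 = (m * n) 1 ∨ (n * m) 1 = (m * n) 1 * κ := by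
  obtain ⟨⟨_, ⟨e⟩, _⟩, ⟨_, _, h4⟩⟩ := hN
  let zN : Perm G32 := (e.symm z : N)
  have hzN : zN ∈ N := (e.symm z).2
  have hz2 : z * z = 1 := by decide +kernel
  have hz1 : z ≠ 1 := by decide +kernel
  have hzsq : zN * zN = 1 := by
    have : e.symm z * e.symm z = 1 := by rw [← map_mul, hz2, map_one]
    exact congrArg Subtype.val this
  have hzne : zN ≠ 1 := by
    intro h
    have h1 : e.symm z = 1 := Subtype.ext h
    apply hz1
    have := congrArg e h1
    rwa [MulEquiv.apply_symm_apply, map_one] at this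
  have hcomm : ∀ n ∈ N, ∀ m ∈ N, n * m * n⁻¹ * m⁻¹ = 1 ∨ n * m * n⁻¹ * m⁻¹ = zN := by
    intro n hn m hm
    let n' : N := ⟨n, hn⟩
    let m' : N := ⟨m, hm⟩
    have key : ∀ w : G32, e n' * e m' * (e n')⁻¹ * (e m')⁻¹ = w →
        n * m * n⁻¹ * m⁻¹ = ((e.symm w : N) : Perm G32) := by
      intro w hw
      have h1 : n' * m' * n'⁻¹ * m'⁻¹ = e.symm w := by
        apply e.injective
        rw [MulEquiv.apply_symm_apply, ← hw, map_mul, map_mul, map_mul, map_inv, map_inv]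
      exact congrArg Subtype.val h1
    rcases comm_mem (e n') (e m') with h | h
    · left
      have := key 1 h
      rw [map_one] at this
      exact this
    · right
      exact key z h
  -- zN is fixed by conjugation with λ
  have hfix : ∀ h : G32, Equiv.mulLeft h * zN * (Equiv.mulLeft h)⁻¹ = zN := by
    intro h
    let c' : Perm G32 := (e.symm c : N)
    let b' : Perm G32 := (e.symm b : N)
    have hzc : zN = c' * b' * c'⁻¹ * b'⁻¹ := by
      have h1 : z = c * b * c⁻¹ * b⁻¹ := by decide +kernel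
      have h2 : e.symm z = e.symm c * e.symm b * (e.symm c)⁻¹ * (e.symm b)⁻¹ := by
        rw [h1, map_mul, map_mul, map_mul, map_inv, map_inv]
      exact congrArg Subtype.val h2
    have hc' : Equiv.mulLeft h * c' * (Equiv.mulLeft h)⁻¹ ∈ N :=
      (h4 (mulLeft_mem h) c').mp (e.symm c).2
    have hb' : Equiv.mulLeft h * b' * (Equiv.mulLeft h)⁻¹ ∈ N :=
      (h4 (mulLeft_mem h) b').mp (e.symm b).2
    have h5 : Equiv.mulLeft h * zN * (Equiv.mulLeft h)⁻¹ =
        (Equiv.mulLeft h * c' * (Equiv.mulLeft h)⁻¹) * (Equiv.mulLeft h * b' * (Equiv.mulLeft h)⁻¹) *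
        (Equiv.mulLeft h * c' * (Equiv.mulLeft h)⁻¹)⁻¹ *
        (Equiv.mulLeft h * b' * (Equiv.mulLeft h)⁻¹)⁻¹ := by
      rw [hzc]; group
    rcases hcomm _ hc' _ hb' with h6 | h6
    · exfalso
      rw [h6] at h5
      apply hzne
      have : zN = (Equiv.mulLeft h)⁻¹ * (Equiv.mulLeft h * zN * (Equiv.mulLeft h)⁻¹) *
        Equiv.mulLeft h := by group
      rw [this, h5]; group
    · rw [h5, h6]
  have hzx : ∀ x, zN x = x * zN 1 := by
    intro x
    have h5 : zN * Equiv.mulLeft x = Equiv.mulLeft x * zN := by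
      have h6 := hfix x
      calc zN * Equiv.mulLeft x = (Equiv.mulLeft x * zN * (Equiv.mulLeft x)⁻¹) * Equiv.mulLeft x := by
            rw [h6]
        _ = Equiv.mulLeft x * zN := by group
    have h7 := congrArg (fun σ : Perm G32 => σ 1) h5
    simpa [Perm.mul_apply] using h7
  refine ⟨zN 1, ?_, ?_⟩
  · rw [← hzx]
    have := congrArg (fun σ : Perm G32 => σ 1) hzsq
    simpa [Perm.mul_apply] using this
  · intro n hn m hm
    rcases hcomm n hn m hm with h | h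
    · left
      have : n * m = m * n := by
        have h8 : n * m = (n * m * n⁻¹ * m⁻¹) * (m * n) := by group
        rw [h8, h, one_mul]
      rw [this]
    · right
      have : n * m = zN * (m * n) := by
        have h8 : n * m = (n * m * n⁻¹ * m⁻¹) * (m * n) := by group
        rw [h8, h]
      rw [this, Perm.mul_apply zN, hzx]

theorem exp_four {N : Subgroup (Perm G32)} (hN : N ∈ SS G32 ∩ RR G32) {n : Perm G32} (hn : n ∈ N) :
    n ^ 4 = 1 := by
  obtain ⟨⟨_, ⟨e⟩, _⟩, _⟩ := hN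
  have h : (⟨n, hn⟩ : N) ^ 4 = 1 := by
    apply e.injective
    rw [map_pow, map_one]
    exact chk_exp (e ⟨n, hn⟩).v
  exact congrArg Subtype.val h

theorem chk_ea_mul : ∀ x y : Fin 32, ea ((⟨x⟩ : G32) * ⟨y⟩) = (ea ⟨x⟩ + ea ⟨y⟩) % 2 := by
  decide +kernel

theorem ea_mul (x y : G32) : ea (x * y) = (ea x + ea y) % 2 := chk_ea_mul x.v y.v

theorem chk_ea_sq : ∀ x : Fin 32, (⟨x⟩ : G32) * ⟨x⟩ = 1 → ea ⟨x⟩ = 0 := by decide +kernel

set_option maxRecDepth 100000 in
theorem chk_ea_af : ∀ x ∈ X, ∀ y : Fin 32, ∀ w ∈ W, ∀ u : Fin 32,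
    ea (af x ⟨y⟩ w ⟨u⟩) = (ea ⟨u⟩ + eb ⟨u⟩ * ea ⟨y⟩) % 2 := by decide +kernel

theorem ea_aut {α : Perm G32} (hα : ∀ x y, α (x * y) = α x * α y) (g : G32) :
    ea (α g) = (ea g + eb g * ea (α b)) % 2 := by
  rw [eq_af hα]
  exact chk_ea_af _ (aut_X hα) (α b).v _ (aut_W hα) g.v

/-- the final finite check. -/
def badChk (x y w : G32) : Prop :=
  ea y = 1 → y * y ≠ 1 → y * y ≠ z →
    b * af x y w (b * af x y w (b * af x y w (b * af x y w 1))) = 1 →
    (b⁻¹ * y) * (b⁻¹ * y) = z ∧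
    ((b⁻¹ * y)⁻¹ * af x y w (b⁻¹ * y) = b * b ∨ (b⁻¹ * y)⁻¹ * af x y w (b⁻¹ * y) = b * b * z) ∧
    af x y w (af x y w (b⁻¹ * y)) ≠ b⁻¹ * y

instance (x y w : G32) : Decidable (badChk x y w) := by unfold badChk; infer_instance

set_option maxRecDepth 100000 in
theorem chk_bad : ∀ x ∈ X, ∀ y : Fin 32, ∀ w ∈ W, badChk x ⟨y⟩ w := by decide +kernel

theorem key {N : Subgroup (Perm G32)} (hN : N ∈ SS G32 ∩ RR G32) :
    ∀ n ∈ N, ∃ (g : G32) (α : Perm G32), n = Equiv.mulLeft g * α ∧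
      (∀ x y, α (x * y) = α x * α y) ∧ ea (α b) = 0 := by
  obtain ⟨γ, hmem, hγ1, hγH, hγm, hn, hA, hB⟩ := gamma_exists hN
  obtain ⟨κ, hκ, hcomm⟩ := comm_struct hN
  have hκ0 : ea κ = 0 := chk_ea_sq κ.v hκ
  have ea_lt : ∀ g, ea g < 2 := fun g => Nat.mod_lt _ (by norm_num)
  have heb : ea b = 0 := by decide +kernel
  -- step 1
  have h1 : ∀ g, ea (γ g b) = (eb g * ea (γ b b)) % 2 := by
    intro g
    have h2 := hcomm _ (hmem g) _ (hmem b)
    simp only [Perm.mul_apply, Equiv.coe_mulLeft, hγ1, mul_one] at h2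
    have h3 : ea (g * γ g b) = ea (b * γ b g) := by
      rcases h2 with h2 | h2
      · rw [h2]
      · rw [h2, ea_mul (b * γ b g) κ, hκ0]
        have := ea_lt (b * γ b g)
        omega
    rw [ea_mul, ea_mul, ea_aut (hγm b) g, heb] at h3
    have h4 := ea_lt (γ g b)
    have h5 := ea_lt g
    omega
  have h6 : ea (γ b b) = 0 := by
    by_contra h7
    have h8 : ea (γ b b) = 1 := by have := ea_lt (γ b b); omega
    -- δ g = (γ g)⁻¹ is a homomorphism
    have hγone : γ 1 = 1 := by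
      have := hB 1 1
      rw [mul_one] at this
      exact (left_eq_mul.mp this)
    let δ : G32 →* Perm G32 :=
      { toFun := fun g => (γ g)⁻¹
        map_one' := by rw [hγone, inv_one]
        map_mul' := fun g h => by
          change (γ (g * h))⁻¹ = (γ g)⁻¹ * (γ h)⁻¹
          rw [hB, mul_inv_rev] }
    have hδ : ∀ g, δ g = (γ g)⁻¹ := fun g => rfl
    have hδγ : ∀ g h, δ (γ g h) = γ g * δ h * (γ g)⁻¹ := by
      intro g h
      have h9 := hA g h
      rw [hB] at h9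
      -- γ (γ g h) * γ g = γ g * γ h
      have h10 : γ (γ g h) = γ g * γ h * (γ g)⁻¹ := by rw [← h9]; group
      rw [hδ, hδ, h10]; group
    have hcb := chk_bad _ (aut_X (hγm b)) (γ b b).v _ (aut_W (hγm b)) h8 (aut_b1 (hγm b))
      (aut_bz (hγm b))
    have haf : ∀ g, af (γ b a) (γ b b) (γ b c) g = γ b g := fun g => (eq_af (hγm b) g).symm
    change b * af (γ b a) (γ b b) (γ b c) (b * af (γ b a) (γ b b) (γ b c)
      (b * af (γ b a) (γ b b) (γ b c) (b * af (γ b a) (γ b b) (γ b c) 1))) = 1 →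
      (b⁻¹ * (γ b b)) * (b⁻¹ * (γ b b)) = z ∧
    ((b⁻¹ * (γ b b))⁻¹ * af (γ b a) (γ b b) (γ b c) (b⁻¹ * (γ b b)) = b * b ∨
      (b⁻¹ * (γ b b))⁻¹ * af (γ b a) (γ b b) (γ b c) (b⁻¹ * (γ b b)) = b * b * z) ∧
    af (γ b a) (γ b b) (γ b c) (af (γ b a) (γ b b) (γ b c) (b⁻¹ * (γ b b))) ≠ b⁻¹ * (γ b b) at hcb
    simp only [haf] at hcb
    have hexp := exp_four hN (hmem b)
    have hexp1 : b * γ b (b * γ b (b * γ b (b * γ b 1))) = 1 := by
      have := congrArg (fun σ : Perm G32 => σ 1) hexp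
      simpa [pow_succ, Perm.mul_apply] using this
    obtain ⟨hr, hω, hne⟩ := hcb hexp1
    have hδr : δ (b⁻¹ * γ b b) = 1 := by
      rw [map_mul, hδγ, map_inv, hδ]; group
    have hδz : δ z = 1 := by
      rw [← hr, map_mul, hδr, one_mul]
    have hδω : δ ((b⁻¹ * γ b b)⁻¹ * γ b (b⁻¹ * γ b b)) = 1 := by
      rw [map_mul, hδγ, map_inv, hδr]; group
    have hδbb : δ (b * b) = 1 := by
      rcases hω with hω | hω
      · rw [← hω]; exact hδω
      · have h11 : δ (b * b * z) = 1 := by rw [← hω]; exact hδω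
        rw [map_mul, hδz, mul_one] at h11
        exact h11
    apply hne
    rw [map_mul, hδ] at hδbb
    have h12 : γ b * γ b = 1 := by
      have : γ b * γ b = ((γ b)⁻¹ * (γ b)⁻¹)⁻¹ := by rw [mul_inv_rev, inv_inv]
      rw [this, hδbb, inv_one]
    have h13 := congrArg (fun σ : Perm G32 => σ (b⁻¹ * γ b b)) h12
    simpa [Perm.mul_apply] using h13
  intro n hnN
  refine ⟨n 1, γ (n 1), hn n hnN, hγm _, ?_⟩
  rw [h1, h6]
  simp

theorem lam_norm {M : Subgroup (Perm G32)} (hM : M ∈ SS G32 ∩ RR G32) (g : G32) :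
    Equiv.mulLeft g ∈ Nrm M := hM.2.2.2 (mulLeft_mem g)

theorem M0_Q : cj β₀ (lam G32) ∈ QQ G32 := by
  refine ⟨M0_mem, ?_⟩
  intro N hN n hn
  obtain ⟨g, α, rfl, hα, h0⟩ := key hN n hn
  exact mul_mem (lam_norm M0_mem g) (aut_norm_M0 hα h0)

theorem K0_Q : cj κ₀ (lam G32) ∈ QQ G32 := by
  refine ⟨K0_mem, ?_⟩
  intro N hN n hn
  obtain ⟨g, α, rfl, hα, h0⟩ := key hN n hn
  exact mul_mem (lam_norm K0_mem g) (aut_norm_K0 hα h0)

theorem L_not_Q : cj (β₀ * κ₀) (lam G32) ∉ QQ G32 := by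
  intro h
  exact L_not (h.2 _ N1_mem)

theorem main : QQ G32 ⊂ SS G32 ∩ RR G32 ∧
    ¬ ∃ A : Set (Perm G32), IsRepSet A ∧ ConjClosed A := by
  constructor
  · refine ⟨fun M hM => hM.1, fun h => L_not_Q (h L_mem)⟩
  · apply no_conjClosed M0_Q K0_Q
    rw [← cj_mul]
    exact L_not_Q

end G32

end Pool.Agent.Lib_helper15.QHol
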