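import Pool.Agent.Lib_helper45.REll.Defs2

open scoped BigOperators ComplexConjugate
open Polynomial

namespace Pool.Agent.REll
variable {F : Type} [Field F]

theorem cp_mul {V : Type} [AddCommGroup V] [Module F V] [Finite V] (g : V ≃ₗ[F] V)
    (W : Stab g) : cp g = cp (sub g W) * cp (quo g W) := by
  have : Module.Finite F V := Module.Finite.of_finite
  have : Module.Finite F W.1 := Module.Finite.of_finite
  have : Module.Finite F (V ⧸ W.1) := Module.Finite.of_finite
  unfold cp
  classical
  let bW := Module.finBasis F W.1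
  let bQ := Module.finBasis F (V ⧸ W.1)
  have hmem : ∀ w : W.1, g w ∈ W.1 := fun w => by
    have h1 : g (w : V) ∈ W.1.map (g : V →ₗ[F] V) := ⟨w, w.2, rfl⟩
    have h2 := W.2
    rwa [h2] at h1
  have hM : LinearMap.toMatrix (bW.sumQuot bQ) (bW.sumQuot bQ) (g : V →ₗ[F] V) =
      Matrix.fromBlocks (LinearMap.toMatrix bW bW (sub g W : W.1 →ₗ[F] W.1))
        (Matrix.of fun i j => (bW.sumQuot bQ).repr (g ((bW.sumQuot bQ) (Sum.inr j))) (Sum.inl i)) 0
        (LinearMap.toMatrix bQ bQ (quo g W : (V ⧸ W.1) →ₗ[F] (V ⧸ W.1))) := by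
    ext i j
    rcases i with i | i <;> rcases j with j | j
    · rw [LinearMap.toMatrix_apply, Matrix.fromBlocks_apply₁₁, LinearMap.toMatrix_apply,
        Module.Basis.sumQuot_inl]
      rw [LinearEquiv.coe_coe, Module.Basis.sumQuot_repr_inl_of_mem bW bQ _ (hmem _)]
      rfl
    · rw [LinearMap.toMatrix_apply, Matrix.fromBlocks_apply₁₂]
      rfl
    · rw [LinearMap.toMatrix_apply, Matrix.fromBlocks_apply₂₁, Module.Basis.sumQuot_inl,
        LinearEquiv.coe_coe, Module.Basis.sumQuot_repr_inr_of_mem bW bQ _ (hmem _)]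
      rfl
    · rw [LinearMap.toMatrix_apply, Matrix.fromBlocks_apply₂₂, LinearMap.toMatrix_apply,
        Module.Basis.sumQuot_repr_inr]
      congr 1
      have : bQ j = Submodule.Quotient.mk (bW.sumQuot bQ (Sum.inr j)) :=
        (Module.Basis.sumQuot_inr bW bQ j).symm
      rw [this]
      rfl
  rw [← LinearMap.charpoly_toMatrix _ (bW.sumQuot bQ), hM, Matrix.charpoly_fromBlocks_zero₂₁,
    LinearMap.charpoly_toMatrix, LinearMap.charpoly_toMatrix]

theorem cp_tri {A B : Type} [AddCommGroup A] [Module F A] [Finite A]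
    [AddCommGroup B] [Module F B] [Finite B] (α : A ≃ₗ[F] A) (β : B ≃ₗ[F] B) (u : B →ₗ[F] A) :
    cp (tri α β u) = cp α * cp β := by
  have : Module.Finite F A := Module.Finite.of_finite
  have : Module.Finite F B := Module.Finite.of_finite
  have : Module.Finite F (B × A) := Module.Finite.of_finite
  unfold cp
  classical
  let bA := Module.finBasis F A
  let bB := Module.finBasis F B
  have hM : LinearMap.toMatrix (bB.prod bA) (bB.prod bA) (tri α β u : (B × A) →ₗ[F] (B × A)) =
      Matrix.fromBlocks (LinearMap.toMatrix bB bB (β : B →ₗ[F] B)) 0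
        (LinearMap.toMatrix bB bA u) (LinearMap.toMatrix bA bA (α : A →ₗ[F] A)) := by
    ext i j
    rcases i with i | i <;> rcases j with j | j <;>
      simp [LinearMap.toMatrix_apply]
  rw [← LinearMap.charpoly_toMatrix _ (bB.prod bA), hM, Matrix.charpoly_fromBlocks_zero₁₂,
    LinearMap.charpoly_toMatrix, LinearMap.charpoly_toMatrix, mul_comm]

theorem cp_monic {V : Type} [AddCommGroup V] [Module F V] [Finite V] (g : V ≃ₗ[F] V) :
    (cp g).Monic ∧ (cp g).natDegree = Module.finrank F V ∧ (cp g).coeff 0 ≠ 0 := by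
  have : Module.Finite F V := Module.Finite.of_finite
  refine ⟨LinearMap.charpoly_monic _, LinearMap.charpoly_natDegree _, ?_⟩
  unfold cp
  intro h
  have h1 := LinearMap.det_eq_sign_charpoly_coeff (g : V →ₗ[F] V)
  rw [h, mul_zero] at h1
  have h2 := LinearEquiv.isUnit_det' g
  rw [h1] at h2
  exact not_isUnit_zero h2

end Pool.Agent.REll
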