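import Pool.Agent.Lib_helper15.REll_VALR
import Pool.Agent.Lib_helper53.REll_PRIM
import Pool.Agent.Lib_helper97.REll_KF

/-! Block GAM: the cyclic vector trick (no need for `Big`). -/

open scoped BigOperators ComplexConjugate
open Polynomial

namespace Pool.Agent.REll
variable {F : Type} [Field F]

namespace Cyc

section coprime
variable {A B : Type} [AddCommGroup A] [Module F A] [Finite A] [AddCommGroup B] [Module F B]
  [Finite B]

theorem sylvester {α : A ≃ₗ[F] A} {β : B ≃ₗ[F] B} (h : IsCoprime (cp α) (cp β))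
    (u : B →ₗ[F] A) : ∃ X : B →ₗ[F] A, ∀ b, α (X b) - X (β b) = u b := by
  let S : (B →ₗ[F] A) →ₗ[F] (B →ₗ[F] A) :=
    { toFun := fun X => (α : A →ₗ[F] A) ∘ₗ X - X ∘ₗ (β : B →ₗ[F] B)
      map_add' := by intro X Y; ext b; simp; abel
      map_smul' := by intro c X; ext b; simp [smul_sub] }
  have hinj : Function.Injective S := by
    rw [← LinearMap.ker_eq_bot, LinearMap.ker_eq_bot']
    intro X hX
    have h1 : ∀ b, α (X b) = X (β b) := by
      intro b
      have := LinearMap.congr_fun hX b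
      exact sub_eq_zero.1 this
    have h2 : ∀ (p : F[X]) (b : B), pv α (X b) p = X (pv β b p) := by
      intro p b
      induction p using Polynomial.induction_on' with
      | add p q hp hq => rw [map_add, map_add, map_add, hp, hq]
      | monomial n a =>
        rw [← C_mul_X_pow_eq_monomial, ← smul_eq_C_mul, map_smul, map_smul, map_smul]
        congr 1
        induction n with
        | zero => rw [pow_zero, pv_one, pv_one]
        | succ n ih => rw [pow_succ', pv_X, pv_X, ih, h1]
    obtain ⟨a, c, hac⟩ := h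
    ext b
    have h3 := h2 (a * cp α + c * cp β) b
    rw [hac, pv_one, pv_one] at h3
    have h4 : pv β b (c * cp β) = 0 := by rw [pv_mul, pv_cp, pv_apply, map_zero]
    have h5 : X (pv β b (a * cp α)) = 0 := by
      rw [← h2, pv_mul, pv_cp, pv_apply, map_zero]
    have h6 := congrArg X (pv_one β b)
    rw [← hac, map_add, h4, add_zero, h5] at h6
    exact h6.symm
  obtain ⟨X, hX⟩ := (Finite.injective_iff_surjective.1 hinj) u
  exact ⟨X, fun b => LinearMap.congr_fun hX b⟩

theorem coprod_coprime (k : CF F) {α : A ≃ₗ[F] A} {β : B ≃ₗ[F] B}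
    (h : IsCoprime (cp α) (cp β)) : CF.coprod k α β = k (B × A) (tri α β 0) := by
  have h1 : ∀ u : B →ₗ[F] A, k (B × A) (tri α β u) = k (B × A) (tri α β 0) := by
    intro u
    obtain ⟨X, hX⟩ := sylvester h u
    apply k.inv' _ _ (LinearEquiv.skewProd (LinearEquiv.refl F B) (LinearEquiv.refl F A) X)
    rintro ⟨b, a⟩
    simp only [tri_apply, LinearEquiv.skewProd_apply, LinearEquiv.refl_apply,
      LinearMap.zero_apply, add_zero, map_add]
    rw [← hX b]
    congr 1
    abel
  unfold CF.coprod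
  have := Fintype.ofFinite (B →ₗ[F] A)
  rw [finsum_eq_sum_of_fintype, Finset.sum_congr rfl (fun u _ => h1 u), Finset.sum_const,
    Nat.card_eq_fintype_card, Finset.card_univ, nsmul_eq_mul, mul_div_assoc, mul_comm,
    div_mul_cancel₀]
  exact_mod_cast Fintype.card_ne_zero

omit [Finite A] [Finite B] in
theorem pv_tri_zero (α : A ≃ₗ[F] A) (β : B ≃ₗ[F] B) (a : A) (b : B) (p : F[X]) :
    pv (tri α β 0) (b, a) p = (pv β b p, pv α a p) := by
  induction p using Polynomial.induction_on' with
  | add p q hp hq => rw [map_add, map_add, map_add, hp, hq]; rfl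
  | monomial n c =>
    rw [← C_mul_X_pow_eq_monomial, ← smul_eq_C_mul, map_smul, map_smul, map_smul]
    have : pv (tri α β 0) (b, a) (X ^ n) = (pv β b (X ^ n), pv α a (X ^ n)) := by
      induction n with
      | zero => rw [pow_zero, pv_one, pv_one, pv_one]
      | succ n ih =>
        rw [pow_succ', pv_X, pv_X, pv_X, ih, tri_apply]
        simp
    rw [this]; rfl

theorem isCyc_tri_zero {α : A ≃ₗ[F] A} {β : B ≃ₗ[F] B} {a : A} {b : B}
    (h : IsCoprime (cp α) (cp β)) (ha : IsCyc α a) (hb : IsCyc β b) :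
    IsCyc (tri α β 0) (b, a) := by
  rw [isCyc_iff] at ha hb ⊢
  rintro ⟨y, x⟩
  obtain ⟨p, rfl⟩ := ha x
  obtain ⟨r, rfl⟩ := hb y
  obtain ⟨c, d, hcd⟩ := h
  have e1 : pv β b (r * (c * cp α) + p * (d * cp β)) = pv β b r := by
    have : r * (c * cp α) + p * (d * cp β) = r + cp β * ((p - r) * d) := by
      linear_combination r * hcd
    rw [this, map_add, pv_eq_zero_of_dvd β b (dvd_mul_right _ _), add_zero]
  have e2 : pv α a (r * (c * cp α) + p * (d * cp β)) = pv α a p := by
    have : r * (c * cp α) + p * (d * cp β) = p + cp α * ((r - p) * c) := by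
      linear_combination p * hcd
    rw [this, map_add, pv_eq_zero_of_dvd α a (dvd_mul_right _ _), add_zero]
  exact ⟨_, by rw [pv_tri_zero, e1, e2]⟩

end coprime

/-- values of primitive functions at cyclic pairs vanish off prime powers -/
theorem val_prim_eq_zero [Finite F] {k : CF F} (hk : CF.IsPrim k) {P : F[X]} (hP : P.Monic)
    (h0 : P.coeff 0 ≠ 0) (hdeg : P.natDegree ≠ 0) (hpp : ¬ IsPrimePow P) : val k P = 0 := by
  have hnu : ¬ IsUnit P := fun h => hdeg (natDegree_eq_zero_of_isUnit h)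
  obtain ⟨m, hm, hirr, hmP⟩ := exists_monic_irreducible_factor P hnu
  have hfm : FiniteMultiplicity m P := FiniteMultiplicity.of_prime_left hirr.prime hP.ne_zero
  obtain ⟨Q, hQ, hnd⟩ := hfm.exists_eq_pow_mul_and_not_dvd
  obtain ⟨e, he⟩ : ∃ e, e = multiplicity m P := ⟨_, rfl⟩
  rw [← he] at hQ
  have hQm : Q.Monic := by
    have := hP
    rw [hQ] at this
    exact (hm.pow e).of_mul_monic_left this
  have he0 : e ≠ 0 := by
    rintro h
    rw [h, pow_zero, one_mul] at hQ
    exact hnd (hQ ▸ hmP)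
  have hcop : IsCoprime (m ^ e) Q := ((hirr.coprime_iff_not_dvd).2 hnd).pow_left
  have hQdeg : Q.natDegree ≠ 0 := by
    intro h
    apply hpp
    rw [hQ, hQm.natDegree_eq_zero.1 h, mul_one]
    exact hirr.prime.isPrimePow.pow he0
  have hmdeg : (m ^ e).natDegree ≠ 0 := by
    rw [natDegree_pow]
    exact Nat.mul_ne_zero he0 hirr.natDegree_pos.ne'
  have hc0 : (m ^ e).coeff 0 ≠ 0 ∧ Q.coeff 0 ≠ 0 := by
    rw [hQ, mul_coeff_zero] at h0
    exact ⟨left_ne_zero_of_mul h0, right_ne_zero_of_mul h0⟩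
  obtain ⟨α, hα, a, ha⟩ := exists_cyc (m ^ e) (hm.pow e) hc0.1
  obtain ⟨β, hβ, b, hb⟩ := exists_cyc Q hQm hc0.2
  have hcop' : IsCoprime (cp α) (cp β) := by rw [hα, hβ]; exact hcop
  have h1 := hk _ _ α β (by rw [Module.finrank_fin_fun]; omega)
    (by rw [Module.finrank_fin_fun]; omega)
  rw [coprod_coprime k hcop', val_eq k _ _ (isCyc_tri_zero hcop' ha hb), cp_tri, hα, hβ,
    ← hQ] at h1
  exact h1


section gamma

theorem pv_conj {V V' : Type} [AddCommGroup V] [Module F V] [AddCommGroup V'] [Module F V']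
    (e : V ≃ₗ[F] V') {g : V ≃ₗ[F] V} {g' : V' ≃ₗ[F] V'} (he : ∀ v, e (g v) = g' (e v))
    (v : V) (p : F[X]) : e (pv g v p) = pv g' (e v) p := by
  induction p using Polynomial.induction_on' with
  | add p q hp hq => rw [map_add, map_add, map_add, hp, hq]
  | monomial n c =>
    rw [← C_mul_X_pow_eq_monomial, ← smul_eq_C_mul, map_smul, map_smul, map_smul]
    congr 1
    induction n with
    | zero => rw [pow_zero, pv_one, pv_one]
    | succ n ih => rw [pow_succ', pv_X, pv_X, he, ih]

theorem isCyc_conj {V V' : Type} [AddCommGroup V] [Module F V] [AddCommGroup V'] [Module F V']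
    (e : V ≃ₗ[F] V') {g : V ≃ₗ[F] V} {g' : V' ≃ₗ[F] V'} (he : ∀ v, e (g v) = g' (e v))
    (v : V) : IsCyc g v ↔ IsCyc g' (e v) := by
  rw [isCyc_iff, isCyc_iff]
  constructor
  · intro h x
    obtain ⟨p, hp⟩ := h (e.symm x)
    exact ⟨p, by rw [← pv_conj e he, hp, e.apply_symm_apply]⟩
  · intro h x
    obtain ⟨p, hp⟩ := h (e x)
    exact ⟨p, by apply e.injective; rw [pv_conj e he, hp]⟩

/-- the number of cyclic vectors -/
noncomputable def gam : CF F where
  toFun V _ _ _ g := Nat.card {v : V // IsCyc g v}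
  inv' V V' _ _ _ _ _ _ e g g' he := by
    congr 1
    exact Nat.card_congr (e.toEquiv.subtypeEquiv fun v => isCyc_conj e he v)

/-- pointwise product -/
noncomputable def pmul (f h : CF F) : CF F where
  toFun V _ _ _ g := f V g * h V g
  inv' V V' _ _ _ _ _ _ e g g' he := by
    rw [f.inv' V V' e g g' he, h.inv' V V' e g g' he]

variable {V : Type} [AddCommGroup V] [Module F V] [Finite V]

/-- the stable subspace generated by `v` -/
noncomputable def spanV (g : V ≃ₗ[F] V) (v : V) : Stab g :=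
  ⟨LinearMap.range (pv g v), by
    have : Module.Finite F V := Module.Finite.of_finite
    apply Submodule.eq_of_le_of_finrank_eq
    · rintro _ ⟨_, ⟨p, rfl⟩, rfl⟩
      exact ⟨X * p, pv_X g v p⟩
    · exact LinearEquiv.finrank_map_eq g _⟩

theorem self_mem_spanV (g : V ≃ₗ[F] V) (v : V) : v ∈ (spanV g v).1 := ⟨1, pv_one g v⟩

theorem spanV_eq_iff (g : V ≃ₗ[F] V) (W : Stab g) (w : W.1) :
    spanV g w = W ↔ IsCyc (sub g W) w := by
  rw [isCyc_iff]
  constructor
  · intro h x
    have hx : (x : V) ∈ (spanV g w).1 := by rw [h]; exact x.2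
    obtain ⟨p, hp⟩ := hx
    exact ⟨p, Subtype.ext (by rw [pv_sub, hp])⟩
  · intro h
    apply Subtype.ext
    ext x
    constructor
    · rintro ⟨p, rfl⟩
      rw [← pv_sub]
      exact (pv (sub g W) w p).2
    · intro hx
      obtain ⟨p, hp⟩ := h ⟨x, hx⟩
      refine ⟨p, ?_⟩
      rw [← pv_sub, hp]

/-- every vector is a cyclic vector of exactly one stable subspace -/
theorem card_eq_sum_gam (g : V ≃ₗ[F] V) :
    ∑ᶠ W : Stab g, (Nat.card {w : W.1 // IsCyc (sub g W) w} : ℂ) = Nat.card V := by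
  classical
  have := Fintype.ofFinite (Stab g)
  have : ∀ W : Stab g, Finite {w : W.1 // IsCyc (sub g W) w} := fun W => inferInstance
  rw [finsum_eq_sum_of_fintype, ← Nat.cast_sum, ← Nat.card_sigma]
  congr 1
  apply Nat.card_congr
  refine
    { toFun := fun x => x.2.1.1
      invFun := fun v => ⟨spanV g v, ⟨v, self_mem_spanV g v⟩, ?_⟩
      left_inv := ?_
      right_inv := ?_ }
  · rw [← spanV_eq_iff]
  · rintro ⟨W, w, hw⟩
    have h := (spanV_eq_iff g W w).2 hw
    have key : ∀ (U : Stab g) (_ : spanV g (w : V) = U) (hu : (w : V) ∈ U.1)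
        (hc : IsCyc (sub g U) ⟨(w : V), hu⟩) (hc' : IsCyc (sub g (spanV g (w : V)))
          ⟨(w : V), self_mem_spanV g (w : V)⟩),
        (⟨spanV g (w : V), ⟨⟨(w : V), self_mem_spanV g (w : V)⟩, hc'⟩⟩ :
          (W : Stab g) × {w : W.1 // IsCyc (sub g W) w}) = ⟨U, ⟨⟨(w : V), hu⟩, hc⟩⟩ := by
      rintro U rfl hu hc hc'
      rfl
    exact key W h w.2 hw _
  · intro v
    rfl

theorem Bf_add (K : Type) [Field K] [Algebra F K] (θ : MulChar K ℂ) (g : V ≃ₗ[F] V)
    (W : Stab g) : CF.Bf K θ V g = CF.Bf K θ W.1 (sub g W) + CF.Bf K θ (V ⧸ W.1) (quo g W) := by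
  show (((cp g).map (algebraMap F K)).roots.map (fun x => θ x)).sum = _
  rw [cp_mul g W, Polynomial.map_mul, roots_mul, Multiset.map_add, Multiset.sum_add]
  · rfl
  · exact mul_ne_zero (Polynomial.map_ne_zero (cp_monic _).1.ne_zero)
      (Polynomial.map_ne_zero (cp_monic _).1.ne_zero)

/-- the cyclic vector identity -/
theorem card_mul_Bf (K : Type) [Field K] [Algebra F K] (θ : MulChar K ℂ) (g : V ≃ₗ[F] V) :
    (Nat.card V : ℂ) * CF.Bf K θ V g =
      (pmul gam (CF.Bf K θ) * CF.allOne : CF F) V g + (gam * CF.Bf K θ : CF F) V g := by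
  rw [CF.mul_apply, CF.mul_apply, ← card_eq_sum_gam g, finsum_mul]
  rw [← finsum_add_distrib (Set.toFinite _) (Set.toFinite _)]
  apply finsum_congr
  intro W
  rw [Bf_add K θ g W, mul_add]
  congr 1
  show (Nat.card {w : W.1 // IsCyc (sub g W) w} : ℂ) * CF.Bf K θ W.1 (sub g W) =
    (Nat.card {w : W.1 // IsCyc (sub g W) w} : ℂ) * CF.Bf K θ W.1 (sub g W) * 1
  rw [mul_one]


theorem ip_add_left [Finite F] (n : ℕ) (f h k : CF F) :
    CF.ip n (f + h) k = CF.ip n f k + CF.ip n h k := by
  unfold CF.ip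
  rw [← add_div, ← finsum_add_distrib (Set.toFinite _) (Set.toFinite _)]
  congr 1
  apply finsum_congr
  intro g
  rw [CF.add_apply, add_mul]

theorem Bf_zero (K : Type) [Field K] [Algebra F K] (θ : MulChar K ℂ) (g : V ≃ₗ[F] V)
    (h : Module.finrank F V = 0) : CF.Bf K θ V g = 0 := by
  show (((cp g).map (algebraMap F K)).roots.map (fun x => θ x)).sum = _
  obtain ⟨h1, h2, -⟩ := cp_monic g
  rw [h] at h2
  rw [h1.natDegree_eq_zero.1 h2, Polynomial.map_one, roots_one]
  rfl

theorem gam_zero (g : V ≃ₗ[F] V) (h : Module.finrank F V = 0) : gam V g = 1 := by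
  have hfin : Module.Finite F V := Module.Finite.of_finite
  rw [Module.finrank_eq_zero_iff_of_free] at h
  show (Nat.card {v : V // IsCyc g v} : ℂ) = 1
  have h1 : Nat.card {v : V // IsCyc g v} = 1 := by
    rw [Nat.card_eq_one_iff_unique]
    refine ⟨⟨fun a b => Subtype.ext (Subsingleton.elim _ _)⟩, ⟨⟨0, ?_⟩⟩⟩
    rw [isCyc_iff]
    intro x
    exact ⟨0, Subsingleton.elim _ _⟩
  rw [h1, Nat.cast_one]

/-- the main consequence of the cyclic vector trick -/
theorem ip_Bf_eq [Finite F] (K : Type) [Field K] [Algebra F K] (θ : MulChar K ℂ)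
    (n : ℕ) (k : CF F) (hk : CF.IsPrim k) :
    ((Nat.card F : ℂ) ^ n - 1) * CF.ip n (CF.Bf K θ) k = CF.ip n (pmul gam (CF.Bf K θ)) k := by
  have h0 : Module.finrank F (Fin 0 → F) = 0 := Module.finrank_fin_fun F
  have hcard : (Nat.card (Fin n → F) : ℂ) = (Nat.card F : ℂ) ^ n := by
    rw [Nat.card_fun, Nat.card_fin, Nat.cast_pow]
  -- the decomposition
  have e1 : (pmul gam (CF.Bf K θ) * CF.allOne : CF F) = pmul gam (CF.Bf K θ) +
      pmul gam (CF.Bf K θ) * (CF.allOne - 1) := by
    conv_lhs => rw [show (CF.allOne : CF F) = 1 + (CF.allOne - 1) by abel]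
    rw [CF.hall_add, show (pmul gam (CF.Bf K θ) * 1 : CF F) = pmul gam (CF.Bf K θ) from
      CF.hall_one _]
  have e2 : (gam * CF.Bf K θ : CF F) = CF.Bf K θ + (gam - 1) * CF.Bf K θ := by
    conv_lhs => rw [show (gam : CF F) = 1 + (gam - 1) by abel]
    rw [CF.add_hall, show (1 * CF.Bf K θ : CF F) = CF.Bf K θ from CF.one_hall _]
  have h1 : CF.ip n (pmul gam (CF.Bf K θ) * (CF.allOne - 1)) k = 0 := by
    apply ip_mul_prim n _ _ k hk
    · intro g
      show gam _ g * CF.Bf K θ _ g = 0
      rw [Bf_zero K θ g h0, mul_zero]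
    · intro g
      rw [CF.sub_apply, CF.one_apply, if_pos h0]
      show (1 : ℂ) - 1 = 0
      ring
  have h2 : CF.ip n ((gam - 1) * CF.Bf K θ) k = 0 := by
    apply ip_mul_prim n _ _ k hk
    · intro g
      rw [CF.sub_apply, CF.one_apply, if_pos h0, gam_zero g h0, sub_self]
    · intro g
      exact Bf_zero K θ g h0
  have h3 : (Nat.card F : ℂ) ^ n * CF.ip n (CF.Bf K θ) k =
      CF.ip n (pmul gam (CF.Bf K θ) * CF.allOne + gam * CF.Bf K θ) k := by
    unfold CF.ip
    rw [← mul_div_assoc, mul_finsum]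
    congr 1
    apply finsum_congr
    intro g
    rw [CF.add_apply, ← card_mul_Bf K θ g, hcard, mul_assoc]
  rw [e1, e2, ip_add_left, ip_add_left, ip_add_left, h1, h2] at h3
  linear_combination h3

end gamma

/-! ### Counting pairs (automorphism, cyclic vector) -/
section count

theorem card_cyc [Finite F] (n : ℕ) {P : F[X]} (hP : P.Monic) (h0 : P.coeff 0 ≠ 0)
    (hn : P.natDegree = n) :
    Nat.card {x : G F n × (Fin n → F) // cp x.1 = P ∧ IsCyc x.1 x.2} = Nat.card (G F n) := by
  subst hn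
  obtain ⟨g, hg, v, hv⟩ := exists_cyc P hP h0
  symm
  apply Nat.card_congr
  have hconj : ∀ e : G F P.natDegree, ∀ x, e (g x) = (e * g * e⁻¹) (e x) := by
    intro e x
    show e (g x) = e (g (e.symm (e x)))
    rw [e.symm_apply_apply]
  have hcp : ∀ e : G F P.natDegree, cp (e * g * e⁻¹) = P := by
    intro e
    have h1 := (isCyc_conj e (hconj e) v).1 hv
    have key : ∀ p, cp (e * g * e⁻¹) ∣ p ↔ cp g ∣ p := by
      intro p
      rw [← pv_eq_zero_iff h1, ← pv_eq_zero_iff hv, ← pv_conj e (hconj e),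
        map_eq_zero_iff e e.injective]
    exact (eq_of_monic_of_associated (cp_monic _).1 (cp_monic _).1
      (associated_of_dvd_dvd ((key _).2 dvd_rfl) ((key _).1 dvd_rfl))).trans hg
  refine Equiv.ofBijective (fun e => ⟨(e * g * e⁻¹, e v), hcp e,
    (isCyc_conj e (hconj e) v).1 hv⟩) ⟨?_, ?_⟩
  · intro e e' h
    have h1 : e * g * e⁻¹ = e' * g * e'⁻¹ := congrArg (fun z => z.1.1) h
    have h2 : e v = e' v := congrArg (fun z => z.1.2) h
    ext1 x
    obtain ⟨p, rfl⟩ := (isCyc_iff g v).1 hv x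
    rw [pv_conj e (hconj e), pv_conj e' (hconj e'), h1, h2]
  · rintro ⟨⟨g', v'⟩, hg', hv'⟩
    obtain ⟨e, he, hev⟩ := exists_iso' hv hv' (hg.trans hg'.symm)
    refine ⟨e, ?_⟩
    apply Subtype.ext
    apply Prod.ext
    · show e * g * e⁻¹ = g'
      ext1 x
      show e (g (e.symm x)) = g' x
      rw [he, e.apply_symm_apply]
    · exact hev


/-- monic polynomials of degree `n` with nonzero constant term -/
abbrev Pn (F : Type) [Field F] (n : ℕ) : Type :=
  {P : F[X] // P.Monic ∧ P.natDegree = n ∧ P.coeff 0 ≠ 0}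

instance finite_Pn [Finite F] (n : ℕ) : Finite (Pn F n) := by
  have : Module.Finite F (degreeLT F (n + 1)) :=
    Module.Finite.equiv (degreeLTEquiv F _).symm
  have : Finite (degreeLT F (n + 1)) := Module.finite_of_finite F
  refine Finite.of_injective (β := degreeLT F (n + 1)) (fun D => ⟨D.1, ?_⟩) ?_
  · rw [mem_degreeLT, degree_eq_natDegree D.2.1.ne_zero, D.2.2.1]
    exact_mod_cast Nat.lt_succ_self n
  · intro D D' h
    apply Subtype.ext
    exact congrArg (fun z : degreeLT F (n + 1) => (z : F[X])) h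

/-- sum over pairs (automorphism, cyclic vector) -/
theorem sum_gam [Finite F] (n : ℕ) (b : F[X] → ℂ) :
    ∑ᶠ g : G F n, gam (Fin n → F) g * b (cp g) =
      Nat.card (G F n) * ∑ᶠ P : Pn F n, b P.1 := by
  classical
  have := Fintype.ofFinite (G F n)
  have := Fintype.ofFinite (Pn F n)
  have hfin : ∀ g : G F n, Fintype {v : Fin n → F // IsCyc g v} := fun g => Fintype.ofFinite _
  rw [finsum_eq_sum_of_fintype, finsum_eq_sum_of_fintype]
  have h1 : ∀ g : G F n, gam (Fin n → F) g * b (cp g) =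
      ∑ _v : {v : Fin n → F // IsCyc g v}, b (cp g) := by
    intro g
    rw [Finset.sum_const, Finset.card_univ, nsmul_eq_mul, ← Nat.card_eq_fintype_card]
    rfl
  rw [Finset.sum_congr rfl (fun g _ => h1 g), ← Fintype.sum_sigma']
  let π : ((g : G F n) × {v : Fin n → F // IsCyc g v}) → Pn F n := fun x =>
    ⟨cp x.1, (cp_monic x.1).1, by rw [(cp_monic x.1).2.1, Module.finrank_fin_fun],
      (cp_monic x.1).2.2⟩
  rw [← Fintype.sum_fiberwise π, Finset.mul_sum]
  apply Finset.sum_congr rfl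
  intro P _
  have h2 : ∀ x : {x : ((g : G F n) × {v : Fin n → F // IsCyc g v}) // π x = P},
      b (cp x.1.1) = b P.1 := by
    rintro ⟨x, rfl⟩
    rfl
  rw [Finset.sum_congr rfl (fun x _ => h2 x), Finset.sum_const, nsmul_eq_mul, Finset.card_univ,
    ← Nat.card_eq_fintype_card, ← card_cyc n P.2.1 P.2.2.2 P.2.2.1]
  congr 2
  apply Nat.card_congr
  exact
    { toFun := fun x => ⟨(x.1.1, x.1.2.1), congrArg Subtype.val x.2, x.1.2.2⟩
      invFun := fun x => ⟨⟨x.1.1, x.1.2, x.2.2⟩, Subtype.ext x.2.1⟩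
      left_inv := fun x => rfl
      right_inv := fun x => rfl }

end count

theorem multiplicity_pow_self_irr {m : F[X]} (hm : Irreducible m) (j : ℕ) :
    multiplicity m (m ^ j) = j :=
  multiplicity_pow_self hm.ne_zero hm.not_isUnit j

end Cyc

open Cyc

theorem ip_Bf_prim' [Finite F] {K : Type} [Field K] [Finite K] [Algebra F K] (θ : MulChar K ℂ)
    (n : ℕ) (hn : 1 ≤ n) (k : CF F) (hk : CF.IsPrim k) :
    ((Nat.card F : ℂ) ^ n - 1) * CF.ip n (CF.Bf K θ) k =
      ∑ᶠ x : {x : K // x ^ (Nat.card F ^ n - 1) = 1},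
        ((n / (minpoly F x.1).natDegree : ℕ) : ℂ) * θ x.1 *
          conj (val k (minpoly F x.1 ^ (n / (minpoly F x.1).natDegree))) := by
  classical
  have hGne : (Nat.card (G F n) : ℂ) ≠ 0 := by
    have : Nonempty (G F n) := ⟨LinearEquiv.refl F _⟩
    exact_mod_cast Nat.card_pos.ne'
  have hq : 2 ≤ Nat.card F := Finite.one_lt_card
  have hqn : Nat.card F ^ n - 1 ≠ 0 := by
    have := Nat.one_lt_pow (by omega : n ≠ 0) hq
    omega
  have h1 : ∀ g : G F n, pmul gam (CF.Bf K θ) (Fin n → F) g * conj (k (Fin n → F) g) =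
      gam (Fin n → F) g * (val (CF.Bf K θ) (cp g) * conj (val k (cp g))) := by
    intro g
    show gam (Fin n → F) g * CF.Bf K θ (Fin n → F) g * conj (k (Fin n → F) g) = _
    by_cases h : ∃ v, IsCyc g v
    · obtain ⟨v, hv⟩ := h
      rw [← val_eq _ g v hv, ← val_eq _ g v hv, mul_assoc]
    · have : gam (Fin n → F) g = 0 := by
        show (Nat.card {v : Fin n → F // IsCyc g v} : ℂ) = 0
        have : IsEmpty {v : Fin n → F // IsCyc g v} := ⟨fun v => h ⟨v.1, v.2⟩⟩
        rw [Nat.card_of_isEmpty, Nat.cast_zero]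
      rw [this]; ring
  rw [ip_Bf_eq K θ n k hk]
  unfold CF.ip
  rw [finsum_congr h1, sum_gam n (fun P => val (CF.Bf K θ) P * conj (val k P)),
    mul_div_cancel_left₀ _ hGne]
  have := Fintype.ofFinite (Pn F n)
  have := Fintype.ofFinite K
  rw [finsum_eq_sum_of_fintype]
  -- the weights
  obtain ⟨w, hw⟩ : ∃ w : K → ℂ, w = fun x => ((n / (minpoly F x).natDegree : ℕ) : ℂ) * θ x *
          conj (val k (minpoly F x ^ (n / (minpoly F x).natDegree))) := ⟨_, rfl⟩
  have h2 : ∑ᶠ x : {x : K // x ^ (Nat.card F ^ n - 1) = 1},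
        ((n / (minpoly F x.1).natDegree : ℕ) : ℂ) * θ x.1 *
          conj (val k (minpoly F x.1 ^ (n / (minpoly F x.1).natDegree))) =
      ∑ x : K, if x ^ (Nat.card F ^ n - 1) = 1 then w x else 0 := by
    rw [finsum_eq_sum_of_fintype, ← Finset.sum_filter]
    rw [Finset.sum_subtype (p := fun x : K => x ^ (Nat.card F ^ n - 1) = 1)]
    · apply Finset.sum_congr rfl
      intro x _
      rw [hw]
    · intro x; simp
  rw [h2]
  have hdeg : ∀ x : K, 0 < (minpoly F x).natDegree := fun x =>
    minpoly.natDegree_pos (IsIntegral.of_finite F x)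
  have h3 : ∀ P : Pn F n, val (CF.Bf K θ) P.1 * conj (val k P.1) =
      ∑ x : K, if (x ^ (Nat.card F ^ n - 1) = 1 ∧
        minpoly F x ^ (n / (minpoly F x).natDegree) = P.1) then w x else 0 := by
    rintro ⟨P, hP, hPn, hP0⟩
    show val (CF.Bf K θ) P * conj (val k P) = _
    rw [val_Bf θ P hP hP0, Finset.sum_multiset_map_count,
      Finset.sum_subset (Finset.subset_univ (P.map (algebraMap F K)).roots.toFinset)]
    · rw [Finset.sum_mul]
      apply Finset.sum_congr rfl
      intro x _
      have hint : IsIntegral F x := IsIntegral.of_finite F x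
      have hirr : Irreducible (minpoly F x) := minpoly.irreducible hint
      rw [count_roots, rootMultiplicity_eq x hP.ne_zero, nsmul_eq_mul]
      by_cases hdvd : minpoly F x ∣ P
      · by_cases hpp : IsPrimePow P
        · obtain ⟨j, hj, hPj⟩ := primePow_root x hP hpp ((minpoly_dvd_iff_root x P).1 hdvd)
          have hnj : n = j * (minpoly F x).natDegree := by
            rw [← hPn, hPj, natDegree_pow]
          have hdiv : n / (minpoly F x).natDegree = j := by
            rw [hnj, Nat.mul_div_cancel _ (hdeg x)]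
          have hx0 : x ≠ 0 := by
            rintro rfl
            rw [minpoly.zero, X_dvd_iff] at hdvd
            exact hP0 hdvd
          have hcond : x ^ (Nat.card F ^ n - 1) = 1 :=
            (natDegree_minpoly_dvd n hn x hx0).1 ⟨j, by rw [hnj, mul_comm]⟩
          rw [if_pos ⟨hcond, by rw [hdiv, ← hPj]⟩, hw]
          simp only
          rw [hdiv, ← hPj]
          congr 3
          rw [hPj]
          exact_mod_cast multiplicity_pow_self_irr hirr j
        · rw [val_prim_eq_zero hk hP hP0 (by omega) hpp, map_zero, mul_zero, if_neg]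
          rintro ⟨hc, hPx⟩
          have hPx : minpoly F x ^ (n / (minpoly F x).natDegree) = P := hPx
          apply hpp
          rw [← hPx]
          apply hirr.prime.isPrimePow.pow
          have hx0 : x ≠ 0 := by
            rintro rfl
            rw [zero_pow hqn] at hc
            exact zero_ne_one hc
          have := (natDegree_minpoly_dvd n hn x hx0).2 hc
          exact (Nat.div_pos (Nat.le_of_dvd (by omega) this) (hdeg x)).ne'
      · rw [multiplicity_eq_zero.2 hdvd, Nat.cast_zero, zero_mul, zero_mul, if_neg]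
        rintro ⟨hc, hPx⟩
        have hPx : minpoly F x ^ (n / (minpoly F x).natDegree) = P := hPx
        apply hdvd
        rw [← hPx]
        apply dvd_pow_self
        have hx0 : x ≠ 0 := by
          rintro rfl
          rw [zero_pow hqn] at hc
          exact zero_ne_one hc
        have := (natDegree_minpoly_dvd n hn x hx0).2 hc
        exact (Nat.div_pos (Nat.le_of_dvd (by omega) this) (hdeg x)).ne'
    · intro x _ hx
      rw [Multiset.mem_toFinset] at hx
      rw [Multiset.count_eq_zero_of_notMem hx, zero_smul]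
  rw [Finset.sum_congr rfl (fun P _ => h3 P), Finset.sum_comm]
  apply Finset.sum_congr rfl
  intro x _
  have hint : IsIntegral F x := IsIntegral.of_finite F x
  by_cases hc : x ^ (Nat.card F ^ n - 1) = 1
  · rw [if_pos hc]
    have hx0 : x ≠ 0 := by
      rintro rfl
      rw [zero_pow hqn] at hc
      exact zero_ne_one hc
    have hd := (natDegree_minpoly_dvd n hn x hx0).2 hc
    have hmem : (minpoly F x ^ (n / (minpoly F x).natDegree)).Monic ∧
        (minpoly F x ^ (n / (minpoly F x).natDegree)).natDegree = n ∧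
        (minpoly F x ^ (n / (minpoly F x).natDegree)).coeff 0 ≠ 0 := by
      refine ⟨(minpoly.monic hint).pow _, ?_, ?_⟩
      · rw [natDegree_pow, Nat.div_mul_cancel hd]
      · rw [coeff_zero_eq_eval_zero, eval_pow, ← coeff_zero_eq_eval_zero]
        exact pow_ne_zero _ (minpoly.coeff_zero_ne_zero hint hx0)
    rw [Finset.sum_eq_single ⟨_, hmem⟩]
    · rw [if_pos ⟨hc, rfl⟩]
    · intro P _ hne
      rw [if_neg]
      rintro ⟨-, h⟩
      exact hne (Subtype.ext h.symm)
    · intro h; exact absurd (Finset.mem_univ _) h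
  · rw [if_neg hc]
    apply Finset.sum_eq_zero
    intro P _
    rw [if_neg]
    exact fun h => hc h.1

open CF in
theorem ip_Bf_prim [Finite F] {K : Type} [Field K] [Finite K] [Algebra F K] (θ : MulChar K ℂ)
    (n : ℕ) (hn : 1 ≤ n) (hK : Big F n K) (k : CF F) (hk : IsPrim k) :
    ((Nat.card F : ℂ) ^ n - 1) * ip n (Bf K θ) k =
      ∑ᶠ x : {x : K // x ^ (Nat.card F ^ n - 1) = 1},
        ((n / (minpoly F x.1).natDegree : ℕ) : ℂ) * θ x.1 *
          conj (val k (minpoly F x.1 ^ (n / (minpoly F x.1).natDegree))) :=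
  ip_Bf_prim' θ n hn k hk

end Pool.Agent.REll
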