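import Pool.Agent.Lib_helper95.REll.IND
import Pool.Agent.Lib_helper15.REll_GAM

/-! Block COMP: completeness of the `B_θ` among primitive functions. -/

open scoped BigOperators ComplexConjugate
open Polynomial

namespace Pool.Agent.REll
variable {F : Type} [Field F]

namespace Cyc

/-- Fourier inversion on the multiplicative group of a finite field -/
theorem fourier_zero_mulChar {K : Type} [Field K] [Fintype K] (w : K → ℂ)
    (h : ∀ θ : MulChar K ℂ, ∑ x : K, θ x * w x = 0) (y : K) (hy : y ≠ 0) : w y = 0 := by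
  classical
  have := Fintype.ofFinite (MulChar K ℂ)
  have h1 : ∀ z : K, z ≠ 1 → ∑ θ : MulChar K ℂ, θ z = 0 := by
    intro z hz
    obtain ⟨χ, hχ⟩ := MulChar.exists_apply_ne_one_of_hasEnoughRootsOfUnity K ℂ hz
    have h2 : χ z * ∑ θ : MulChar K ℂ, θ z = ∑ θ : MulChar K ℂ, θ z := by
      rw [Finset.mul_sum]
      refine Fintype.sum_equiv (Equiv.mulLeft χ) _ _ fun θ => ?_
      rw [Equiv.coe_mulLeft, MulChar.mul_apply]
    have h3 : (χ z - 1) * ∑ θ : MulChar K ℂ, θ z = 0 := by linear_combination h2
    exact (mul_eq_zero.1 h3).resolve_left (sub_ne_zero.2 hχ)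
  have h2 : ∑ θ : MulChar K ℂ, θ y⁻¹ * ∑ x : K, θ x * w x = 0 :=
    Finset.sum_eq_zero fun θ _ => by rw [h θ, mul_zero]
  have h3 : ∑ θ : MulChar K ℂ, θ y⁻¹ * ∑ x : K, θ x * w x =
      ∑ x : K, (∑ θ : MulChar K ℂ, θ (y⁻¹ * x)) * w x := by
    simp only [Finset.mul_sum, Finset.sum_mul]
    rw [Finset.sum_comm]
    apply Finset.sum_congr rfl
    intro x _
    apply Finset.sum_congr rfl
    intro θ _
    rw [map_mul]; ring
  rw [h3, Finset.sum_eq_single y] at h2
  · rw [inv_mul_cancel₀ hy] at h2
    simp only [map_one, Finset.sum_const, Finset.card_univ, nsmul_eq_mul, mul_one] at h2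
    refine (mul_eq_zero.1 h2).resolve_left ?_
    exact_mod_cast Fintype.card_ne_zero
  · intro x _ hx
    rw [h1, zero_mul]
    intro h4
    apply hx
    field_simp at h4
    exact h4
  · intro h; exact absurd (Finset.mem_univ _) h

theorem isPrim_part (n : ℕ) {k : CF F} (hk : CF.IsPrim k) : CF.IsPrim (CF.part n k) := by
  intro A B _ _ _ _ _ _ α β hA hB
  have h1 := hk A B α β hA hB
  unfold CF.coprod at h1 ⊢
  by_cases h : Module.finrank F (B × A) = n
  · have h2 : ∀ u : B →ₗ[F] A, CF.part n k (B × A) (tri α β u) = k (B × A) (tri α β u) := by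
      intro u
      show (if Module.finrank F (B × A) = n then _ else _) = _
      rw [if_pos h]
    rw [finsum_congr h2]
    exact h1
  · have h2 : ∀ u : B →ₗ[F] A, CF.part n k (B × A) (tri α β u) = 0 := by
      intro u
      show (if Module.finrank F (B × A) = n then _ else _) = _
      rw [if_neg h]
    rw [finsum_congr h2, finsum_zero, zero_div]

end Cyc

open Cyc

theorem prim_complete [Finite F] {K : Type} [Field K] [Finite K] [Algebra F K]
    (n : ℕ) (hn : 1 ≤ n) (hK : Big F n K) (k : CF F) (hk : CF.IsPrim k)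
    (h : ∀ θ : MulChar K ℂ, CF.ip n (CF.Bf K θ) k = 0)
    (V : Type) [AddCommGroup V] [Module F V] [Finite V] (g : V ≃ₗ[F] V)
    (hV : Module.finrank F V = n) : k V g = 0 := by
  classical
  have := Fintype.ofFinite K
  have hq : 2 ≤ Nat.card F := Finite.one_lt_card
  have hqn : Nat.card F ^ n - 1 ≠ 0 := by
    have := Nat.one_lt_pow (by omega : n ≠ 0) hq
    omega
  have hw : ∀ y : K, y ≠ 0 → (if y ^ (Nat.card F ^ n - 1) = 1 then
      ((n / (minpoly F y).natDegree : ℕ) : ℂ) *
          conj (val k (minpoly F y ^ (n / (minpoly F y).natDegree))) else 0) = 0 := by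
    apply fourier_zero_mulChar
    intro θ
    have h1 := ip_Bf_prim' θ n hn k hk
    rw [h θ, mul_zero, finsum_eq_sum_of_fintype] at h1
    rw [← Finset.sum_subtype (Finset.univ.filter fun x : K => x ^ (Nat.card F ^ n - 1) = 1)
      (p := fun x : K => x ^ (Nat.card F ^ n - 1) = 1)
      (f := fun x => ((n / (minpoly F x).natDegree : ℕ) : ℂ) * θ x *
          conj (val k (minpoly F x ^ (n / (minpoly F x).natDegree))))
      (fun x => by simp), Finset.sum_filter] at h1
    refine Eq.trans ?_ h1.symm
    apply Finset.sum_congr rfl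
    intro x _
    split_ifs with hx
    · ring
    · rw [mul_zero]
  have hval : ∀ P : F[X], P.Monic → P.coeff 0 ≠ 0 → IsPrimePow P → P.natDegree = n →
      val k P = 0 := by
    intro P hP hP0 hpp hPn
    -- a root
    have hsplit := big_splits n hK P hP.ne_zero hPn.le
    obtain ⟨x, hx⟩ := hsplit.exists_eval_eq_zero (by
      rw [degree_map, degree_eq_natDegree hP.ne_zero, hPn]
      exact_mod_cast (by omega : n ≠ 0))
    obtain ⟨j, hj, hPj⟩ := primePow_root x hP hpp hx
    have hint : IsIntegral F x := IsIntegral.of_finite F x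
    have hdeg : 0 < (minpoly F x).natDegree := minpoly.natDegree_pos hint
    have hnj : n = j * (minpoly F x).natDegree := by rw [← hPn, hPj, natDegree_pow]
    have hdiv : n / (minpoly F x).natDegree = j := by rw [hnj, Nat.mul_div_cancel _ hdeg]
    have hx0 : x ≠ 0 := by
      rintro rfl
      apply hP0
      have : minpoly F (0 : K) ∣ P := by rw [hPj]; exact dvd_pow_self _ (by omega)
      rwa [minpoly.zero, X_dvd_iff] at this
    have hc : x ^ (Nat.card F ^ n - 1) = 1 :=
      (natDegree_minpoly_dvd n hn x hx0).1 ⟨j, by rw [hnj, mul_comm]⟩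
    have h1 := hw x hx0
    rw [if_pos hc, hdiv, ← hPj] at h1
    have h2 := (mul_eq_zero.1 h1).resolve_left (by exact_mod_cast (by omega : j ≠ 0))
    exact (map_eq_zero _).1 h2
  have h1 := eq_zero_of_isPrim (CF.part n k) (isPrim_part n hk) (by
    intro P hP hP0 hpp
    obtain ⟨g, hg, -, hv⟩ := val_of (CF.part n k) P hP hP0
    obtain ⟨g', hg', ⟨v', hv'⟩, hv2⟩ := val_of k P hP hP0
    by_cases hPn : P.natDegree = n
    · have h3 : val (CF.part n k) P = val k P := by
        have h4 := val_eq (CF.part n k) g' v' hv'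
        have h5 := val_eq k g' v' hv'
        rw [hg'] at h4 h5
        rw [← h4, ← h5]
        show (if Module.finrank F (Fin P.natDegree → F) = n then _ else _) = _
        rw [if_pos (by rw [Module.finrank_fin_fun, hPn])]
      rw [h3]
      exact hval P hP hP0 hpp hPn
    · rw [hv]
      show (if Module.finrank F (Fin P.natDegree → F) = n then _ else _) = _
      rw [if_neg (by rw [Module.finrank_fin_fun]; exact hPn)]) V g (by omega)
  have h2 : CF.part n k V g = k V g := by
    show (if Module.finrank F V = n then _ else _) = _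
    rw [if_pos hV]
  rw [← h2]
  exact h1

end Pool.Agent.REll
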