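import Pool.Agent.Lib_helper15.REll_BADD

/-! Block CYC: cyclic pairs. -/

open scoped BigOperators ComplexConjugate
open Polynomial

namespace Pool.Agent.REll
variable {F : Type} [Field F]

namespace Cyc
section
variable {V : Type} [AddCommGroup V] [Module F V]

/-- `p(g) v` -/
noncomputable def pv (g : V ≃ₗ[F] V) (v : V) : F[X] →ₗ[F] V :=
  (LinearMap.applyₗ v) ∘ₗ (aeval (R := F) (g : V →ₗ[F] V)).toLinearMap

theorem pv_apply (g : V ≃ₗ[F] V) (v : V) (p : F[X]) :
    pv g v p = aeval (g : V →ₗ[F] V) p v := rfl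

theorem pv_mul (g : V ≃ₗ[F] V) (v : V) (p r : F[X]) : pv g v (p * r) = pv g (pv g v r) p := by
  rw [pv_apply, pv_apply, pv_apply, map_mul, Module.End.mul_apply]

theorem pv_X (g : V ≃ₗ[F] V) (v : V) (p : F[X]) : pv g v (X * p) = g (pv g v p) := by
  rw [pv_apply, pv_apply, map_mul, aeval_X, Module.End.mul_apply]; rfl

theorem pv_one (g : V ≃ₗ[F] V) (v : V) : pv g v 1 = v := by
  rw [pv_apply, map_one, Module.End.one_apply]

theorem pv_X_pow (g : V ≃ₗ[F] V) (v : V) (i : ℕ) : pv g v (X ^ i) = (g ^ i) v := by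
  rw [pv_apply, map_pow, aeval_X, LinearEquiv.pow_apply, Module.End.pow_apply]; rfl

theorem range_pv (g : V ≃ₗ[F] V) (v : V) :
    LinearMap.range (pv g v) = Submodule.span F (Set.range fun i : ℕ => (g ^ i) v) := by
  apply le_antisymm
  · rintro _ ⟨p, rfl⟩
    induction p using Polynomial.induction_on' with
    | add p q hp hq => rw [map_add]; exact add_mem hp hq
    | monomial n a =>
      rw [← C_mul_X_pow_eq_monomial, ← smul_eq_C_mul, map_smul, pv_X_pow]
      exact Submodule.smul_mem _ _ (Submodule.subset_span ⟨n, rfl⟩)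
  · rw [Submodule.span_le]
    rintro _ ⟨i, rfl⟩
    exact ⟨X ^ i, pv_X_pow g v i⟩

theorem isCyc_iff (g : V ≃ₗ[F] V) (v : V) : IsCyc g v ↔ Function.Surjective (pv g v) := by
  rw [← LinearMap.range_eq_top, range_pv]; rfl

theorem pv_cp [Finite V] (g : V ≃ₗ[F] V) (v : V) : pv g v (cp g) = 0 := by
  have : Module.Finite F V := Module.Finite.of_finite
  rw [pv_apply, cp, LinearMap.aeval_self_charpoly, LinearMap.zero_apply]

theorem pv_eq_zero_of_dvd [Finite V] (g : V ≃ₗ[F] V) (v : V) {p : F[X]} (h : cp g ∣ p) :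
    pv g v p = 0 := by
  obtain ⟨r, rfl⟩ := h
  rw [mul_comm, pv_mul, pv_cp, pv_apply, map_zero]

theorem pv_mod [Finite V] (g : V ≃ₗ[F] V) (v : V) (p : F[X]) :
    pv g v (p %ₘ cp g) = pv g v p := by
  conv_rhs => rw [← modByMonic_add_div p (cp g)]
  rw [map_add, pv_eq_zero_of_dvd g v (dvd_mul_right _ _), add_zero]

theorem pv_eq_zero_iff [Finite V] {g : V ≃ₗ[F] V} {v : V} (hv : IsCyc g v) (p : F[X]) :
    pv g v p = 0 ↔ cp g ∣ p := by
  refine ⟨fun h => ?_, pv_eq_zero_of_dvd g v⟩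
  have : Module.Finite F V := Module.Finite.of_finite
  obtain ⟨hm, hd, -⟩ := cp_monic g
  set n := Module.finrank F V with hn
  -- restrict to polynomials of degree `< n`
  have hsurj : Function.Surjective ((pv g v).domRestrict (degreeLT F n)) := by
    intro x
    obtain ⟨r, hr⟩ := (isCyc_iff g v).1 hv x
    refine ⟨⟨r %ₘ cp g, ?_⟩, ?_⟩
    · rw [mem_degreeLT]
      have := degree_modByMonic_lt r hm
      rwa [degree_eq_natDegree hm.ne_zero, hd] at this
    · rw [LinearMap.domRestrict_apply, pv_mod, hr]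
  have hfin : Module.finrank F (degreeLT F n) = n := by
    rw [(degreeLTEquiv F n).finrank_eq, Module.finrank_fin_fun]
  have : Module.Finite F (degreeLT F n) := Module.Finite.equiv (degreeLTEquiv F n).symm
  have hinj : Function.Injective ((pv g v).domRestrict (degreeLT F n)) :=
    (LinearMap.injective_iff_surjective_of_finrank_eq_finrank (by rw [hfin])).2 hsurj
  have hr : p %ₘ cp g ∈ degreeLT F n := by
    rw [mem_degreeLT]
    have := degree_modByMonic_lt p hm
    rwa [degree_eq_natDegree hm.ne_zero, hd] at this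
  have h0 : (⟨p %ₘ cp g, hr⟩ : degreeLT F n) = 0 := by
    apply hinj
    rw [LinearMap.domRestrict_apply, pv_mod, h, map_zero]
  rw [← modByMonic_eq_zero_iff_dvd hm]
  exact congrArg Subtype.val h0

end

section iso
variable {V : Type} [AddCommGroup V] [Module F V] [Finite V]
variable {V' : Type} [AddCommGroup V'] [Module F V'] [Finite V']

theorem exists_iso' {g : V ≃ₗ[F] V} {v : V} (hv : IsCyc g v) {g' : V' ≃ₗ[F] V'} {v' : V'}
    (hv' : IsCyc g' v') (h : cp g = cp g') :
    ∃ e : V ≃ₗ[F] V', (∀ x, e (g x) = g' (e x)) ∧ e v = v' := by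
  have hk : LinearMap.ker (pv g v) = LinearMap.ker (pv g' v') := by
    ext p
    rw [LinearMap.mem_ker, LinearMap.mem_ker, pv_eq_zero_iff hv, pv_eq_zero_iff hv', h]
  have hs := (isCyc_iff g v).1 hv
  have hs' := (isCyc_iff g' v').1 hv'
  let e := ((pv g v).quotKerEquivOfSurjective hs).symm ≪≫ₗ
    (Submodule.quotEquivOfEq _ _ hk) ≪≫ₗ ((pv g' v').quotKerEquivOfSurjective hs')
  have he : ∀ p, e (pv g v p) = pv g' v' p := by
    intro p
    show ((pv g' v').quotKerEquivOfSurjective hs') ((Submodule.quotEquivOfEq _ _ hk)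
      (((pv g v).quotKerEquivOfSurjective hs).symm (pv g v p))) = _
    have : ((pv g v).quotKerEquivOfSurjective hs).symm (pv g v p) =
        Submodule.Quotient.mk p := by
      rw [LinearEquiv.symm_apply_eq]; rfl
    rw [this]; rfl
  refine ⟨e, fun x => ?_, ?_⟩
  · obtain ⟨p, rfl⟩ := hs x
    rw [← pv_X, he, he, pv_X]
  · have h1 := he 1
    rwa [pv_one, pv_one] at h1

theorem exists_iso {g : V ≃ₗ[F] V} {v : V} (hv : IsCyc g v) {g' : V' ≃ₗ[F] V'} {v' : V'}
    (hv' : IsCyc g' v') (h : cp g = cp g') :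
    ∃ e : V ≃ₗ[F] V', ∀ x, e (g x) = g' (e x) := by
  obtain ⟨e, he, -⟩ := exists_iso' hv hv' h
  exact ⟨e, he⟩

end iso

section subquo
variable {V : Type} [AddCommGroup V] [Module F V] [Finite V]

omit [Finite V] in
theorem pv_sub (g : V ≃ₗ[F] V) (W : Stab g) (w : W.1) (p : F[X]) :
    ((pv (sub g W) w p : W.1) : V) = pv g w p := by
  induction p using Polynomial.induction_on' with
  | add p q hp hq => rw [map_add, map_add, Submodule.coe_add, hp, hq]
  | monomial n a =>
    rw [← C_mul_X_pow_eq_monomial, ← smul_eq_C_mul, map_smul, map_smul, Submodule.coe_smul]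
    congr 1
    induction n with
    | zero => rw [pow_zero, pv_one, pv_one]
    | succ n ih => rw [pow_succ', pv_X, pv_X, sub_apply, ih]

omit [Finite V] in
theorem pv_quo (g : V ≃ₗ[F] V) (W : Stab g) (v : V) (p : F[X]) :
    pv (quo g W) (Submodule.Quotient.mk v) p = Submodule.Quotient.mk (pv g v p) := by
  induction p using Polynomial.induction_on' with
  | add p q hp hq => rw [map_add, map_add, Submodule.Quotient.mk_add, hp, hq]
  | monomial n a =>
    rw [← C_mul_X_pow_eq_monomial, ← smul_eq_C_mul, map_smul, map_smul,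
      Submodule.Quotient.mk_smul]
    congr 1
    induction n with
    | zero => rw [pow_zero, pv_one, pv_one]
    | succ n ih => rw [pow_succ', pv_X, pv_X, ih, quo_mk]

omit [Finite V] in
theorem isCyc_quo {g : V ≃ₗ[F] V} {v : V} (hv : IsCyc g v) (W : Stab g) :
    IsCyc (quo g W) (Submodule.Quotient.mk v) := by
  rw [isCyc_iff]
  intro x
  obtain ⟨x, rfl⟩ := Submodule.Quotient.mk_surjective _ x
  obtain ⟨p, rfl⟩ := (isCyc_iff g v).1 hv x
  exact ⟨p, pv_quo g W v p⟩

theorem mem_iff {g : V ≃ₗ[F] V} {v : V} (hv : IsCyc g v) (W : Stab g) (p : F[X]) :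
    pv g v p ∈ W.1 ↔ cp (quo g W) ∣ p := by
  rw [← pv_eq_zero_iff (isCyc_quo hv W), pv_quo, Submodule.Quotient.mk_eq_zero]

theorem isCyc_sub {g : V ≃ₗ[F] V} {v : V} (hv : IsCyc g v) (W : Stab g) :
    ∃ w, IsCyc (sub g W) w := by
  refine ⟨⟨pv g v (cp (quo g W)), (mem_iff hv W _).2 dvd_rfl⟩, ?_⟩
  rw [isCyc_iff]
  rintro ⟨x, hx⟩
  obtain ⟨p, rfl⟩ := (isCyc_iff g v).1 hv x
  obtain ⟨r, hr⟩ := (mem_iff hv W p).1 hx
  refine ⟨r, ?_⟩
  apply Subtype.ext
  rw [pv_sub]
  show pv g (pv g v (cp (quo g W))) r = pv g v p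
  rw [hr, mul_comm, pv_mul]

theorem quo_injective {g : V ≃ₗ[F] V} {v : V} (hv : IsCyc g v) {W W' : Stab g}
    (h : cp (quo g W) = cp (quo g W')) : W = W' := by
  apply Subtype.ext
  ext x
  obtain ⟨p, rfl⟩ := (isCyc_iff g v).1 hv x
  rw [mem_iff hv, mem_iff hv, h]

theorem sub_injective {g : V ≃ₗ[F] V} {v : V} (hv : IsCyc g v) {W W' : Stab g}
    (h : cp (sub g W) = cp (sub g W')) : W = W' := by
  apply quo_injective hv
  have h1 := cp_mul g W
  have h2 := cp_mul g W'
  rw [h2, ← h] at h1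
  exact (mul_left_cancel₀ (cp_monic (sub g W)).1.ne_zero h1).symm

omit [Finite V] in
theorem pv_comm (g : V ≃ₗ[F] V) (v : V) (p : F[X]) : pv g (g v) p = g (pv g v p) := by
  rw [← pv_X, mul_comm, pv_mul]
  congr 1
  have := pv_X g v 1
  rw [mul_one, pv_one] at this
  rw [this]

/-- the kernel of `D(g)` -/
noncomputable def kerD (g : V ≃ₗ[F] V) (D : F[X]) : Stab g :=
  ⟨LinearMap.ker (aeval (g : V →ₗ[F] V) D), by
    have : Module.Finite F V := Module.Finite.of_finite
    apply Submodule.eq_of_le_of_finrank_eq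
    · rintro _ ⟨x, hx, rfl⟩
      have hx' : pv g x D = 0 := hx
      show pv g (g x) D = 0
      rw [pv_comm, hx', map_zero]
    · exact LinearEquiv.finrank_map_eq g _⟩

theorem mem_kerD (g : V ≃ₗ[F] V) (D : F[X]) (x : V) : x ∈ (kerD g D).1 ↔ pv g x D = 0 := Iff.rfl

theorem cp_quo_kerD {g : V ≃ₗ[F] V} {v : V} (hv : IsCyc g v) {D E : F[X]} (hD : D.Monic)
    (hE : E.Monic) (h : cp g = D * E) : cp (quo g (kerD g D)) = E := by
  have key : ∀ p, cp (quo g (kerD g D)) ∣ p ↔ E ∣ p := by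
    intro p
    rw [← mem_iff hv, mem_kerD, ← pv_mul, pv_eq_zero_iff hv, h]
    exact mul_dvd_mul_iff_left hD.ne_zero
  exact eq_of_monic_of_associated (cp_monic _).1 hE
    (associated_of_dvd_dvd ((key E).2 dvd_rfl) ((key _).1 dvd_rfl))

theorem cp_sub_kerD {g : V ≃ₗ[F] V} {v : V} (hv : IsCyc g v) {D E : F[X]} (hD : D.Monic)
    (hE : E.Monic) (h : cp g = D * E) : cp (sub g (kerD g D)) = D := by
  have h1 := cp_mul g (kerD g D)
  rw [cp_quo_kerD hv hD hE h, h] at h1
  exact (mul_right_cancel₀ hE.ne_zero h1).symm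

end subquo

end Cyc

open Cyc

theorem exists_cyc [Finite F] (P : F[X]) (hP : P.Monic) (h0 : P.coeff 0 ≠ 0) :
    ∃ g : G F P.natDegree, cp g = P ∧ ∃ v, IsCyc g v := by
  classical
  let pb := AdjoinRoot.powerBasis' hP
  have hdim : pb.dim = P.natDegree := AdjoinRoot.powerBasis'_dim hP
  let e : AdjoinRoot P ≃ₗ[F] (Fin P.natDegree → F) :=
    (pb.basis.reindex (finCongr hdim)).equivFun
  have hfin : Module.Finite F (AdjoinRoot P) := Module.Finite.equiv e.symm
  have hunit : IsUnit (AdjoinRoot.root P) := by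
    have h1 : AdjoinRoot.mk P (P.divX * X + C (P.coeff 0)) = 0 := by
      rw [divX_mul_X_add, AdjoinRoot.mk_self]
    rw [map_add, map_mul, AdjoinRoot.mk_X] at h1
    have h2 : AdjoinRoot.root P * (AdjoinRoot.mk P P.divX *
        AdjoinRoot.mk P (C (-(P.coeff 0)⁻¹))) = 1 := by
      have h3 : AdjoinRoot.mk P (C (P.coeff 0)) * AdjoinRoot.mk P (C ((P.coeff 0)⁻¹)) = 1 := by
        rw [← map_mul, ← C_mul, mul_inv_cancel₀ h0, C_1, map_one]
      rw [C_neg, map_neg]
      linear_combination h3 - AdjoinRoot.mk P (C ((P.coeff 0)⁻¹)) * h1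
    exact IsUnit.of_mul_eq_one _ h2
  have hbij : Function.Bijective (LinearMap.mulLeft F (AdjoinRoot.root P)) := by
    refine ⟨?_, ?_⟩
    · intro x y hxy
      exact hunit.mul_left_cancel hxy
    · intro x
      obtain ⟨u, hu⟩ := hunit
      refine ⟨(↑u⁻¹ : AdjoinRoot P) * x, ?_⟩
      rw [LinearMap.mulLeft_apply, ← hu, ← mul_assoc, Units.mul_inv, one_mul]
  let m : AdjoinRoot P ≃ₗ[F] AdjoinRoot P := LinearEquiv.ofBijective _ hbij
  let g : G F P.natDegree := e.symm ≪≫ₗ m ≪≫ₗ e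
  have hg : ∀ x, g (e x) = e (AdjoinRoot.root P * x) := by
    intro x
    show e (m (e.symm (e x))) = _
    rw [e.symm_apply_apply]; rfl
  have hpv : ∀ p : F[X], pv g (e 1) p = e (AdjoinRoot.mk P p) := by
    intro p
    induction p using Polynomial.induction_on' with
    | add p q hp hq => rw [map_add, map_add, map_add, hp, hq]
    | monomial n a =>
      rw [← C_mul_X_pow_eq_monomial, ← smul_eq_C_mul, map_smul]
      have : AdjoinRoot.mk P (a • X ^ n) = a • AdjoinRoot.mk P (X ^ n) := by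
        rw [smul_eq_C_mul, map_mul, Algebra.smul_def]; rfl
      rw [this, map_smul]
      congr 1
      clear this
      induction n with
      | zero => rw [pow_zero, pv_one, map_one (AdjoinRoot.mk P)]
      | succ n ih => rw [pow_succ', pv_X, ih, hg, map_mul (AdjoinRoot.mk P), AdjoinRoot.mk_X]
  have hcyc : IsCyc g (e 1) := by
    rw [isCyc_iff]
    intro x
    obtain ⟨p, hp⟩ := AdjoinRoot.mk_surjective (e.symm x)
    exact ⟨p, by rw [hpv, hp, e.apply_symm_apply]⟩
  refine ⟨g, ?_, e 1, hcyc⟩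
  have key : ∀ p, cp g ∣ p ↔ P ∣ p := by
    intro p
    rw [← pv_eq_zero_iff hcyc, hpv, map_eq_zero_iff e e.injective, AdjoinRoot.mk_eq_zero]
  exact eq_of_monic_of_associated (cp_monic _).1 hP
    (associated_of_dvd_dvd ((key P).2 dvd_rfl) ((key _).1 dvd_rfl))

theorem val_eq [Finite F] (k : CF F) {V : Type} [AddCommGroup V] [Module F V] [Finite V]
    (g : V ≃ₗ[F] V) (v : V) (hv : IsCyc g v) : k V g = val k (cp g) := by
  obtain ⟨hm, -, h0⟩ := cp_monic g
  have hex := exists_cyc (cp g) hm h0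
  unfold val
  rw [dif_pos hex]
  obtain ⟨h1, w, hw⟩ := hex.choose_spec
  obtain ⟨e, he⟩ := exists_iso hv hw h1.symm
  exact k.inv' _ _ e _ _ he

theorem val_mul [Finite F] (f h : CF F) (P : F[X]) (hP : P.Monic) (h0 : P.coeff 0 ≠ 0) :
    val (f * h) P = ∑ᶠ D : {D : F[X] // D.Monic ∧ D ∣ P}, val f D.1 * val h (P /ₘ D.1) := by
  obtain ⟨g, hg, v, hv⟩ := exists_cyc P hP h0
  have h1 := val_eq (f * h) g v hv
  rw [hg] at h1
  rw [← h1, CF.mul_apply]
  let Φ : Stab g → {D : F[X] // D.Monic ∧ D ∣ P} := fun W =>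
    ⟨cp (sub g W), (cp_monic _).1, ⟨cp (quo g W), hg.symm.trans (cp_mul g W)⟩⟩
  refine finsum_eq_of_bijective Φ ⟨?_, ?_⟩ ?_
  · intro W W' hW
    exact sub_injective hv (congrArg Subtype.val hW)
  · rintro ⟨D, hD, E, hE⟩
    have hE' : E.Monic := by
      have := hP
      rw [hE] at this
      exact hD.of_mul_monic_left this
    refine ⟨kerD g D, ?_⟩
    apply Subtype.ext
    exact cp_sub_kerD hv hD hE' (hg.trans hE)
  · intro W
    obtain ⟨w, hw⟩ := isCyc_sub hv W
    rw [val_eq f _ w hw, val_eq h _ _ (isCyc_quo hv W)]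
    have h2 : P /ₘ cp (sub g W) = cp (quo g W) := by
      have h3 := mul_divByMonic_cancel_left (cp (quo g W)) (cp_monic (sub g W)).1
      rwa [← hg.symm.trans (cp_mul g W)] at h3
    show _ = val f (cp (sub g W)) * val h (P /ₘ cp (sub g W))
    rw [h2]

/-- an elliptic element has a cyclic vector -/
theorem isCyc_of_irreducible {V : Type} [AddCommGroup V] [Module F V] [Finite V]
    (g : V ≃ₗ[F] V) (hg : Irreducible (cp g)) (v : V) (hv : v ≠ 0) : IsCyc g v := by
  have : Module.Finite F V := Module.Finite.of_finite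
  let W : Stab g := ⟨LinearMap.range (pv g v), by
    apply Submodule.eq_of_le_of_finrank_eq
    · rintro _ ⟨_, ⟨p, rfl⟩, rfl⟩
      exact ⟨X * p, pv_X g v p⟩
    · exact LinearEquiv.finrank_map_eq g _⟩
  have hW := cp_mul g W
  have hu := hg.isUnit_or_isUnit hW
  have hdim : ∀ {U : Type} [AddCommGroup U] [Module F U] [Finite U] (a : U ≃ₗ[F] U),
      IsUnit (cp a) → Module.finrank F U = 0 := by
    intro U _ _ _ a ha
    rw [← (cp_monic a).2.1]
    exact natDegree_eq_zero_of_isUnit ha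
  rw [isCyc_iff, ← LinearMap.range_eq_top]
  rcases hu with hu | hu
  · exfalso
    have h1 := hdim _ hu
    rw [Submodule.finrank_eq_zero] at h1
    have h2 : v ∈ W.1 := ⟨1, pv_one g v⟩
    rw [h1] at h2
    exact hv ((Submodule.mem_bot F).1 h2)
  · have h1 := hdim _ hu
    have : Module.Finite F (V ⧸ W.1) := Module.Finite.of_finite
    rw [Module.finrank_eq_zero_iff_of_free] at h1
    exact Submodule.Quotient.subsingleton_iff.1 h1

end Pool.Agent.REll
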