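import Pool.Agent.Lib_helper45.REll.Defs2

/-! Block DELTA: the normalised degree is multiplicative. -/

open scoped BigOperators ComplexConjugate
open Polynomial

namespace Pool.Agent.REll
variable {F : Type} [Field F]

/-- normalised value at the identity -/
noncomputable def dl [Finite F] (n : ℕ) (f : CF F) : ℂ :=
  f (Fin n → F) (LinearEquiv.refl F _) / ∏ i ∈ Finset.Icc 1 n, ((Nat.card F : ℂ) ^ i - 1)

namespace Delta

theorem card_subspaces [Finite F] {V : Type} [AddCommGroup V] [Module F V] [Finite V] {a : ℕ}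
    (ha : a ≤ Module.finrank F V) :
    Nat.card {W : Submodule F V // Module.finrank F W = a} *
      ∏ i : Fin a, (Nat.card F ^ a - Nat.card F ^ (i : ℕ)) =
      ∏ i : Fin a, (Nat.card F ^ Module.finrank F V - Nat.card F ^ (i : ℕ)) := by
  classical
  have hVf : Module.Finite F V := Module.Finite.of_finite
  have := Fintype.ofFinite F
  have := Fintype.ofFinite {W : Submodule F V // Module.finrank F W = a}
  rw [Nat.card_eq_fintype_card (α := F), ← card_linearIndependent (K := F) (V := V) ha,
    ← Nat.card_eq_fintype_card (α := F)]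
  have h1 : ∀ W : {W : Submodule F V // Module.finrank F W = a},
      Nat.card {s : Fin a → W.1 // LinearIndependent F s} =
        ∏ i : Fin a, (Nat.card F ^ a - Nat.card F ^ (i : ℕ)) := by
    intro W
    have h2 := card_linearIndependent (K := F) (V := W.1) (k := a) (by rw [W.2])
    rw [h2, W.2, Nat.card_eq_fintype_card (α := F)]
  rw [Nat.card_congr (α := {s : Fin a → V // LinearIndependent F s})
    (β := (W : {W : Submodule F V // Module.finrank F W = a}) ×
      {s : Fin a → W.1 // LinearIndependent F s}) ?_]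
  · rw [Nat.card_sigma, Finset.sum_congr rfl (fun W _ => h1 W), Finset.sum_const,
      Finset.card_univ, smul_eq_mul, Nat.card_eq_fintype_card]
  · refine
      { toFun := fun s => ⟨⟨Submodule.span F (Set.range s.1), by
            rw [finrank_span_eq_card s.2, Fintype.card_fin]⟩,
          ⟨fun i => ⟨s.1 i, Submodule.subset_span ⟨i, rfl⟩⟩, ?_⟩⟩
        invFun := fun x => ⟨fun i => (x.2.1 i : V), ?_⟩
        left_inv := fun s => rfl
        right_inv := ?_ }
    · exact LinearIndependent.of_comp (Submodule.span F (Set.range s.1)).subtype s.2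
    · exact x.2.2.map' x.1.1.subtype (Submodule.ker_subtype _)
    · rintro ⟨⟨W, hW⟩, ⟨s, hs⟩⟩
      have h5 : LinearIndependent F (fun i => (s i : V)) :=
        hs.map' W.subtype (Submodule.ker_subtype _)
      have hspan : Submodule.span F (Set.range fun i => (s i : V)) = W := by
        apply Submodule.eq_of_le_of_finrank_eq
        · rw [Submodule.span_le]
          rintro _ ⟨i, rfl⟩
          exact (s i).2
        · rw [finrank_span_eq_card h5, Fintype.card_fin, hW]
      have key : ∀ (U : Submodule F V) (_ : Submodule.span F (Set.range fun i => (s i : V)) = U)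
          (hU : Module.finrank F U = a) (hm : ∀ i, (s i : V) ∈ U)
          (hl : LinearIndependent F (fun i => (⟨(s i : V), hm i⟩ : U)))
          (hU' : Module.finrank F (Submodule.span F (Set.range fun i => (s i : V))) = a)
          (hm' : ∀ i, (s i : V) ∈ Submodule.span F (Set.range fun i => (s i : V)))
          (hl' : LinearIndependent F (fun i => (⟨(s i : V), hm' i⟩ :
            Submodule.span F (Set.range fun i => (s i : V))))),
          (⟨⟨Submodule.span F (Set.range fun i => (s i : V)), hU'⟩,
            ⟨fun i => ⟨(s i : V), hm' i⟩, hl'⟩⟩ :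
            (W : {W : Submodule F V // Module.finrank F W = a}) ×
              {s : Fin a → W.1 // LinearIndependent F s}) =
          ⟨⟨U, hU⟩, ⟨fun i => ⟨(s i : V), hm i⟩, hl⟩⟩ := by
        rintro U rfl hU hm hl hU' hm' hl'
        rfl
      exact key W hspan hW (fun i => (s i).2) hs _ _ _


/-- `∏_{i=1}^n (q^i - 1)` -/
noncomputable def PP (q : ℂ) (n : ℕ) : ℂ := ∏ i ∈ Finset.Icc 1 n, (q ^ i - 1)

theorem PP_succ (q : ℂ) (n : ℕ) : PP q (n + 1) = PP q n * (q ^ (n + 1) - 1) := by
  unfold PP
  rw [Finset.prod_Icc_succ_top (by omega)]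

theorem PP_ne_zero {q : ℕ} (hq : 2 ≤ q) (n : ℕ) : PP (q : ℂ) n ≠ 0 := by
  unfold PP
  rw [Finset.prod_ne_zero_iff]
  intro i hi
  rw [Finset.mem_Icc] at hi
  have h1 : 1 < q ^ i := Nat.one_lt_pow (by omega) hq
  rw [sub_ne_zero]
  have h2 : (q ^ i : ℕ) ≠ 1 := by omega
  exact_mod_cast h2

theorem prod_desc (q : ℂ) (n a : ℕ) (ha : a ≤ n) :
    (∏ i ∈ Finset.range a, (q ^ n - q ^ i)) * PP q (n - a) =
      (∏ i ∈ Finset.range a, q ^ i) * PP q n := by
  induction a with
  | zero => simp
  | succ a ih =>
    have h1 := ih (by omega)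
    have h2 : n - a = (n - (a + 1)) + 1 := by omega
    rw [h2, PP_succ] at h1
    rw [Finset.prod_range_succ, Finset.prod_range_succ]
    have h3 : q ^ n - q ^ a = q ^ a * (q ^ (n - (a + 1) + 1) - 1) := by
      rw [mul_sub, ← pow_add, mul_one]
      congr 2
      omega
    rw [h3]
    linear_combination q ^ a * h1

theorem card_subspaces' [Finite F] {V : Type} [AddCommGroup V] [Module F V] [Finite V] {n a : ℕ}
    (hn : Module.finrank F V = n) (ha : a ≤ n) :
    (Nat.card {W : Submodule F V // Module.finrank F W = a} : ℂ) =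
      PP (Nat.card F) n / (PP (Nat.card F) a * PP (Nat.card F) (n - a)) := by
  have hq : 2 ≤ Nat.card F := Finite.one_lt_card
  have hq1 : 1 ≤ Nat.card F := by omega
  have h1 := card_subspaces (F := F) (V := V) (a := a) (by rw [hn]; exact ha)
  rw [hn] at h1
  have hcast : ∀ m, a ≤ m → ((∏ i : Fin a, (Nat.card F ^ m - Nat.card F ^ (i : ℕ)) : ℕ) : ℂ) =
      ∏ i ∈ Finset.range a, ((Nat.card F : ℂ) ^ m - (Nat.card F : ℂ) ^ i) := by
    intro m hm
    rw [← Fin.prod_univ_eq_prod_range (fun i => ((Nat.card F : ℂ) ^ m - (Nat.card F : ℂ) ^ i)) a]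
    push_cast
    apply Finset.prod_congr rfl
    intro i _
    rw [Nat.cast_sub (Nat.pow_le_pow_right hq1 (by omega))]
    push_cast
    rfl
  have h2 := congrArg (Nat.cast : ℕ → ℂ) h1
  rw [Nat.cast_mul, hcast a le_rfl, hcast n ha] at h2
  have e1 := prod_desc (Nat.card F : ℂ) a a le_rfl
  have e2 := prod_desc (Nat.card F : ℂ) n a ha
  rw [Nat.sub_self, show PP (Nat.card F : ℂ) 0 = 1 by simp [PP], mul_one] at e1
  have hc : (∏ i ∈ Finset.range a, (Nat.card F : ℂ) ^ i) ≠ 0 := by
    rw [Finset.prod_ne_zero_iff]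
    intro i _
    apply pow_ne_zero
    exact_mod_cast (by omega : Nat.card F ≠ 0)
  rw [eq_div_iff (mul_ne_zero (PP_ne_zero hq a) (PP_ne_zero hq (n - a)))]
  apply mul_left_cancel₀ hc
  rw [← e2, ← h2, e1]
  ring

end Delta

open Delta

theorem dl_mul [Finite F] (n : ℕ) (f h : CF F) :
    dl n (f * h) = ∑ a ∈ Finset.range (n + 1), dl a f * dl (n - a) h := by
  classical
  have hq : 2 ≤ Nat.card F := Finite.one_lt_card
  have := Fintype.ofFinite (Submodule F (Fin n → F))
  have hdl : ∀ (m : ℕ) (k : CF F), dl m k =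
      k (Fin m → F) (LinearEquiv.refl F _) / PP (Nat.card F) m := fun m k => rfl
  -- value on a space with the identity
  have hval : ∀ (k : CF F) {U : Type} [AddCommGroup U] [Module F U] [Finite U]
      (g : U ≃ₗ[F] U) (m : ℕ) (_ : Module.finrank F U = m) (_ : ∀ x, g x = x),
      k U g = k (Fin m → F) (LinearEquiv.refl F _) := by
    intro k U _ _ _ g m hm hg
    have : Module.Finite F U := Module.Finite.of_finite
    apply k.inv' _ _ (LinearEquiv.ofFinrankEq U (Fin m → F) (by rw [hm, Module.finrank_fin_fun]))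
    intro v
    rw [hg]; rfl
  have h1 : (f * h : CF F) (Fin n → F) (LinearEquiv.refl F _) =
      ∑ W : Submodule F (Fin n → F),
        f (Fin (Module.finrank F W) → F) (LinearEquiv.refl F _) *
          h (Fin (n - Module.finrank F W) → F) (LinearEquiv.refl F _) := by
    rw [CF.mul_apply, ← finsum_eq_sum_of_fintype]
    refine finsum_eq_of_bijective (fun W => W.1) ⟨?_, ?_⟩ ?_
    · intro W W' hW
      exact Subtype.ext hW
    · intro W
      exact ⟨⟨W, Submodule.map_id W⟩, rfl⟩
    · intro W
      rw [hval f (sub _ W) (Module.finrank F W.1) rfl (fun x => Subtype.ext rfl)]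
      rw [hval h (quo _ W) (n - Module.finrank F W.1) ?_ ?_]
      · have := Submodule.finrank_quotient_add_finrank W.1
        rw [Module.finrank_fin_fun] at this
        omega
      · intro x
        obtain ⟨x, rfl⟩ := Submodule.Quotient.mk_surjective _ x
        rfl
  have hle : ∀ W : Submodule F (Fin n → F), Module.finrank F W ∈ Finset.range (n + 1) := by
    intro W
    rw [Finset.mem_range, Nat.lt_succ_iff]
    calc _ ≤ Module.finrank F (Fin n → F) := Submodule.finrank_le W
      _ = n := Module.finrank_fin_fun F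
  rw [hdl, h1, ← Finset.sum_fiberwise_of_maps_to (fun W _ => hle W), Finset.sum_div]
  apply Finset.sum_congr rfl
  intro a ha
  rw [Finset.mem_range, Nat.lt_succ_iff] at ha
  have h2 : ∑ W ∈ Finset.univ.filter (fun W : Submodule F (Fin n → F) => Module.finrank F W = a),
        f (Fin (Module.finrank F W) → F) (LinearEquiv.refl F _) *
          h (Fin (n - Module.finrank F W) → F) (LinearEquiv.refl F _) =
      ∑ W ∈ Finset.univ.filter (fun W : Submodule F (Fin n → F) => Module.finrank F W = a),
        f (Fin a → F) (LinearEquiv.refl F _) * h (Fin (n - a) → F) (LinearEquiv.refl F _) := by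
    apply Finset.sum_congr rfl
    intro W hW
    rw [(Finset.mem_filter.1 hW).2]
  rw [h2, Finset.sum_const, nsmul_eq_mul, ← Fintype.card_subtype, ← Nat.card_eq_fintype_card,
    card_subspaces' (Module.finrank_fin_fun F) ha, hdl, hdl]
  have e1 := PP_ne_zero hq n
  have e2 := PP_ne_zero hq a
  have e3 := PP_ne_zero hq (n - a)
  field_simp

end Pool.Agent.REll
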