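import Pool.Agent.Lib_helper45.REll.Bridge3

/-! Block INN: the abstract inner product and primitivity versus the concrete ones. -/

open scoped BigOperators ComplexConjugate
open Polynomial

namespace Pool.Agent.REll
variable {F : Type} [Field F] [Finite F]

open CF

namespace INN

theorem repr_eq (x : AA F) (i : Idx F) :
    (((bas F).repr x i : ℤ) : ℂ) = ip i.1 (x : CF F) (ch i) := by
  classical
  have h1 : (x : CF F) = ∑ j ∈ ((bas F).repr x).support, ((bas F).repr x j) • ch j := by
    have h2 := (bas F).linearCombination_repr x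
    rw [Finsupp.linearCombination_apply, Finsupp.sum] at h2
    conv_lhs => rw [← h2]
    push_cast
    apply Finset.sum_congr rfl
    intro j _
    rw [bas_coe]
  rw [h1, ip_sum_left]
  by_cases hi : i ∈ ((bas F).repr x).support
  · rw [Finset.sum_eq_single i]
    · rw [ip_zsmul_left, ip_ch, if_pos rfl, mul_one]
    · intro j _ hj
      rw [ip_zsmul_left, ip_ch, if_neg hj, mul_zero]
    · intro h; exact absurd hi h
  · rw [Finsupp.notMem_support_iff.1 hi, Int.cast_zero]
    symm
    apply Finset.sum_eq_zero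
    intro j hj
    rw [ip_zsmul_left, ip_ch, if_neg (fun h : j = i => hi (h ▸ hj)), mul_zero]

theorem inn_def (x y : AA F) : (PG F).inn x y =
    ((bas F).repr x).sum fun i a => a * (bas F).repr y i := rfl

theorem inn_comm (x y : AA F) : (PG F).inn x y = (PG F).inn y x := by
  classical
  rw [inn_def, inn_def, Finsupp.sum, Finsupp.sum]
  have e1 : ∑ i ∈ ((bas F).repr x).support, (bas F).repr x i * (bas F).repr y i =
      ∑ i ∈ ((bas F).repr x).support ∪ ((bas F).repr y).support,
        (bas F).repr x i * (bas F).repr y i := by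
    apply Finset.sum_subset Finset.subset_union_left
    intro i _ hi
    rw [Finsupp.notMem_support_iff.1 hi, zero_mul]
  have e2 : ∑ i ∈ ((bas F).repr y).support, (bas F).repr y i * (bas F).repr x i =
      ∑ i ∈ ((bas F).repr x).support ∪ ((bas F).repr y).support,
        (bas F).repr y i * (bas F).repr x i := by
    apply Finset.sum_subset Finset.subset_union_right
    intro i _ hi
    rw [Finsupp.notMem_support_iff.1 hi, zero_mul]
  rw [e1, e2]
  apply Finset.sum_congr rfl
  intro i _
  rw [mul_comm]

theorem inn_bas_left (i : Idx F) (y : AA F) : (PG F).inn (bas F i) y = (bas F).repr y i := by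
  rw [inn_def, Module.Basis.repr_self, Finsupp.sum_single_index (by rw [zero_mul]), one_mul]

theorem inn_bas_mul (i a b : Idx F) : (PG F).inn (bas F i) (bas F a * bas F b) = mc a b i := by
  have h1 : (((PG F).inn (bas F i) (bas F a * bas F b) : ℤ) : ℂ) = ((mc a b i : ℤ) : ℂ) := by
    rw [inn_bas_left, repr_eq]
    push_cast
    rw [← mc_spec, bas_coe, bas_coe]
  exact_mod_cast h1

end INN

open INN

theorem inn_eq_ip (n : ℕ) (x y : AA F) (hx : (x : CF F).IsHom n) :
    (((PG F).inn x y : ℤ) : ℂ) = ip n (x : CF F) (y : CF F) := by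
  classical
  rw [ip_expand, ← sum_idxF n (fun χ => ip n (x : CF F) χ * conj (ip n (y : CF F) χ)), inn_def,
    Finsupp.sum]
  have hsub : ((bas F).repr x).support ⊆ idxF n := by
    intro i hi
    rw [mem_idxF]
    by_contra hne
    rw [Finsupp.mem_support_iff] at hi
    apply hi
    have h1 := repr_eq x i
    rw [ip_eq_zero_of_hom (Ne.symm hne) hx] at h1
    exact_mod_cast h1
  rw [Finset.sum_subset hsub (fun i _ hi => by rw [Finsupp.notMem_support_iff.1 hi, zero_mul])]
  push_cast
  apply Finset.sum_congr rfl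
  intro i hi
  rw [mem_idxF] at hi
  rw [repr_eq, repr_eq, hi]
  have h2 : conj (ip n (y : CF F) (ch i)) = ip n (y : CF F) (ch i) := by
    rw [← hi, ← repr_eq]
    simp
  rw [h2]

theorem prim_iff (x : AA F) : (PG F).Prim x ↔ IsPrim (x : CF F) := by
  classical
  have hmul : ∀ a b : Idx F, (((PG F).inn x (bas F a * bas F b) : ℤ) : ℂ) =
      ip (a.1 + b.1) (ch a * ch b) (x : CF F) := by
    intro a b
    rw [inn_comm, inn_eq_ip (a.1 + b.1)]
    · push_cast
      rw [bas_coe, bas_coe]
    · push_cast
      rw [bas_coe, bas_coe]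
      exact (ch_hom a).mul (ch_hom b)
  have hne : ∀ a : Idx F, a ≠ oneI F ↔ 0 < a.1 := by
    intro a
    constructor
    · intro h
      rcases Nat.eq_zero_or_pos a.1 with h0 | h0
      · exact absurd (eq_oneI a h0) h
      · exact h0
    · rintro h rfl
      exact absurd h (lt_irrefl 0)
  constructor
  · intro h A B _ _ _ _ _ _ α β hA hB
    rw [coprod_expand (x : CF F) α β (Module.finrank F A) (Module.finrank F B) rfl rfl]
    apply Finset.sum_eq_zero
    intro χ hχ
    apply Finset.sum_eq_zero
    intro ψ hψ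
    have h1 := h ⟨Module.finrank F A, χ, mem_irrF.1 hχ⟩ ⟨Module.finrank F B, ψ, mem_irrF.1 hψ⟩
      ((hne _).2 hA) ((hne _).2 hB)
    have h2 := hmul ⟨Module.finrank F A, χ, mem_irrF.1 hχ⟩ ⟨Module.finrank F B, ψ, mem_irrF.1 hψ⟩
    have h3 : ip (Module.finrank F A + Module.finrank F B) (χ * ψ) (x : CF F) = 0 := by
      refine Eq.trans ?_ (h2.symm.trans ?_)
      · rfl
      · have : (PG F).inn x (bas F ⟨Module.finrank F A, χ, mem_irrF.1 hχ⟩ *
          bas F ⟨Module.finrank F B, ψ, mem_irrF.1 hψ⟩) = 0 := h1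
        rw [this, Int.cast_zero]
    rw [h3, map_zero, zero_mul, zero_mul]
  · intro h i j hi hj
    have hi' : 0 < i.1 := (hne i).1 hi
    have hj' : 0 < j.1 := (hne j).1 hj
    have h1 := hmul i j
    rw [ip_mul' _ _ _ _ _ (ch_hom i)] at h1
    have h2 : ∀ (α : G F i.1) (β : G F j.1), ch i (Fin i.1 → F) α * ch j (Fin j.1 → F) β *
        conj (coprod (x : CF F) α β) = 0 := by
      intro α β
      rw [h _ _ α β (by rw [Module.finrank_fin_fun]; exact hi')
        (by rw [Module.finrank_fin_fun]; exact hj'), map_zero, mul_zero]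
    simp only [h2, finsum_zero, zero_div] at h1
    exact_mod_cast h1

theorem primIdx_iff (i : Idx F) : (PG F).PrimIdx i ↔ 0 < i.d ∧ IsPrim (ch i) := by
  have h1 : IsPrim (ch i) ↔ (PG F).Prim (bas F i) := by
    rw [prim_iff, bas_coe]
  rw [h1]
  constructor
  · rintro ⟨h0, h⟩
    refine ⟨h0, fun a b ha hb => ?_⟩
    have h2 : (PG F).inn (bas F i) (bas F a * bas F b) = mc a b i := inn_bas_mul i a b
    show (PG F).inn (bas F i) (bas F a * bas F b) = 0
    rw [h2]
    by_contra hc
    rcases h a b (by
      intro h3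
      apply hc
      show ((mc a b i : ℕ) : ℤ) = 0
      have h4 : mc a b i = 0 := h3
      rw [h4]; rfl) with h3 | h3
    · exact ha h3
    · exact hb h3
  · rintro ⟨h0, h⟩
    refine ⟨h0, fun a b hc => ?_⟩
    by_contra hcon
    push Not at hcon
    have h3 := h a b hcon.1 hcon.2
    have h2 : (PG F).inn (bas F i) (bas F a * bas F b) = mc a b i := inn_bas_mul i a b
    have h4 : (PG F).inn (bas F i) (bas F a * bas F b) = 0 := h3
    rw [h2] at h4
    apply hc
    show mc a b i = 0
    exact_mod_cast h4

end Pool.Agent.REll
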