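import Pool.Agent.Lib_helper25.REll_INTL
import Pool.Agent.Lib_helper89.REll_INTP
import Pool.Agent.Lib_helper97.REll_KF

/-! Block INT: integrality of `B`. -/

open scoped BigOperators ComplexConjugate
open Polynomial

namespace Pool.Agent.REll
variable {F : Type} [Field F]

namespace Intg

/-- a rational algebraic integer is an integer -/
theorem int_of_rat {x : ℂ} (hx : IsIntegral ℤ x) {r : ℚ} (h : x = (r : ℂ)) : ∃ z : ℤ, r = z := by
  have h1 : IsIntegral ℤ (r : ℂ) := h ▸ hx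
  have h2 : IsIntegral ℤ r := by
    have h3 : IsIntegral ℤ (algebraMap ℚ ℂ r) := h1
    exact (isIntegral_algebraMap_iff (algebraMap ℚ ℂ).injective).1 h3
  obtain ⟨z, hz⟩ := IsIntegrallyClosed.isIntegral_iff.1 h2
  exact ⟨z, hz.symm⟩

/-- an algebraic number divisible by all powers of `ℓ` is zero -/
theorem eq_zero_of_div {ℓ : ℕ} (hl : 2 ≤ ℓ) {α : ℂ} (ha : IsAlgebraic ℤ α)
    (h : ∀ b : ℕ, ∃ γ : ℂ, IsIntegral ℤ γ ∧ α = (ℓ : ℂ) ^ b * γ) : α = 0 := by
  by_contra hα
  have hβ : IsAlgebraic ℤ α⁻¹ := ha.inv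
  obtain ⟨c, hc, hint⟩ := hβ.exists_integral_multiple
  -- `c = ℓ^b * (c α⁻¹) * γ_b`
  obtain ⟨γ, hγ, hαγ⟩ := h (c.natAbs)
  have hl0 : (ℓ : ℂ) ≠ 0 := by exact_mod_cast (by omega : ℓ ≠ 0)
  have h1 : (c : ℂ) = (ℓ : ℂ) ^ c.natAbs * ((c • α⁻¹) * γ) := by
    rw [zsmul_eq_mul]
    calc (c : ℂ) = (c : ℂ) * α⁻¹ * α := by field_simp
      _ = (c : ℂ) * α⁻¹ * ((ℓ : ℂ) ^ c.natAbs * γ) := by rw [← hαγ]
      _ = _ := by ring
  have hi : IsIntegral ℤ ((c • α⁻¹) * γ) := hint.mul hγ
  obtain ⟨y, hy⟩ : ∃ y, y = (c • α⁻¹) * γ := ⟨_, rfl⟩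
  rw [← hy] at h1 hi
  have h2 : y = (((c : ℚ) / (ℓ : ℚ) ^ c.natAbs : ℚ) : ℂ) := by
    push_cast
    rw [eq_div_iff (pow_ne_zero _ hl0), h1]
    ring
  obtain ⟨z, hz⟩ := int_of_rat hi h2
  have hlq : (ℓ : ℚ) ≠ 0 := by exact_mod_cast (by omega : ℓ ≠ 0)
  rw [div_eq_iff (pow_ne_zero _ hlq)] at hz
  have h3 : c = z * (ℓ : ℤ) ^ c.natAbs := by exact_mod_cast hz
  have hz0 : z ≠ 0 := by rintro rfl; rw [zero_mul] at h3; exact hc h3
  have h4 : c.natAbs = z.natAbs * ℓ ^ c.natAbs := by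
    conv_lhs => rw [h3]
    rw [Int.natAbs_mul, Int.natAbs_pow]
    rfl
  have h5 : c.natAbs < ℓ ^ c.natAbs := Nat.lt_pow_self (by omega)
  have h6 : 1 ≤ z.natAbs := Int.natAbs_pos.2 hz0
  have h7 : ℓ ^ c.natAbs ≤ z.natAbs * ℓ ^ c.natAbs := Nat.le_mul_of_pos_left _ h6
  omega

theorem isIntegral_nat (N : ℕ) : IsIntegral ℤ (N : ℂ) := by
  have := isIntegral_algebraMap (R := ℤ) (A := ℂ) (x := (N : ℤ))
  simpa using this

theorem isIntegral_int (N : ℤ) : IsIntegral ℤ (N : ℂ) := by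
  have := isIntegral_algebraMap (R := ℤ) (A := ℂ) (x := (N : ℤ))
  simpa using this

/-- an algebraic integer which is `ℓ`-adically close to rational integers is a rational integer -/
theorem int_of_close {ℓ : ℕ} (hl : 2 ≤ ℓ) {x : ℂ} (hx : IsIntegral ℤ x) {N : ℕ} (hN : N ≠ 0)
    (h : ∀ b : ℕ, ∃ (z : ℤ) (w : ℂ), IsIntegral ℤ w ∧ (N : ℂ) * x = N * z + (ℓ : ℂ) ^ b * w) :
    ∃ z : ℤ, x = z := by
  have hNc : (N : ℂ) ≠ 0 := by exact_mod_cast hN
  have hl0 : (ℓ : ℂ) ≠ 0 := by exact_mod_cast (by omega : ℓ ≠ 0)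
  have hxQ : IsIntegral ℚ x := hx.tower_top
  -- all roots of the minimal polynomial are equal to `x`
  have hroot : ∀ y : ℂ, aeval y (minpoly ℚ x) = 0 → y = x := by
    intro y hy
    have hyI : IsIntegral ℤ y := by
      obtain ⟨Q, hQ, hQx⟩ := hx
      refine ⟨Q, hQ, ?_⟩
      have h1 : aeval x (Q.map (algebraMap ℤ ℚ)) = 0 := by
        rw [aeval_map_algebraMap]; exact hQx
      have h2 := aeval_eq_zero_of_dvd_aeval_eq_zero (minpoly.dvd ℚ x h1) hy
      rw [aeval_map_algebraMap] at h2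
      exact h2
    have key : (N : ℂ) * (x - y) = 0 := by
      apply eq_zero_of_div hl
      · exact ((isIntegral_nat N).mul (hx.sub hyI)).isAlgebraic
      · intro b
        obtain ⟨z, w, hw, hwx⟩ := h b
        refine ⟨w - ((N : ℂ) * y - N * z) / (ℓ : ℂ) ^ b, ?_, ?_⟩
        · apply hw.sub
          -- conjugate of `w`
          obtain ⟨Q, hQ, hQw⟩ := hw
          refine ⟨Q, hQ, ?_⟩
          let L : ℚ[X] := C ((N : ℚ) / (ℓ : ℚ) ^ b) * X - C ((N : ℚ) * z / (ℓ : ℚ) ^ b)
          have hL : ∀ t : ℂ, aeval t L = ((N : ℂ) * t - N * z) / (ℓ : ℂ) ^ b := by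
            intro t
            simp only [L, map_sub, map_mul, aeval_C, aeval_X, eq_ratCast]
            push_cast
            ring
          have hLx : aeval x L = w := by
            rw [hL, hwx]
            field_simp
            ring
          have h1 : aeval x ((Q.map (algebraMap ℤ ℚ)).comp L) = 0 := by
            rw [aeval_comp, hLx, aeval_map_algebraMap]; exact hQw
          have h2 := aeval_eq_zero_of_dvd_aeval_eq_zero (minpoly.dvd ℚ x h1) hy
          rw [aeval_comp, hL, aeval_map_algebraMap] at h2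
          exact h2
        · have hwx' : w = ((N : ℂ) * x - N * z) / (ℓ : ℂ) ^ b := by
            rw [eq_div_iff (pow_ne_zero _ hl0), hwx]; ring
          rw [hwx']
          field_simp
          ring
    have h2 := (mul_eq_zero.1 key).resolve_left hNc
    exact (sub_eq_zero.1 h2).symm
  -- degree one
  have hsep : (minpoly ℚ x).Separable := (minpoly.irreducible hxQ).separable
  have hspl : ((minpoly ℚ x).map (algebraMap ℚ ℂ)).Splits := IsAlgClosed.splits _
  have hcard : Fintype.card ((minpoly ℚ x).rootSet ℂ) = (minpoly ℚ x).natDegree :=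
    card_rootSet_eq_natDegree hsep hspl
  have hone : Fintype.card ((minpoly ℚ x).rootSet ℂ) ≤ 1 := by
    rw [Fintype.card_le_one_iff]
    rintro ⟨a, ha⟩ ⟨b, hb⟩
    rw [mem_rootSet] at ha hb
    apply Subtype.ext
    show a = b
    rw [hroot a ha.2, hroot b hb.2]
  have hdeg : (minpoly ℚ x).natDegree = 1 := by
    have := minpoly.natDegree_pos hxQ
    omega
  have hmem : x ∈ (algebraMap ℚ ℂ).range := minpoly.mem_range_of_degree_eq_one ℚ x (by
    rw [degree_eq_natDegree (minpoly.ne_zero hxQ), hdeg]; rfl)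
  obtain ⟨r, hr⟩ := hmem
  obtain ⟨z, hz⟩ := int_of_rat hx (r := r) hr.symm
  exact ⟨z, by rw [← hr, hz]; simp⟩


/-- integrality from the prime-to-`ℓ` multiples -/
theorem isIntegral_of_local {x : ℂ}
    (h : ∀ ℓ : ℕ, ℓ.Prime → ∃ m : ℕ, ¬ ℓ ∣ m ∧ IsIntegral ℤ ((m : ℂ) * x)) : IsIntegral ℤ x := by
  let I : Ideal ℤ :=
    { carrier := {m | IsIntegral ℤ ((m : ℂ) * x)}
      add_mem' := by
        intro a b ha hb
        show IsIntegral ℤ (((a + b : ℤ) : ℂ) * x)
        have : ((a + b : ℤ) : ℂ) * x = (a : ℂ) * x + (b : ℂ) * x := by push_cast; ring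
        rw [this]
        exact IsIntegral.add ha hb
      zero_mem' := by
        show IsIntegral ℤ (((0 : ℤ) : ℂ) * x)
        rw [Int.cast_zero, zero_mul]; exact isIntegral_zero
      smul_mem' := by
        intro c a ha
        show IsIntegral ℤ (((c * a : ℤ) : ℂ) * x)
        have : ((c * a : ℤ) : ℂ) * x = (c : ℂ) * ((a : ℂ) * x) := by push_cast; ring
        rw [this]
        exact (isIntegral_int c).mul ha }
  by_cases hI : I = ⊤
  · have h1 : (1 : ℤ) ∈ I := by rw [hI]; trivial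
    have h2 : IsIntegral ℤ (((1 : ℤ) : ℂ) * x) := h1
    rwa [Int.cast_one, one_mul] at h2
  · exfalso
    obtain ⟨M, hM, hIM⟩ := Ideal.exists_le_maximal I hI
    obtain ⟨a, ha⟩ := (IsPrincipalIdealRing.principal M).principal
    have hMp : M.IsPrime := hM.isPrime
    have ha0 : a ≠ 0 := by
      rintro rfl
      -- `M = 0`, but `I ≤ M` contains a positive integer
      obtain ⟨m, hm, hmx⟩ := h 2 Nat.prime_two
      have h1 : (m : ℤ) ∈ I := by
        show IsIntegral ℤ (((m : ℤ) : ℂ) * x)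
        rw [Int.cast_natCast]; exact hmx
      have h2 := hIM h1
      rw [ha] at h2
      have h3 : (m : ℤ) = 0 := by simpa using h2
      apply hm
      have : m = 0 := by exact_mod_cast h3
      rw [this]; exact dvd_zero _
    have hap : Prime a := by
      have : (Ideal.span {a}).IsPrime := by
        have := hMp
        rwa [ha] at this
      exact (Ideal.span_singleton_prime ha0).1 this
    obtain ⟨m, hm, hmx⟩ := h a.natAbs (Int.prime_iff_natAbs_prime.1 hap)
    have h1 : (m : ℤ) ∈ I := by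
      show IsIntegral ℤ (((m : ℤ) : ℂ) * x)
      rw [Int.cast_natCast]; exact hmx
    have h2 := hIM h1
    rw [ha] at h2
    have h3 : a ∣ (m : ℤ) := Ideal.mem_span_singleton.1 h2
    exact hm (Int.natAbs_dvd_natAbs.2 h3)

theorem isIntegral_mulChar {K : Type} [Field K] [Finite K] (θ : MulChar K ℂ) (x : K) :
    IsIntegral ℤ (θ x) := by
  have := Fintype.ofFinite K
  by_cases hx : x = 0
  · rw [hx, MulChar.map_zero]; exact isIntegral_zero
  · have h1 : (θ x) ^ (Fintype.card K - 1) = 1 := by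
      rw [← map_pow, FiniteField.pow_card_sub_one_eq_one x hx, map_one]
    have h2 : 0 < Fintype.card K - 1 := by
      have := Fintype.one_lt_card (α := K)
      omega
    exact IsIntegral.of_pow h2 (by rw [h1]; exact isIntegral_one)

theorem isIntegral_Bf {K : Type} [Field K] [Finite K] [Algebra F K] (θ : MulChar K ℂ)
    {V : Type} [AddCommGroup V] [Module F V] [Finite V] (g : V ≃ₗ[F] V) :
    IsIntegral ℤ (CF.Bf K θ V g) := by
  show IsIntegral ℤ (((cp g).map (algebraMap F K)).roots.map (fun x => θ x)).sum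
  apply IsIntegral.multiset_sum
  intro y hy
  obtain ⟨x, -, rfl⟩ := Multiset.mem_map.1 hy
  exact isIntegral_mulChar θ x

/-- the characteristic polynomial of `g ^ q` -/
theorem cp_pow_card [Finite F] {n : ℕ} (g : G F n) : cp (g ^ Nat.card F) = cp g := by
  classical
  have := Fintype.ofFinite F
  have hfin : Module.Finite F (Fin n → F) := Module.Finite.of_finite
  unfold cp
  rw [← LinearMap.charpoly_toMatrix _ (Pi.basisFun F (Fin n)),
    ← LinearMap.charpoly_toMatrix (g : (Fin n → F) →ₗ[F] (Fin n → F)) (Pi.basisFun F (Fin n)),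
    ← FiniteField.Matrix.charpoly_pow_card (LinearMap.toMatrix (Pi.basisFun F (Fin n))
      (Pi.basisFun F (Fin n)) (g : (Fin n → F) →ₗ[F] (Fin n → F))), ← Nat.card_eq_fintype_card]
  congr 1
  have h1 : ((g ^ Nat.card F : G F n) : (Fin n → F) →ₗ[F] (Fin n → F)) =
      (g : (Fin n → F) →ₗ[F] (Fin n → F)) ^ Nat.card F := by
    ext1 x
    ext i
    simp only [LinearEquiv.coe_coe, LinearMap.coe_comp, Function.comp_apply]
    rw [LinearEquiv.pow_apply, Module.End.pow_apply]
    rfl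
  rw [h1]
  exact (LinearMap.toMatrixAlgEquiv (Pi.basisFun F (Fin n))).map_pow _ _

theorem cp_pow_card_pow [Finite F] {n : ℕ} (g : G F n) (j : ℕ) :
    cp (g ^ (Nat.card F ^ j)) = cp g := by
  induction j with
  | zero => rw [pow_zero, pow_one]
  | succ j ih => rw [pow_succ, pow_mul, cp_pow_card, ih]

end Intg

open Intg

theorem ip_Bf_int [Finite F] {K : Type} [Field K] [Finite K] [Algebra F K]
    (n : ℕ) (hK : Big F n K) (θ : MulChar K ℂ)
    {X : Type} [AddCommGroup X] [Module ℂ X] [FiniteDimensional ℂ X]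
    (ρ : Representation ℂ (G F n) X) :
    ∃ z : ℤ, gip (fun g => CF.Bf K θ (Fin n → F) g) ρ.character = z := by
  classical
  obtain ⟨x, hx⟩ : ∃ x, x = gip (fun g : G F n => CF.Bf K θ (Fin n → F) g) ρ.character :=
    ⟨_, rfl⟩
  rw [← hx]
  obtain ⟨p, hp⟩ := CharP.exists F
  have hpp : Fact p.Prime := ⟨CharP.char_is_prime F p⟩
  obtain ⟨r, hr⟩ : ∃ r : ℕ, 1 ≤ r ∧ Nat.card F = p ^ r := by
    have := Fintype.ofFinite F
    obtain ⟨r, -, hr⟩ := FiniteField.card F p
    exact ⟨r, r.2, by rw [Nat.card_eq_fintype_card, hr]⟩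
  have hGpos : 0 < Nat.card (G F n) := Nat.card_pos
  have hGne : Nat.card (G F n) ≠ 0 := hGpos.ne'
  -- prime `ℓ ≠ p`
  have hl : ∀ ℓ : ℕ, ℓ.Prime → ℓ ≠ p → ∃ m : ℕ, ¬ ℓ ∣ m ∧ IsIntegral ℤ ((m : ℂ) * x) := by
    intro ℓ hℓ hℓp
    have hlF : ¬ ℓ ∣ Nat.card F := by
      rw [hr.2]
      intro h
      exact hℓp ((Nat.prime_dvd_prime_iff_eq hℓ hpp.1).1 (hℓ.dvd_of_dvd_pow h))
    obtain ⟨z, w, hw, h1⟩ := l_part_rational_integral n hK θ ℓ hℓ hlF
      ((Nat.card (G F n)).factorization ℓ) ρ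
    rw [← hx] at h1
    refine ⟨Nat.card (G F n) / ℓ ^ (Nat.card (G F n)).factorization ℓ,
      Nat.not_dvd_ordCompl hℓ hGne, ?_⟩
    have h2 := Nat.ordProj_mul_ordCompl_eq_self (Nat.card (G F n)) ℓ
    obtain ⟨m, hm⟩ : ∃ m, m = Nat.card (G F n) / ℓ ^ (Nat.card (G F n)).factorization ℓ :=
      ⟨_, rfl⟩
    rw [← hm] at h2 ⊢
    have h3 : (Nat.card (G F n) : ℂ) = (ℓ : ℂ) ^ (Nat.card (G F n)).factorization ℓ * m := by
      exact_mod_cast h2.symm
    have hl0 : (ℓ : ℂ) ^ (Nat.card (G F n)).factorization ℓ ≠ 0 :=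
      pow_ne_zero _ (by exact_mod_cast hℓ.ne_zero)
    rw [h3] at h1
    have h4 : (m : ℂ) * x = m * z + w := by
      apply mul_left_cancel₀ hl0
      linear_combination h1
    rw [h4]
    exact ((isIntegral_nat m).mul (isIntegral_int z)).add hw
  have hint : IsIntegral ℤ x := by
    apply isIntegral_of_local
    intro ℓ hℓ
    by_cases hℓp : ℓ = p
    · subst hℓp
      refine ⟨Nat.card (G F n) / ℓ ^ (Nat.card (G F n)).factorization ℓ,
        Nat.not_dvd_ordCompl hℓ hGne, ?_⟩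
      rw [hx]
      apply p_part_integral ℓ
      · intro a g
        apply (CF.Bf K θ).inv' _ _ a⁻¹
        intro v
        show a⁻¹ (a (g (a⁻¹ v))) = g (a⁻¹ v)
        rw [← LinearEquiv.mul_apply, inv_mul_cancel]
        rfl
      · intro g
        exact isIntegral_Bf θ g
      · refine ⟨r * Nat.card (G F n), ?_, ?_⟩
        · intro g
          rw [pow_mul, ← hr.2]
          show (((cp (g ^ (Nat.card F ^ Nat.card (G F n)))).map (algebraMap F K)).roots.map
            (fun x => θ x)).sum = (((cp g).map (algebraMap F K)).roots.map (fun x => θ x)).sum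
          rw [cp_pow_card_pow]
        · intro g hdvd
          have h1 : orderOf g ∣ Nat.card (G F n) := orderOf_dvd_natCard g
          rw [orderOf_pow] at hdvd
          obtain ⟨j, hj, hgcd⟩ := (Nat.dvd_prime_pow hℓ).1
            (Nat.gcd_dvd_right (orderOf g) (ℓ ^ (r * Nat.card (G F n))))
          rw [hgcd] at hdvd
          have hgd : ℓ ^ j ∣ orderOf g := hgcd ▸ Nat.gcd_dvd_left _ _
          have h2 : ℓ ^ (j + 1) ∣ orderOf g := by
            obtain ⟨c, hc⟩ := hdvd
            obtain ⟨d, hd⟩ := hgd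
            rw [hd, Nat.mul_div_cancel_left _ (pow_pos hℓ.pos j)] at hc
            rw [hd, hc, pow_succ]
            exact ⟨c, by ring⟩
          by_cases hjM : j < r * Nat.card (G F n)
          · have h3 : ℓ ^ (j + 1) ∣ ℓ ^ j := by
              rw [← hgcd]
              exact Nat.dvd_gcd h2 (pow_dvd_pow _ hjM)
            have h4 := (Nat.pow_dvd_pow_iff_le_right hℓ.one_lt).1 h3
            omega
          · have h5 : ℓ ^ (Nat.card (G F n)) ∣ Nat.card (G F n) := by
              refine dvd_trans (pow_dvd_pow _ ?_) (h2.trans h1)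
              have : 1 * Nat.card (G F n) ≤ r * Nat.card (G F n) := Nat.mul_le_mul_right _ hr.1
              omega
            have h6 := Nat.le_of_dvd hGpos h5
            have h7 : Nat.card (G F n) < ℓ ^ Nat.card (G F n) := Nat.lt_pow_self hℓ.one_lt
            omega
      · exact (Nat.ordProj_mul_ordCompl_eq_self _ _).symm
    · exact hl ℓ hℓ hℓp
  -- a prime different from `p`
  obtain ⟨ℓ, hℓ, hℓp⟩ : ∃ ℓ : ℕ, ℓ.Prime ∧ ℓ ≠ p := by
    by_cases h : p = 2
    · exact ⟨3, Nat.prime_three, by omega⟩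
    · exact ⟨2, Nat.prime_two, by omega⟩
  have hlF : ¬ ℓ ∣ Nat.card F := by
    rw [hr.2]
    intro h
    exact hℓp ((Nat.prime_dvd_prime_iff_eq hℓ hpp.1).1 (hℓ.dvd_of_dvd_pow h))
  apply int_of_close hℓ.two_le hint hGne
  intro b
  obtain ⟨z, w, hw, h1⟩ := l_part_rational_integral n hK θ ℓ hℓ hlF b ρ
  rw [← hx] at h1
  exact ⟨z, w, hw, h1⟩

end Pool.Agent.REll
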