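import Pool.Agent.Lib_helper45.REll.Defs3

/-! Block SIGN. -/

open scoped BigOperators ComplexConjugate
open Polynomial

namespace Pool.Agent.REll.PSH
universe u v
variable {I : Type u} {A : Type v} [CommRing A] (P : PSH I A)

/-- a rational algebraic integer is an integer -/
theorem int_of_rat_aux {x : ℂ} (hx : IsIntegral ℤ x) {r : ℚ} (h : x = (r : ℂ)) :
    ∃ z : ℤ, r = z := by
  have h1 : IsIntegral ℤ (r : ℂ) := h ▸ hx
  have h2 : IsIntegral ℤ r := by
    have h3 : IsIntegral ℤ (algebraMap ℚ ℂ r) := h1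
    exact (isIntegral_algebraMap_iff (algebraMap ℚ ℂ).injective).1 h3
  obtain ⟨z, hz⟩ := IsIntegrallyClosed.isIntegral_iff.1 h2
  exact ⟨z, hz.symm⟩

theorem c_ne_of_sq {r i j : I} (hij : i ≠ j) (h : P.b r * P.b r = P.b i + P.b j) :
    P.c r r i ≠ 0 ∧ P.c r r j ≠ 0 := by
  classical
  have h1 := P.mul r r
  rw [h] at h1
  have hfin : (Function.support fun k => ((P.c r r k : ℤ)) • P.b k).Finite := by
    refine (P.fin (P.deg r + P.deg r)).subset ?_
    intro k hk
    apply P.c_deg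
    intro h0
    apply hk
    show (P.c r r k : ℤ) • P.b k = 0
    rw [h0]; simp
  have hco : ∀ k, P.b.repr (P.b i + P.b j) k = P.c r r k := by
    intro k
    rw [h1, ← Module.Basis.coord_apply, finsum_eq_sum_of_support_subset (s := hfin.toFinset)
      _ (by simp), map_sum]
    simp only [map_smul, Module.Basis.coord_apply, Module.Basis.repr_self, smul_eq_mul]
    rw [Finset.sum_eq_single k]
    · simp
    · intro l _ hl
      rw [Finsupp.single_eq_of_ne (Ne.symm hl), mul_zero]
    · intro hk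
      rw [Set.Finite.mem_toFinset, Function.mem_support, not_not] at hk
      have : (P.c r r k : ℤ) = 0 := by
        have h2 := congrArg (fun x => P.b.repr x k) hk
        simp only [map_smul, map_zero, Finsupp.smul_apply, Module.Basis.repr_self,
          Finsupp.single_eq_same, Finsupp.zero_apply, smul_eq_mul, mul_one] at h2
        exact h2
      rw [this]; simp
  have hi := hco i
  have hj := hco j
  rw [map_add, Finsupp.add_apply, Module.Basis.repr_self, Module.Basis.repr_self,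
    Finsupp.single_eq_same, Finsupp.single_eq_of_ne hij] at hi
  rw [map_add, Finsupp.add_apply, Module.Basis.repr_self, Module.Basis.repr_self,
    Finsupp.single_eq_same, Finsupp.single_eq_of_ne (Ne.symm hij)] at hj
  constructor
  · intro h0; rw [h0] at hi; norm_num at hi
  · intro h0; rw [h0] at hj; norm_num at hj

theorem sign_proof {r : I} (hr : P.PrimIdx r) (N : ℕ) (hN : 2 * P.deg r ≤ N) (U : A →+* ℂ)
    (hU : ∀ i, IsIntegral ℤ (U (P.b i))) (R : ℕ → ℕ → A)
    (hUR : ∀ m a, 1 ≤ m → m ≤ N → U (R m a) = 1)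
    (hid : ∀ i₂ (H : P.HK r i₂) (m : ℕ), 1 ≤ m → m * P.deg r ≤ N →
      ∃ a, R (m * P.deg r) a = H.p m ∨ R (m * P.deg r) a = - H.p m) :
    ∃ (i₂ : I) (H : P.HK r i₂) (u : ℤ), (u = 1 ∨ u = -1) ∧ ∀ m a, 1 ≤ m → m * P.deg r ≤ N →
      (R (m * P.deg r) a = H.p m ∨ R (m * P.deg r) a = - H.p m) →
      H.p m = u ^ m • R (m * P.deg r) a := by
  classical
  have hdr : 0 < P.deg r := hr.1
  obtain ⟨i, j, hij, hsq⟩ := P.sq hr
  obtain ⟨hci, hcj⟩ := P.c_ne_of_sq hij hsq
  -- values of `p`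
  have hUp : ∀ i₂ (H : P.HK r i₂) (m : ℕ), 1 ≤ m → m * P.deg r ≤ N →
      U (H.p m) = 1 ∨ U (H.p m) = -1 := by
    intro i₂ H m hm hmN
    obtain ⟨a, ha⟩ := hid i₂ H m hm hmN
    have h1 := hUR (m * P.deg r) a (Nat.mul_pos (by omega) hdr) hmN
    rcases ha with ha | ha
    · left; rw [← ha, h1]
    · right; rw [ha, map_neg] at h1; linear_combination -h1
  have hp1 : ∀ i₂ (H : P.HK r i₂), H.p 1 = P.b r := by
    intro i₂ H
    have h1 := H.newton 1 le_rfl
    rw [Finset.Icc_self, Finset.sum_singleton, Nat.sub_self, H.h0, mul_one, H.h1, Nat.cast_one,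
      one_mul] at h1
    exact h1.symm
  have hp2 : ∀ i₂ (H : P.HK r i₂), 2 * P.b i₂ = P.b r * P.b r + H.p 2 := by
    intro i₂ H
    have h1 := H.newton 2 (by norm_num)
    rw [show Finset.Icc 1 2 = {1, 2} by decide, Finset.sum_pair (by norm_num)] at h1
    simp only [Nat.cast_ofNat] at h1
    rw [H.h2, hp1, show 2 - 1 = 1 by norm_num, H.h1, Nat.sub_self, H.h0, mul_one] at h1
    exact h1
  obtain ⟨Hi⟩ := P.nonempty_HK hr hci
  obtain ⟨Hj⟩ := P.nonempty_HK hr hcj
  obtain ⟨u, hu, hUu⟩ : ∃ u : ℤ, (u = 1 ∨ u = -1) ∧ U (P.b r) = u := by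
    have h1 := hUp i Hi 1 le_rfl (by omega)
    rw [hp1] at h1
    rcases h1 with h1 | h1
    · exact ⟨1, Or.inl rfl, by rw [h1]; simp⟩
    · exact ⟨-1, Or.inr rfl, by rw [h1]; simp⟩
  have hu2 : (u : ℂ) * u = 1 := by
    rcases hu with rfl | rfl <;> norm_num
  have hU2 : ∀ i₂ (_ : P.HK r i₂), U (P.b i₂) = 1 ∨ U (P.b i₂) = 0 := by
    intro i₂ H
    have h1 := congrArg U (hp2 i₂ H)
    rw [map_mul, map_add, map_mul, hUu, hu2, map_ofNat] at h1
    rcases hUp i₂ H 2 (by norm_num) hN with h2 | h2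
    · left; rw [h2] at h1; linear_combination h1 / 2
    · right; rw [h2] at h1; linear_combination h1 / 2
  have hsum : U (P.b i) + U (P.b j) = 1 := by
    rw [← map_add, ← hsq, map_mul, hUu, hu2]
  obtain ⟨i₂, H, hi₂⟩ : ∃ (i₂ : I) (_ : P.HK r i₂), U (P.b i₂) = 1 := by
    rcases hU2 i Hi with h1 | h1
    · exact ⟨i, Hi, h1⟩
    · refine ⟨j, Hj, ?_⟩
      rw [h1, zero_add] at hsum
      exact hsum
  refine ⟨i₂, H, u, hu, ?_⟩
  have hupow : ∀ m : ℕ, ((u : ℂ) ^ m = 1 ∨ (u : ℂ) ^ m = -1) := by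
    intro m
    rcases hu with rfl | rfl
    · left; simp
    · rcases neg_one_pow_eq_or ℂ m with h | h
      · left; push_cast; exact h
      · right; push_cast; exact h
  have key : ∀ m : ℕ, m * P.deg r ≤ N → U (H.h m) = (u : ℂ) ^ m ∧ (1 ≤ m → U (H.p m) = (u : ℂ) ^ m) := by
    intro m
    induction m using Nat.strong_induction_on with
    | _ m ih =>
    intro hmN
    rcases Nat.eq_zero_or_pos m with rfl | hm
    · refine ⟨by rw [H.h0, map_one, pow_zero], fun h => absurd h (by norm_num)⟩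
    rcases Nat.lt_or_ge m 2 with hm2 | hm2
    · have : m = 1 := by omega
      subst this
      refine ⟨by rw [H.h1, hUu, pow_one], fun _ => by rw [hp1, hUu, pow_one]⟩
    rcases Nat.lt_or_ge m 3 with hm3 | hm3
    · have : m = 2 := by omega
      subst this
      have h1 := congrArg U (hp2 i₂ H)
      rw [map_mul, map_add, map_mul, hUu, hu2, map_ofNat, hi₂] at h1
      refine ⟨by rw [H.h2, hi₂, pow_two, hu2], fun _ => ?_⟩
      rw [pow_two, hu2]
      linear_combination -h1
    -- `m ≥ 3`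
    have hle : ∀ j, j < m → j * P.deg r ≤ N := fun j hj =>
      (Nat.mul_le_mul_right _ hj.le).trans hmN
    have hnew := congrArg U (H.newton m hm)
    obtain ⟨k, rfl⟩ : ∃ k, m = k + 1 := ⟨m - 1, by omega⟩
    rw [Finset.sum_Icc_succ_top (by omega), Nat.sub_self, H.h0, mul_one, map_mul, map_natCast,
      map_add, map_sum] at hnew
    have h1 : ∑ j ∈ Finset.Icc 1 k, U (H.p j * H.h (k + 1 - j)) = k * (u : ℂ) ^ (k + 1) := by
      rw [Finset.sum_congr rfl (g := fun _ => (u : ℂ) ^ (k + 1))]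
      · rw [Finset.sum_const, Nat.card_Icc, nsmul_eq_mul]; simp
      · intro j hj
        rw [Finset.mem_Icc] at hj
        rw [map_mul, (ih j (by omega) (hle j (by omega))).2 hj.1,
          (ih (k + 1 - j) (by omega) (hle _ (by omega))).1, ← pow_add]
        congr 1
        omega
    rw [h1] at hnew
    push_cast at hnew
    have hk0 : ((k : ℂ) + 1) ≠ 0 := by exact_mod_cast (by omega : k + 1 ≠ 0)
    have hUpm := hUp i₂ H (k + 1) hm hmN
    have hcase : U (H.p (k + 1)) = (u : ℂ) ^ (k + 1) ∨ U (H.p (k + 1)) = -(u : ℂ) ^ (k + 1) := by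
      rcases hupow (k + 1) with h2 | h2 <;> rcases hUpm with h3 | h3 <;> rw [h2, h3] <;> simp
    rcases hcase with h2 | h2
    · refine ⟨?_, fun _ => h2⟩
      rw [h2] at hnew
      apply mul_left_cancel₀ hk0
      linear_combination hnew
    · exfalso
      rw [h2] at hnew
      obtain ⟨l, hl, -⟩ := H.hb (k + 1)
      have hint : IsIntegral ℤ (U (H.h (k + 1))) := by rw [hl]; exact hU l
      have hval : U (H.h (k + 1)) = (u : ℂ) ^ (k + 1) * ((k - 1) / (k + 1)) := by
        field_simp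
        linear_combination hnew
      have hrat : U (H.h (k + 1)) = (((u : ℚ) ^ (k + 1) * ((k - 1) / (k + 1)) : ℚ) : ℂ) := by
        rw [hval]; push_cast; rfl
      obtain ⟨z, hz⟩ := int_of_rat_aux hint hrat
      have huq : ((u : ℚ) ^ (k + 1)) ^ 2 = 1 := by
        rw [← pow_mul, mul_comm, pow_mul]
        have : (u : ℚ) ^ 2 = 1 := by rcases hu with rfl | rfl <;> norm_num
        rw [this, one_pow]
      have hk2 : (2 : ℚ) ≤ k := by exact_mod_cast (by omega : 2 ≤ k)
      have hsq2 : (z : ℚ) ^ 2 = ((k - 1) / (k + 1)) ^ 2 := by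
        rw [← hz, mul_pow, huq, one_mul]
      have hpos : (0 : ℚ) < (k - 1) / (k + 1) := div_pos (by linarith) (by linarith)
      have hlt : ((k : ℚ) - 1) / (k + 1) < 1 := by
        rw [div_lt_one (by linarith)]; linarith
      have h4 : (0 : ℚ) < (z : ℚ) ^ 2 := by rw [hsq2]; positivity
      have h5 : (z : ℚ) ^ 2 < 1 := by rw [hsq2]; nlinarith
      have h6 : 0 < z ^ 2 := by exact_mod_cast h4
      have h7 : z ^ 2 < 1 := by exact_mod_cast h5
      omega
  intro m a hm hmN hR
  have h1 := hUR (m * P.deg r) a (Nat.mul_pos (by omega) hdr) hmN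
  have h2 := (key m hmN).2 hm
  rcases hR with hR | hR
  · rw [hR] at h1 ⊢
    rw [h1] at h2
    have h3 : u ^ m = 1 := by exact_mod_cast h2.symm
    rw [h3, one_smul]
  · have h4 : U (H.p m) = -1 := by
      rw [hR, map_neg] at h1
      linear_combination -h1
    rw [h4] at h2
    have h3 : u ^ m = -1 := by exact_mod_cast h2.symm
    rw [h3, hR]
    simp

end Pool.Agent.REll.PSH
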