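import Pool.Agent.Lib_helper15.REll_CYC

/-! Block VALR: values of `R` at cyclic pairs (no need for `Big`). -/

open scoped BigOperators ComplexConjugate
open Polynomial

namespace Pool.Agent.REll
variable {F : Type} [Field F]

namespace Cyc

section
variable {K : Type} [Field K] [Algebra F K]

theorem minpoly_dvd_iff_root (x : K) (P : F[X]) :
    minpoly F x ∣ P ↔ (P.map (algebraMap F K)).IsRoot x := by
  rw [minpoly.dvd_iff, IsRoot.def, eval_map_algebraMap]

/-- the root multiplicity is the multiplicity of the minimal polynomial -/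
theorem rootMultiplicity_eq [Finite F] [Finite K] (x : K) {P : F[X]} (hP : P ≠ 0) :
    (P.map (algebraMap F K)).rootMultiplicity x = multiplicity (minpoly F x) P := by
  classical
  have hint : IsIntegral F x := IsIntegral.of_finite F x
  have hirr : Irreducible (minpoly F x) := minpoly.irreducible hint
  have hfm : FiniteMultiplicity (minpoly F x) P :=
    FiniteMultiplicity.of_prime_left hirr.prime hP
  obtain ⟨Q, hQ, hnd⟩ := hfm.exists_eq_pow_mul_and_not_dvd
  obtain ⟨e, he⟩ : ∃ e, e = multiplicity (minpoly F x) P := ⟨_, rfl⟩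
  rw [← he] at hQ ⊢
  have hsep : (minpoly F x).Separable := PerfectField.separable_of_irreducible hirr
  have hQ0 : Q ≠ 0 := by rintro rfl; exact hnd (dvd_zero _)
  have hm0 : (minpoly F x).map (algebraMap F K) ≠ 0 :=
    Polynomial.map_ne_zero hirr.ne_zero
  have hQm0 : Q.map (algebraMap F K) ≠ 0 := Polynomial.map_ne_zero hQ0
  have h1 : ((minpoly F x).map (algebraMap F K)).rootMultiplicity x = 1 := by
    apply le_antisymm
    · exact rootMultiplicity_le_one_of_separable (hsep.map) x
    · rw [Nat.one_le_iff_ne_zero, ← Nat.pos_iff_ne_zero, rootMultiplicity_pos hm0,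
        ← minpoly_dvd_iff_root]
  have h2 : (Q.map (algebraMap F K)).rootMultiplicity x = 0 := by
    apply rootMultiplicity_eq_zero
    rw [← minpoly_dvd_iff_root]
    exact hnd
  rw [hQ, Polynomial.map_mul, Polynomial.map_pow, rootMultiplicity_mul
    (mul_ne_zero (pow_ne_zero _ hm0) hQm0), h2, ← count_roots, roots_pow, Multiset.count_nsmul,
    count_roots, h1]
  simp

instance finite_dvd [Finite F] (P : F[X]) [hP : Fact P.Monic] :
    Finite {D : F[X] // D.Monic ∧ D ∣ P} := by
  have : Module.Finite F (degreeLT F (P.natDegree + 1)) :=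
    Module.Finite.equiv (degreeLTEquiv F _).symm
  have : Finite (degreeLT F (P.natDegree + 1)) := Module.finite_of_finite F
  refine Finite.of_injective (β := degreeLT F (P.natDegree + 1))
    (fun D => ⟨D.1, ?_⟩) ?_
  · rw [mem_degreeLT]
    have h1 := natDegree_le_of_dvd D.2.2 hP.1.ne_zero
    rw [degree_eq_natDegree D.2.1.ne_zero]
    exact_mod_cast Nat.lt_succ_of_le h1
  · intro D D' h
    apply Subtype.ext
    exact congrArg (fun z : degreeLT F (P.natDegree + 1) => (z : F[X])) h

/-- monic prime powers vanishing at `x` -/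
theorem primePow_root [Finite F] [Finite K] (x : K) {D : F[X]} (hD : D.Monic)
    (hpp : IsPrimePow D) (hx : (D.map (algebraMap F K)).IsRoot x) :
    ∃ k, 1 ≤ k ∧ D = minpoly F x ^ k := by
  obtain ⟨q, k, hq, hk, rfl⟩ := hpp
  have hint : IsIntegral F x := IsIntegral.of_finite F x
  have h1 : minpoly F x ∣ q ^ k := (minpoly_dvd_iff_root x _).2 hx
  have hirr : Irreducible (minpoly F x) := minpoly.irreducible hint
  have h2 : minpoly F x ∣ q := hirr.prime.dvd_of_dvd_pow h1
  have h3 : Associated (minpoly F x) q := hirr.associated_of_dvd hq.irreducible h2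
  refine ⟨k, hk, ?_⟩
  exact (eq_of_monic_of_associated ((minpoly.monic hint).pow k) hD (h3.pow_pow)).symm

theorem card_primePow [Finite F] [Finite K] (x : K) {P : F[X]} (hP : P.Monic) :
    Nat.card {D : {D : F[X] // D.Monic ∧ D ∣ P} // IsPrimePow D.1 ∧
      (D.1.map (algebraMap F K)).IsRoot x} = (P.map (algebraMap F K)).rootMultiplicity x := by
  have hint : IsIntegral F x := IsIntegral.of_finite F x
  have hirr : Irreducible (minpoly F x) := minpoly.irreducible hint
  have hm := minpoly.monic hint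
  have hfm : FiniteMultiplicity (minpoly F x) P :=
    FiniteMultiplicity.of_prime_left hirr.prime hP.ne_zero
  rw [rootMultiplicity_eq x hP.ne_zero]
  obtain ⟨e, he⟩ : ∃ e, e = multiplicity (minpoly F x) P := ⟨_, rfl⟩
  rw [← he]
  have hdvd : ∀ k, minpoly F x ^ k ∣ P ↔ k ≤ e := by
    intro k
    rw [he, hfm.pow_dvd_iff_le_multiplicity]
  have hroot : ∀ k, 1 ≤ k → ((minpoly F x ^ k).map (algebraMap F K)).IsRoot x := by
    intro k hk
    rw [← minpoly_dvd_iff_root]
    exact dvd_pow_self _ (by omega)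
  have hdeg : 0 < (minpoly F x).natDegree := minpoly.natDegree_pos hint
  rw [← Nat.card_fin e]
  symm
  apply Nat.card_congr
  refine Equiv.ofBijective (fun k : Fin e => ⟨⟨minpoly F x ^ (k.1 + 1), hm.pow _,
    (hdvd _).2 (by omega)⟩, ⟨minpoly F x, k.1 + 1, hirr.prime, by omega, rfl⟩,
    hroot _ (by omega)⟩) ⟨?_, ?_⟩
  · intro k k' h
    have h1 : minpoly F x ^ (k.1 + 1) = minpoly F x ^ (k'.1 + 1) :=
      congrArg (fun z => z.1.1) h
    have h2 := congrArg natDegree h1
    rw [natDegree_pow, natDegree_pow] at h2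
    have h3 := Nat.eq_of_mul_eq_mul_right hdeg h2
    apply Fin.ext
    omega
  · rintro ⟨⟨D, hD, hDP⟩, hpp, hx⟩
    obtain ⟨k, hk, hDk⟩ := primePow_root x hD hpp hx
    subst hDk
    have h1 := (hdvd k).1 hDP
    refine ⟨⟨k - 1, by omega⟩, ?_⟩
    apply Subtype.ext
    apply Subtype.ext
    show minpoly F x ^ (k - 1 + 1) = minpoly F x ^ k
    rw [Nat.sub_add_cancel hk]

theorem sum_lam [Finite F] [Finite K] (θ : MulChar K ℂ) {P : F[X]} (hP : P.Monic) :
    ∑ᶠ D : {D : F[X] // D.Monic ∧ D ∣ P}, lam K θ D.1 =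
      ((P.map (algebraMap F K)).roots.map (fun x => θ x)).sum := by
  classical
  have := Fact.mk hP
  have := Fintype.ofFinite {D : F[X] // D.Monic ∧ D ∣ P}
  have := Fintype.ofFinite K
  rw [finsum_eq_sum_of_fintype]
  have h1 : ∀ D : {D : F[X] // D.Monic ∧ D ∣ P}, lam K θ D.1 =
      ∑ x : K, if IsPrimePow D.1 ∧ (D.1.map (algebraMap F K)).IsRoot x then θ x else 0 := by
    intro D
    unfold lam
    split_ifs with h
    · rw [← Finset.sum_filter]
      apply Finset.sum_congr _ (fun _ _ => rfl)
      ext x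
      rw [Multiset.mem_toFinset, mem_roots (Polynomial.map_ne_zero D.2.1.ne_zero),
        Finset.mem_filter]
      simp [h]
    · symm
      apply Finset.sum_eq_zero
      intro x _
      rw [if_neg]
      exact fun h' => h h'.1
  rw [Finset.sum_congr rfl (fun D _ => h1 D), Finset.sum_comm, Finset.sum_multiset_map_count]
  rw [Finset.sum_subset (Finset.subset_univ (P.map (algebraMap F K)).roots.toFinset)]
  · apply Finset.sum_congr rfl
    intro x _
    rw [← Finset.sum_filter, Finset.sum_const, count_roots, ← card_primePow x hP,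
      Nat.card_eq_fintype_card, Fintype.card_subtype]
  · intro x _ hx
    rw [Multiset.mem_toFinset] at hx
    rw [Multiset.count_eq_zero_of_notMem hx, zero_smul]

end

theorem val_of [Finite F] (k : CF F) (P : F[X]) (hP : P.Monic) (h0 : P.coeff 0 ≠ 0) :
    ∃ g : G F P.natDegree, cp g = P ∧ (∃ v, IsCyc g v) ∧ val k P = k _ g := by
  obtain ⟨g, hg, v, hv⟩ := exists_cyc P hP h0
  have h1 := val_eq k g v hv
  rw [hg] at h1
  exact ⟨g, hg, ⟨v, hv⟩, h1.symm⟩

theorem val_allOne [Finite F] (P : F[X]) (hP : P.Monic) (h0 : P.coeff 0 ≠ 0) :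
    val CF.allOne P = 1 := by
  obtain ⟨g, -, -, hg⟩ := val_of CF.allOne P hP h0
  rw [hg]; rfl

theorem val_Bf [Finite F] {K : Type} [Field K] [Algebra F K] (θ : MulChar K ℂ)
    (P : F[X]) (hP : P.Monic) (h0 : P.coeff 0 ≠ 0) :
    val (CF.Bf K θ) P = ((P.map (algebraMap F K)).roots.map (fun x => θ x)).sum := by
  obtain ⟨g, h1, -, hg⟩ := val_of (CF.Bf K θ) P hP h0
  rw [hg]
  show (((cp g).map (algebraMap F K)).roots.map (fun x => θ x)).sum = _
  rw [h1]

end Cyc

open Cyc

theorem val_R' [Finite F] {K : Type} [Field K] [Finite K] [Algebra F K] (θ : MulChar K ℂ)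
    (R : CF F) (hR : R * CF.allOne = CF.Bf K θ)
    (P : F[X]) (hP : P.Monic) (h0 : P.coeff 0 ≠ 0) :
    val R P = lam K θ P := by
  classical
  induction hn : P.natDegree using Nat.strong_induction_on generalizing P with
  | _ n ih =>
  have := Fact.mk hP
  have := Fintype.ofFinite {D : F[X] // D.Monic ∧ D ∣ P}
  have h1 := val_mul R CF.allOne P hP h0
  rw [hR, val_Bf θ P hP h0, ← sum_lam θ hP, finsum_eq_sum_of_fintype,
    finsum_eq_sum_of_fintype] at h1
  have hquo : ∀ D : {D : F[X] // D.Monic ∧ D ∣ P}, val CF.allOne (P /ₘ D.1) = 1 := by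
    rintro ⟨D, hD, E, hE⟩
    have h2 : P /ₘ D = E := by rw [hE]; exact mul_divByMonic_cancel_left _ hD
    have h3 : E.Monic := by
      have := hP
      rw [hE] at this
      exact hD.of_mul_monic_left this
    show val CF.allOne (P /ₘ D) = 1
    rw [h2]
    apply val_allOne E h3
    intro h4
    apply h0
    rw [hE, mul_coeff_zero, h4, mul_zero]
  have h2 : ∑ D : {D : F[X] // D.Monic ∧ D ∣ P}, (val R D.1 - lam K θ D.1) = 0 := by
    rw [Finset.sum_sub_distrib, h1, sub_eq_zero]
    apply Finset.sum_congr rfl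
    intro D _
    rw [hquo, mul_one]
  rw [Finset.sum_eq_single ⟨P, hP, dvd_rfl⟩] at h2
  · exact sub_eq_zero.1 h2
  · rintro ⟨D, hD, hDP⟩ _ hne
    have hne' : D ≠ P := fun h => hne (Subtype.ext h)
    obtain ⟨E, hE⟩ := hDP
    have h3 : E.Monic := by
      have := hP
      rw [hE] at this
      exact hD.of_mul_monic_left this
    have hdeg : D.natDegree < n := by
      rw [← hn, hE, hD.natDegree_mul h3]
      have : E.natDegree ≠ 0 := by
        intro h4
        apply hne'
        rw [hE, (h3.natDegree_eq_zero).1 h4, mul_one]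
      omega
    rw [ih _ hdeg D hD _ rfl, sub_self]
    intro h4
    apply h0
    rw [hE, mul_coeff_zero, h4, zero_mul]
  · intro h; exact absurd (Finset.mem_univ _) h

theorem val_R [Finite F] {K : Type} [Field K] [Finite K] [Algebra F K] (θ : MulChar K ℂ)
    (R : CF F) (hR : R * CF.allOne = CF.Bf K θ) (n : ℕ) (hK : Big F n K)
    (P : F[X]) (hP : P.Monic) (h0 : P.coeff 0 ≠ 0) (hn : P.natDegree ≤ n) :
    val R P = lam K θ P := val_R' θ R hR P hP h0

end Pool.Agent.REll
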